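import Pool.Agent.Lib.MP_ffcda7_coU.PolyK

set_option autoImplicit false

open Finset

namespace Pool.Agent.Lib.MP_ffcda7_coU

open Pool.Agent.Lib.MP_ffcda7_co (FB HasBasis f g)

private theorem allS_e (n : ℕ) (hn : 1 ≤ n) : (n + 1) ^ n ≤ 3 * n ^ n := by
  have hn0 : (0 : ℝ) < n := by exact_mod_cast hn
  have h1 : ((n : ℝ) + 1) / n ≤ Real.exp (1 / n) := by
    have h2 := Real.add_one_le_exp (1 / (n : ℝ))
    have h3 : ((n : ℝ) + 1) / n = 1 / n + 1 := by field_simp; ring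
    rw [h3]; exact h2
  have h4 : (((n : ℝ) + 1) / n) ^ n ≤ 3 := by
    calc (((n : ℝ) + 1) / n) ^ n ≤ Real.exp (1 / n) ^ n :=
          pow_le_pow_left₀ (by positivity) h1 n
      _ = Real.exp 1 := by
          rw [← Real.exp_nat_mul]
          congr 1
          field_simp
      _ ≤ 3 := Real.exp_one_lt_three.le
  have h5 : ((n : ℝ) + 1) ^ n ≤ 3 * (n : ℝ) ^ n := by
    rw [div_pow, div_le_iff₀ (by positivity)] at h4
    exact h4
  exact_mod_cast h5

private theorem allS_fact (m : ℕ) : m ^ m ≤ 3 ^ m * m.factorial := by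
  induction m with
  | zero => simp
  | succ n ih =>
    rcases Nat.eq_zero_or_pos n with h0 | h0
    · subst h0; simp
    calc (n + 1) ^ (n + 1) = (n + 1) ^ n * (n + 1) := pow_succ _ _
      _ ≤ 3 * n ^ n * (n + 1) := Nat.mul_le_mul_right _ (allS_e n h0)
      _ ≤ 3 * (3 ^ n * n.factorial) * (n + 1) :=
          Nat.mul_le_mul_right _ (Nat.mul_le_mul_left _ ih)
      _ = 3 ^ (n + 1) * (n + 1).factorial := by rw [Nat.factorial_succ, pow_succ]; ring

private theorem allS_small (m s q : ℕ) (hq1 : 1 ≤ q) (h : s < m * (q + 1)) :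
    (m + s).choose m ≤ (9 * q) ^ m := by
  have h1 : (m + s).choose m * m.factorial ≤ (m + s) ^ m := by
    rw [mul_comm, ← Nat.descFactorial_eq_factorial_mul_choose]
    exact Nat.descFactorial_le_pow _ _
  have h2 : m + s ≤ 3 * q * m := by
    have e1 : m * (q + 1) = m * q + m := by ring
    have e2 : 3 * q * m = m * q + m * q + m * q := by ring
    have e3 : m * 1 ≤ m * q := Nat.mul_le_mul_left m hq1
    omega
  have h3 : (m + s).choose m * m.factorial ≤ (9 * q) ^ m * m.factorial := by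
    calc (m + s).choose m * m.factorial ≤ (m + s) ^ m := h1
      _ ≤ (3 * q * m) ^ m := Nat.pow_le_pow_left h2 m
      _ = (3 * q) ^ m * m ^ m := by rw [mul_pow]
      _ ≤ (3 * q) ^ m * (3 ^ m * m.factorial) := Nat.mul_le_mul_left _ (allS_fact m)
      _ = (9 * q) ^ m * m.factorial := by
          rw [← mul_assoc, ← mul_pow]
          congr 2
          ring
  exact Nat.le_of_mul_le_mul_right h3 (Nat.factorial_pos m)

/-- All `s ≥ m`. Proof: let `B = binom(m + s, m)`, `l = Nat.log 2 B ≥ 1`, `q = s / m`,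
`j = Nat.clog 2 (6 (l + 1)) ≤ Nat.log 2 l + 5`. If `m < 2 j` use `B ≤ (9 q) ^ m`. Otherwise take
`main2` with `k = 1` for `(m - j, s - j)` and `loss`:
`B ≤ ((m + s) ^ 2 / ((m - j + 1) (s - j + 1))) ^ j g ≤ (32 q) ^ j g`. -/
theorem allS (m s : ℕ) (hm1 : 1 ≤ m) (hms : m ≤ s) : (m + s).choose m ≤
    (32 * (s / m)) ^ (10 * (Nat.log 2 (Nat.log 2 ((m + s).choose m)) + 1)) * g m s := by
  obtain ⟨q, hq⟩ : ∃ q, q = s / m := ⟨_, rfl⟩
  have hq1 : 1 ≤ q := by
    rw [hq]; exact (Nat.one_le_div_iff hm1).2 hms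
  have hsq : s < m * (q + 1) := by
    rw [hq]; exact Nat.lt_mul_div_succ s hm1
  have hs1 : 1 ≤ s := hm1.trans hms
  have hBL := Nat.lt_pow_succ_log_self one_lt_two ((m + s).choose m)
  have hB2 : 2 ≤ (m + s).choose m := by
    have h1 : (m + 1).choose m ≤ (m + s).choose m := Nat.choose_le_choose m (by omega)
    rw [Nat.choose_succ_self_right] at h1
    omega
  have hl1 : 1 ≤ Nat.log 2 ((m + s).choose m) := Nat.log_pos one_lt_two hB2
  have hsmall := allS_small m s q hq1 hsq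
  have hloss := fun a b j => loss a b j
  have hg : 1 ≤ g m s := (Nat.one_le_pow _ _ (Nat.succ_pos _)).trans (pow_le_g' m s hs1)
  obtain ⟨l, hl⟩ : ∃ l, l = Nat.log 2 ((m + s).choose m) := ⟨_, rfl⟩
  rw [← hl] at hBL hl1 ⊢
  obtain ⟨B, hB⟩ : ∃ B, B = (m + s).choose m := ⟨_, rfl⟩
  rw [← hB] at hBL hB2 hsmall ⊢
  rw [← hq]
  have hll := Nat.lt_pow_succ_log_self one_lt_two l
  obtain ⟨w, hw⟩ : ∃ w, w = Nat.log 2 l := ⟨_, rfl⟩
  rw [← hw] at hll ⊢
  have hj1 : 1 ≤ Nat.clog 2 (6 * (l + 1)) := Nat.clog_pos (by omega) (by omega)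
  have hjp := Nat.pow_pred_clog_lt_self (b := 2) (x := 6 * (l + 1)) (by omega) (by omega)
  have hjL := Nat.le_pow_clog (b := 2) (by omega) (6 * (l + 1))
  obtain ⟨j, hj⟩ : ∃ j, j = Nat.clog 2 (6 * (l + 1)) := ⟨_, rfl⟩
  rw [← hj] at hj1 hjp hjL
  have hjw : j ≤ w + 5 := by
    by_contra hcon
    have h1 : 2 ^ (w + 5) ≤ 2 ^ j.pred := Nat.pow_le_pow_right (by norm_num) (by
      have : j.pred = j - 1 := rfl
      omega)
    have h2 : 2 ^ (w + 5) = 16 * 2 ^ (w + 1) := by rw [pow_add, pow_add]; ring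
    omega
  have hj4 : 4 ≤ j := by
    by_contra hcon
    have h1 : 2 ^ j ≤ 2 ^ 3 := Nat.pow_le_pow_right (by norm_num) (by omega)
    omega
  have hbase : 1 ≤ 32 * q := by omega
  have hone : 1 ≤ (32 * q) ^ (10 * (w + 1)) := Nat.one_le_pow _ _ (by omega)
  rcases lt_or_ge m (2 * j) with hmj | hmj
  · calc B ≤ (9 * q) ^ m := hsmall
      _ ≤ (32 * q) ^ m := Nat.pow_le_pow_left (by omega) m
      _ ≤ (32 * q) ^ (10 * (w + 1)) := Nat.pow_le_pow_right (by omega) (by omega)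
      _ = (32 * q) ^ (10 * (w + 1)) * 1 := (mul_one _).symm
      _ ≤ (32 * q) ^ (10 * (w + 1)) * g m s := Nat.mul_le_mul_left _ hg
  obtain ⟨a, ha⟩ : ∃ a, m = a + j := ⟨m - j, by omega⟩
  obtain ⟨t, ht⟩ : ∃ t, s = t + j := ⟨s - j, by omega⟩
  have ha3 : 3 ≤ a := by omega
  have h8 := main2 a t 1 j (l + 1) ha3 hjL
  rw [mul_one, ← ha, ← ht] at h8
  rcases le_total ((a + t).choose a) (2 ^ (l + 1)) with h9 | h9
  · rw [min_eq_left h9] at h8
    have h10 := hloss a t j
    rw [← ha, ← ht, ← hB] at h10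
    have e2 : a + t + 2 * j = m + s := by omega
    rw [e2] at h10
    have h11 : (m + s) ^ 2 ≤ 32 * q * ((a + 1) * (t + 1)) := by
      have h12 : m ≤ 2 * (a + 1) := by omega
      have h13 : s ≤ 2 * (t + 1) := by omega
      have h16 : s ≤ 2 * q * m := by
        have e1 : m * (q + 1) = m * q + m := by ring
        have e2 : 2 * q * m = m * q + m * q := by ring
        have e3 : m * 1 ≤ m * q := Nat.mul_le_mul_left m hq1
        omega
      calc (m + s) ^ 2 ≤ (2 * s) ^ 2 := Nat.pow_le_pow_left (by omega) 2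
        _ = 4 * s * s := by ring
        _ ≤ 4 * (2 * q * m) * s := Nat.mul_le_mul_right _ (Nat.mul_le_mul_left _ h16)
        _ = 8 * q * (m * s) := by ring
        _ ≤ 8 * q * ((2 * (a + 1)) * (2 * (t + 1))) :=
          Nat.mul_le_mul_left _ (Nat.mul_le_mul h12 h13)
        _ = 32 * q * ((a + 1) * (t + 1)) := by ring
    have h14 : B ≤ (32 * q) ^ j * g m s := by
      have h15 : 0 < ((a + 1) * (t + 1)) ^ j := by positivity
      refine Nat.le_of_mul_le_mul_left ?_ h15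
      calc ((a + 1) * (t + 1)) ^ j * B ≤ (m + s) ^ (2 * j) * (a + t).choose a := h10
        _ ≤ (m + s) ^ (2 * j) * g m s := Nat.mul_le_mul_left _ h8
        _ = ((m + s) ^ 2) ^ j * g m s := by rw [pow_mul]
        _ ≤ (32 * q * ((a + 1) * (t + 1))) ^ j * g m s :=
          Nat.mul_le_mul_right _ (Nat.pow_le_pow_left h11 j)
        _ = ((a + 1) * (t + 1)) ^ j * ((32 * q) ^ j * g m s) := by rw [mul_pow]; ring
    exact h14.trans (Nat.mul_le_mul_right _ (Nat.pow_le_pow_right (by omega) (by omega)))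
  · rw [min_eq_right h9] at h8
    exact hBL.le.trans (h8.trans (Nat.le_mul_of_pos_left _ hone))

end Pool.Agent.Lib.MP_ffcda7_coU
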