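import Pool.Agent.Lib.MP_ffcda7_coU.Triv

set_option autoImplicit false

open Finset Filter Topology

namespace Pool.Agent.Lib.MP_ffcda7_coU

open Pool.Agent.Lib.MP_ffcda7_co (FB HasBasis f g)

private lemma asyF_choose (k l : ℕ) (hk : 0 < k) (hkl : k ≤ l) :
    ((k + l).choose k : ℝ) ≤ (6 * ((l : ℝ) / k)) ^ k := by
  have hk' : (0 : ℝ) < k := by exact_mod_cast hk
  have hkl' : (k : ℝ) ≤ l := by exact_mod_cast hkl
  have h1 : ((k + l).choose k : ℝ) ≤ ((k + l : ℕ) : ℝ) ^ k / (k.factorial : ℝ) :=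
    Nat.choose_le_pow_div k (k + l)
  have h2 : (k : ℝ) ^ k / (k.factorial : ℝ) ≤ Real.exp k :=
    Real.pow_div_factorial_le_exp (k : ℝ) hk'.le k
  have h3 : Real.exp k ≤ 3 ^ k := by
    have h31 : Real.exp k = Real.exp 1 ^ k := by
      rw [← Real.exp_nat_mul, mul_one]
    rw [h31]
    apply pow_le_pow_left₀ (Real.exp_pos 1).le
    have := Real.exp_one_lt_d9
    linarith
  have hf : (0 : ℝ) < (k.factorial : ℝ) := by exact_mod_cast Nat.factorial_pos k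
  have h4 : (k : ℝ) ^ k ≤ 3 ^ k * (k.factorial : ℝ) := by
    have := h2.trans h3
    rwa [div_le_iff₀ hf] at this
  have h5 : ((k + l : ℕ) : ℝ) ^ k ≤ (2 * (l : ℝ)) ^ k := by
    apply pow_le_pow_left₀ (by positivity)
    push_cast
    linarith
  refine h1.trans ?_
  rw [div_le_iff₀ hf]
  refine h5.trans ?_
  have h6 : (6 * ((l : ℝ) / k)) ^ k = (2 * (l : ℝ)) ^ k * (3 ^ k / (k : ℝ) ^ k) := by
    rw [← div_pow, ← mul_pow]
    congr 1
    field_simp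
    ring
  rw [h6, mul_assoc]
  have h7 : (0 : ℝ) ≤ (2 * (l : ℝ)) ^ k := by positivity
  have h8 : (1 : ℝ) ≤ 3 ^ k / (k : ℝ) ^ k * (k.factorial : ℝ) := by
    rw [div_mul_eq_mul_div, le_div_iff₀ (by positivity), one_mul]
    exact h4
  calc (2 * (l : ℝ)) ^ k = (2 * (l : ℝ)) ^ k * 1 := (mul_one _).symm
    _ ≤ _ := mul_le_mul_of_nonneg_left h8 h7

private lemma asyF_x (ε x : ℝ) (h0 : 0 < ε) (hx : (6 : ℝ) ^ (1 / ε) ≤ x) :
    (6 * x) ^ (1 - ε) ≤ x := by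
  have hR : (0 : ℝ) < (6 : ℝ) ^ (1 / ε) := by positivity
  have hx0 : 0 < x := hR.trans_le hx
  rw [Real.mul_rpow (by norm_num) hx0.le]
  have h2 : (6 : ℝ) ^ (1 - ε) ≤ x ^ ε := by
    calc (6 : ℝ) ^ (1 - ε) ≤ (6 : ℝ) ^ (1 : ℝ) :=
          Real.rpow_le_rpow_of_exponent_le (by norm_num) (by linarith)
      _ = ((6 : ℝ) ^ (1 / ε)) ^ ε := by
          rw [← Real.rpow_mul (by norm_num)]
          congr 1
          field_simp
      _ ≤ x ^ ε := Real.rpow_le_rpow hR.le hx h0.le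
  calc (6 : ℝ) ^ (1 - ε) * x ^ (1 - ε) ≤ x ^ ε * x ^ (1 - ε) :=
        mul_le_mul_of_nonneg_right h2 (by positivity)
    _ = x := by
        rw [← Real.rpow_add hx0]
        simp

private lemma asyF_key (ε : ℝ) (h0 : 0 < ε) (h1 : ε < 1) : ∃ Q : ℕ, ∀ k l : ℕ,
    Q ^ 2 + 1 ≤ k → k ≤ l → k < Nat.log 2 (k + l) ^ 2 →
      ((k + l).choose k : ℝ) ^ (1 - ε) ≤ (((l / k + 1) ^ k : ℕ) : ℝ) := by
  have hRpos : (0 : ℝ) < (6 : ℝ) ^ (1 / ε) := by positivity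
  have ht : Tendsto (fun n : ℕ => (n : ℝ) ^ 2 / (2 : ℝ) ^ n) atTop (𝓝 0) :=
    tendsto_pow_const_div_const_pow_of_one_lt 2 (by norm_num)
  have he : ∀ᶠ n : ℕ in atTop, (n : ℝ) ^ 2 / (2 : ℝ) ^ n < 1 / (2 * (6 : ℝ) ^ (1 / ε)) :=
    (tendsto_order.1 ht).2 _ (by positivity)
  obtain ⟨Q, hQ⟩ := eventually_atTop.1 he
  refine ⟨Q, fun k l hk hkl hlog => ?_⟩
  have hk0 : 0 < k := by omega
  have hk' : (0 : ℝ) < k := by exact_mod_cast hk0
  have hkl' : (k : ℝ) ≤ l := by exact_mod_cast hkl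
  have hq1 : 2 ^ Nat.log 2 (k + l) ≤ k + l := Nat.pow_log_le_self 2 (by omega)
  generalize Nat.log 2 (k + l) = q at hlog hq1
  have hqQ : Q ≤ q := by
    by_contra hc
    push Not at hc
    have : q ^ 2 ≤ Q ^ 2 := Nat.pow_le_pow_left hc.le 2
    omega
  have h2 := hQ q hqQ
  have hx : (6 : ℝ) ^ (1 / ε) ≤ (l : ℝ) / k := by
    generalize (6 : ℝ) ^ (1 / ε) = R at *
    rw [le_div_iff₀ hk']
    have a : (k : ℝ) < (q : ℝ) ^ 2 := by exact_mod_cast hlog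
    have b : (q : ℝ) ^ 2 * (2 * R) < 2 ^ q := by
      rw [div_lt_div_iff₀ (by positivity) (by positivity)] at h2
      linarith
    have c : (2 : ℝ) ^ q ≤ (k : ℝ) + l := by exact_mod_cast hq1
    have d : R * k ≤ R * (q : ℝ) ^ 2 := mul_le_mul_of_nonneg_left a.le hRpos.le
    nlinarith
  have hx0 : (0 : ℝ) ≤ (l : ℝ) / k := by positivity
  have hch := asyF_choose k l hk0 hkl
  calc ((k + l).choose k : ℝ) ^ (1 - ε) ≤ ((6 * ((l : ℝ) / k)) ^ k) ^ (1 - ε) :=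
        Real.rpow_le_rpow (by positivity) hch (by linarith)
    _ = ((6 * ((l : ℝ) / k)) ^ (1 - ε)) ^ k := by
        rw [← Real.rpow_natCast, ← Real.rpow_natCast, ← Real.rpow_mul (by positivity),
          ← Real.rpow_mul (by positivity), mul_comm (k : ℝ) (1 - ε)]
    _ ≤ ((l : ℝ) / k) ^ k :=
        pow_le_pow_left₀ (by positivity) (asyF_x ε _ h0 hx) k
    _ ≤ ((l / k : ℕ) + 1 : ℝ) ^ k := by
        apply pow_le_pow_left₀ hx0
        rw [div_le_iff₀ hk']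
        have h3 : l < (l / k + 1) * k :=
          (Nat.div_lt_iff_lt_mul hk0).mp (Nat.lt_succ_self _)
        exact_mod_cast h3.le
    _ = (((l / k + 1) ^ k : ℕ) : ℝ) := by push_cast; ring

/-- The case of very different parameters, by the elementary bounds. Proof: let `k = min(m, s)`,
`l = max(m, s)`. `g m s ≥ (l / k) ^ k` (`pow_le_g`, `pow_le_g'`; here `l / k` real) and
`binom(m + s, m) ≤ (m + s) ^ k / k! ≤ (e (m + s) / k) ^ k ≤ (6 l / k) ^ k`. So it is enough that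
`6 ^ (1 - ε) ≤ (l / k) ^ ε`, which holds for large `k`, as `2 l ≥ m + s ≥ 2 ^ q` with
`q = Nat.log 2 (m + s) > √k`. -/
theorem asyA_far (ε : ℝ) (h0 : 0 < ε) (h1 : ε < 1) :
    ∃ M : ℕ, ∀ m s : ℕ, M ≤ m → M ≤ s → min m s < Nat.log 2 (m + s) ^ 2 →
      ((m + s).choose m : ℝ) ^ (1 - ε) ≤ g m s := by
  obtain ⟨Q, hQ⟩ := asyF_key ε h0 h1
  refine ⟨Q ^ 2 + 1, fun m s hm hs hk => ?_⟩
  rcases le_total m s with h | h
  · rw [min_eq_left h] at hk
    refine (hQ m s hm h hk).trans ?_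
    exact_mod_cast pow_le_g m s (by omega)
  · rw [min_eq_right h] at hk
    have e : (m + s).choose m = (s + m).choose s := by
      rw [Nat.choose_symm_add, add_comm]
    rw [e]
    refine (hQ s m hs h (by rwa [add_comm])).trans ?_
    exact_mod_cast pow_le_g' m s (by omega)

end Pool.Agent.Lib.MP_ffcda7_coU
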