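import Pool.Agent.Lib.MP_ffcda7_coU.AsyB
import Pool.Agent.Lib.MP_ffcda7_coU.AsyF

set_option autoImplicit false

open Finset Filter Topology

namespace Pool.Agent.Lib.MP_ffcda7_coU

open Pool.Agent.Lib.MP_ffcda7_co (FB HasBasis f g)

/-- Proof: if `Nat.log 2 (m + s) ^ 2 ≤ min m s` use `asyB` with `1 - ε' = 2 ^ (- ε)` and
`two_pow_min_le`; otherwise `asyA_far`. -/
theorem asyA (ε : ℝ) (h0 : 0 < ε) (h1 : ε < 1) :
    ∃ M : ℕ, ∀ m s : ℕ, M ≤ m → M ≤ s → ((m + s).choose m : ℝ) ^ (1 - ε) ≤ g m s := by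
  have hlt : (2 : ℝ) ^ (-ε) < 1 :=
    Real.rpow_lt_one_of_one_lt_of_neg one_lt_two (neg_lt_zero.2 h0)
  have hpos : (0 : ℝ) < (2 : ℝ) ^ (-ε) := Real.rpow_pos_of_pos two_pos _
  obtain ⟨M1, hM1⟩ := asyB (1 - (2 : ℝ) ^ (-ε)) (by linarith) (by linarith)
  obtain ⟨M2, hM2⟩ := asyA_far ε h0 h1
  refine ⟨max M1 M2, fun m s hm hs => ?_⟩
  rcases Nat.lt_or_ge (min m s) (Nat.log 2 (m + s) ^ 2) with h | h
  · exact hM2 m s ((le_max_right _ _).trans hm) ((le_max_right _ _).trans hs) h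
  · refine le_trans ?_ (hM1 m s ((le_max_left _ _).trans hm) ((le_max_left _ _).trans hs) h)
    have hB : (0 : ℝ) < ((m + s).choose m : ℝ) := by
      exact_mod_cast Nat.choose_pos (Nat.le_add_right m s)
    have h2 : ((2 : ℝ) ^ min m s) ≤ ((m + s).choose m : ℝ) := by
      exact_mod_cast two_pow_min_le m s
    have h3 : (((2 : ℝ) ^ min m s) ^ ε) ≤ ((m + s).choose m : ℝ) ^ ε :=
      Real.rpow_le_rpow (by positivity) h2 h0.le
    have h4 : (0 : ℝ) < ((2 : ℝ) ^ min m s) ^ ε := Real.rpow_pos_of_pos (by positivity) _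
    have h5 : ((2 : ℝ) ^ (-ε)) ^ min m s = (((2 : ℝ) ^ min m s) ^ ε)⁻¹ := by
      rw [← Real.rpow_natCast ((2 : ℝ) ^ (-ε)), ← Real.rpow_mul two_pos.le,
        ← Real.rpow_natCast 2 (min m s), ← Real.rpow_mul two_pos.le, ← Real.rpow_neg two_pos.le]
      congr 1
      ring
    rw [sub_sub_cancel, h5, Real.rpow_sub hB, Real.rpow_one, div_eq_mul_inv, mul_comm]
    exact mul_le_mul_of_nonneg_right (inv_anti₀ h4 h3) hB.le

end Pool.Agent.Lib.MP_ffcda7_coU
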