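import Pool.Agent.Lib.MP_ffcda7_coU.Defs

set_option autoImplicit false

open Finset

namespace Pool.Agent.Lib.MP_ffcda7_coU

/-- The numerical estimate. Proof: `q ≤ √k`, the logarithm is `O(log k)`, so the left side is
`O(√k log k)`. -/
theorem eventually_small (η : ℝ) (hη : 0 < η) :
    ∃ M : ℕ, ∀ k q : ℕ, M ≤ k → q ^ 2 ≤ k →
      ((q : ℝ) + 4) * ((Nat.clog 2 (k * (k + 1)) : ℝ) + 3) ≤ η * k := by
  obtain ⟨N, hN⟩ := exists_nat_ge (22 / η)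
  refine ⟨((N + 2) ^ 2) ^ 2, fun k q hk hq => ?_⟩
  obtain ⟨s, hs⟩ : ∃ s, s = Nat.sqrt k := ⟨_, rfl⟩
  obtain ⟨r, hr⟩ : ∃ r, r = Nat.sqrt s := ⟨_, rfl⟩
  have hs1 : s * s ≤ k := by rw [hs]; exact Nat.sqrt_le k
  have hs2 : k < (s + 1) * (s + 1) := by rw [hs]; exact Nat.lt_succ_sqrt k
  have hr1 : r * r ≤ s := by rw [hr]; exact Nat.sqrt_le s
  have hr2 : s < (r + 1) * (r + 1) := by rw [hr]; exact Nat.lt_succ_sqrt s
  have hsN : (N + 2) ^ 2 ≤ s := by rw [hs]; exact Nat.le_sqrt'.2 hk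
  have hrN : N + 2 ≤ r := by rw [hr]; exact Nat.le_sqrt'.2 hsN
  have hqs : q ≤ s := by rw [hs]; exact Nat.le_sqrt'.2 hq
  have hr3 : r + 1 ≤ 2 ^ r := Nat.lt_two_pow_self (n := r)
  have hclog : Nat.clog 2 (k * (k + 1)) ≤ 8 * r := by
    refine Nat.clog_le_of_le_pow ?_
    have h1 : s + 1 ≤ (r + 1) ^ 2 := by rw [pow_two]; exact hr2
    have h2 : k + 1 ≤ (s + 1) ^ 2 := by rw [pow_two]; exact hs2
    calc k * (k + 1) ≤ (k + 1) * (k + 1) := Nat.mul_le_mul_right _ (Nat.le_succ k)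
      _ = (k + 1) ^ 2 := (pow_two _).symm
      _ ≤ (((r + 1) ^ 2) ^ 2) ^ 2 :=
        Nat.pow_le_pow_left (h2.trans (Nat.pow_le_pow_left h1 2)) 2
      _ = (r + 1) ^ 8 := by ring
      _ ≤ (2 ^ r) ^ 8 := Nat.pow_le_pow_left hr3 8
      _ = 2 ^ (8 * r) := by rw [← pow_mul, mul_comm]
  have c1 : (q : ℝ) ≤ s := by exact_mod_cast hqs
  have c2 : (Nat.clog 2 (k * (k + 1)) : ℝ) ≤ 8 * r := by exact_mod_cast hclog
  have c3 : (s : ℝ) * s ≤ k := by exact_mod_cast hs1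
  have c4 : (r : ℝ) * r ≤ s := by exact_mod_cast hr1
  have c5 : (N : ℝ) + 2 ≤ r := by exact_mod_cast hrN
  have c6 : (0 : ℝ) ≤ N := Nat.cast_nonneg N
  have c7 : 22 ≤ η * r := by
    rw [div_le_iff₀ hη] at hN
    nlinarith
  have c8 : (4 : ℝ) ≤ s := by nlinarith
  have c9 : 22 * (r : ℝ) ≤ η * s := by
    have h1 : 22 * (r : ℝ) ≤ (η * r) * r := mul_le_mul_of_nonneg_right c7 (by linarith)
    have h2 : η * (r * r) ≤ η * s := mul_le_mul_of_nonneg_left c4 hη.le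
    nlinarith
  have c10 : (0 : ℝ) ≤ Nat.clog 2 (k * (k + 1)) := Nat.cast_nonneg _
  calc ((q : ℝ) + 4) * ((Nat.clog 2 (k * (k + 1)) : ℝ) + 3)
      ≤ (2 * s) * (11 * r) := by
        apply mul_le_mul
        · linarith
        · linarith
        · linarith
        · linarith
    _ = (22 * r) * s := by ring
    _ ≤ (η * s) * s := mul_le_mul_of_nonneg_right c9 (by linarith)
    _ = η * (s * s) := by ring
    _ ≤ η * k := mul_le_mul_of_nonneg_left c3 hη.le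

end Pool.Agent.Lib.MP_ffcda7_coU
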