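import Pool.Agent.Lib.MP_ffcda7_coU.Defs

set_option autoImplicit false

open Finset

namespace Pool.Agent.Lib.MP_ffcda7_coU

private theorem loss_step (m n : ℕ) :
    (m + 1) * (n + 1) * ((m + 1) + (n + 1)).choose (m + 1) =
      (m + n + 2) * (m + n + 1) * (m + n).choose m := by
  have h1 : (m + n + 1 + 1) * (m + n + 1).choose m = (m + n + 1 + 1).choose (m + 1) * (m + 1) :=
    Nat.add_one_mul_choose_eq (m + n + 1) m
  have h2 : (m + n).choose m * (m + n + 1) = (m + n + 1).choose m * (m + n + 1 - m) :=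
    Nat.choose_mul_succ_eq (m + n) m
  have h3 : m + n + 1 - m = n + 1 := by omega
  rw [h3] at h2
  have h4 : (m + 1) + (n + 1) = m + n + 1 + 1 := by omega
  rw [h4]
  calc (m + 1) * (n + 1) * (m + n + 1 + 1).choose (m + 1)
      = (m + n + 1 + 1).choose (m + 1) * (m + 1) * (n + 1) := by ring
    _ = (m + n + 1 + 1) * (m + n + 1).choose m * (n + 1) := by rw [h1]
    _ = (m + n + 1 + 1) * ((m + n + 1).choose m * (n + 1)) := by ring
    _ = (m + n + 1 + 1) * ((m + n).choose m * (m + n + 1)) := by rw [h2]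
    _ = (m + n + 2) * (m + n + 1) * (m + n).choose m := by ring

/-- Proof: induction on `j`: `(a + j + 1) (b + j + 1) binom(a + b + 2 j + 2, a + j + 1) =
(a + b + 2 j + 2) (a + b + 2 j + 1) binom(a + b + 2 j, a + j)`. -/
theorem loss (a b j : ℕ) :
    ((a + 1) * (b + 1)) ^ j * ((a + j) + (b + j)).choose (a + j) ≤
      (a + b + 2 * j) ^ (2 * j) * (a + b).choose a := by
  induction j with
  | zero => simp
  | succ j ih =>
    have e1 : (a + (j + 1)) + (b + (j + 1)) = ((a + j) + 1) + ((b + j) + 1) := by omega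
    have e2 : a + (j + 1) = (a + j) + 1 := by omega
    rw [e1, e2]
    have hs := loss_step (a + j) (b + j)
    have h1 : (a + 1) * (b + 1) ≤ ((a + j) + 1) * ((b + j) + 1) :=
      Nat.mul_le_mul (by omega) (by omega)
    have h2 : ((a + j) + (b + j) + 2) * ((a + j) + (b + j) + 1) ≤
        (a + b + 2 * (j + 1)) * (a + b + 2 * (j + 1)) :=
      Nat.mul_le_mul (by omega) (by omega)
    have h3 : (a + b + 2 * j) ^ (2 * j) ≤ (a + b + 2 * (j + 1)) ^ (2 * j) :=
      Nat.pow_le_pow_left (by omega) _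
    calc ((a + 1) * (b + 1)) ^ (j + 1) * (((a + j) + 1) + ((b + j) + 1)).choose ((a + j) + 1)
        = ((a + 1) * (b + 1)) ^ j * ((a + 1) * (b + 1) *
            (((a + j) + 1) + ((b + j) + 1)).choose ((a + j) + 1)) := by ring
      _ ≤ ((a + 1) * (b + 1)) ^ j * (((a + j) + 1) * ((b + j) + 1) *
            (((a + j) + 1) + ((b + j) + 1)).choose ((a + j) + 1)) :=
          Nat.mul_le_mul_left _ (Nat.mul_le_mul_right _ h1)
      _ = ((a + 1) * (b + 1)) ^ j * (((a + j) + (b + j) + 2) * ((a + j) + (b + j) + 1) *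
            ((a + j) + (b + j)).choose (a + j)) := by rw [hs]
      _ = (((a + j) + (b + j) + 2) * ((a + j) + (b + j) + 1)) *
            (((a + 1) * (b + 1)) ^ j * ((a + j) + (b + j)).choose (a + j)) := by ring
      _ ≤ ((a + b + 2 * (j + 1)) * (a + b + 2 * (j + 1))) *
            ((a + b + 2 * (j + 1)) ^ (2 * j) * (a + b).choose a) :=
          Nat.mul_le_mul h2 (ih.trans (Nat.mul_le_mul_right _ h3))
      _ = (a + b + 2 * (j + 1)) ^ (2 * (j + 1)) * (a + b).choose a := by
          have e3 : 2 * (j + 1) = 2 * j + 2 := by omega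
          rw [e3, pow_add, pow_two]
          ring

/-- `binom(m + s, m) ≤ (m + s) ^ min(m, s)`. -/
theorem choose_le_pow_min (m s : ℕ) : (m + s).choose m ≤ (m + s) ^ min m s := by
  rcases le_total m s with h | h
  · rw [min_eq_left h]
    exact Nat.choose_le_pow (m + s) m
  · rw [min_eq_right h, Nat.choose_symm_add]
    exact Nat.choose_le_pow (m + s) s

private theorem two_pow_aux (s m : ℕ) (h : m ≤ s) : 2 ^ m ≤ (m + s).choose m := by
  induction m with
  | zero => simp
  | succ m ih =>
    have ih' := ih (by omega)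
    have h1 : (m + s + 1) * (m + s).choose m = (m + s + 1).choose (m + 1) * (m + 1) :=
      Nat.add_one_mul_choose_eq (m + s) m
    have e : m + 1 + s = m + s + 1 := by omega
    rw [e]
    have h2 : 2 * (m + 1) * 2 ^ m ≤ (m + s + 1) * (m + s).choose m :=
      Nat.mul_le_mul (by omega) ih'
    rw [h1] at h2
    have h3 : 2 ^ (m + 1) * (m + 1) ≤ (m + s + 1).choose (m + 1) * (m + 1) := by
      calc 2 ^ (m + 1) * (m + 1) = 2 * (m + 1) * 2 ^ m := by rw [pow_succ]; ring
        _ ≤ _ := h2
    exact Nat.le_of_mul_le_mul_right h3 (by omega)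

/-- `2 ^ min(m, s) ≤ binom(m + s, m)`. Proof: induction, or `binom(2 k, k) ≥ 2 ^ k` and
monotonicity. -/
theorem two_pow_min_le (m s : ℕ) : 2 ^ min m s ≤ (m + s).choose m := by
  rcases le_total m s with h | h
  · rw [min_eq_left h]
    exact two_pow_aux s m h
  · rw [min_eq_right h, Nat.choose_symm_add, add_comm m s]
    exact two_pow_aux m s h

end Pool.Agent.Lib.MP_ffcda7_coU
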