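import Pool.Agent.Lib.MP_ffcda7_coU.Main
import Pool.Agent.Lib.MP_ffcda7_coU.Loss
import Pool.Agent.Lib.MP_ffcda7_coU.Ev

set_option autoImplicit false

open Finset

namespace Pool.Agent.Lib.MP_ffcda7_coU

open Pool.Agent.Lib.MP_ffcda7_co (FB HasBasis f g)

/-- The lower bound by the binomial coefficient with both arguments diminished by `j = i + 3`. -/
private theorem asyB_main {m s k i a b : ℕ} (hk : k = min m s) (hq : Nat.log 2 (m + s) ^ 2 ≤ k)
    (hi : i = Nat.clog 2 (k * (k + 1))) (hm : m = a + (i + 3)) (hs : s = b + (i + 3))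
    (ha : 3 ≤ a) : (a + b).choose a ≤ g m s := by
  have h1 := main a b i ha
  rw [← hm, ← hs] at h1
  refine le_trans (le_min le_rfl ?_) h1
  set q := Nat.log 2 (m + s) with hqd
  have hqk : q ≤ k := by
    rcases Nat.eq_zero_or_pos q with h0 | h0
    · omega
    · nlinarith
  have hlt : m + s < 2 ^ (q + 1) := Nat.lt_pow_succ_log_self (by norm_num) _
  have hab : min a b ≤ k := by
    rw [hk, le_min_iff]
    exact ⟨(min_le_left _ _).trans (by omega), (min_le_right _ _).trans (by omega)⟩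
  have hms : 0 < m + s := by omega
  calc (a + b).choose a ≤ (a + b) ^ min a b := choose_le_pow_min a b
    _ ≤ (m + s) ^ min a b := Nat.pow_le_pow_left (by omega) _
    _ ≤ (m + s) ^ k := Nat.pow_le_pow_right hms hab
    _ ≤ (2 ^ (q + 1)) ^ k := Nat.pow_le_pow_left hlt.le _
    _ = 2 ^ ((q + 1) * k) := by rw [← pow_mul]
    _ ≤ 2 ^ (k * (k + 1)) := by
        refine Nat.pow_le_pow_right (by norm_num) ?_
        rw [mul_comm]
        exact Nat.mul_le_mul_left _ (by omega)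
    _ ≤ 2 ^ 2 ^ i := by
        refine Nat.pow_le_pow_right (by norm_num) ?_
        rw [hi]
        exact Nat.le_pow_clog (by norm_num) _

/-- The loss. -/
private theorem asyB_loss {m s a b j q : ℕ} (hm : m = a + j) (hs : s = b + j)
    (h : m + s ≤ 2 * (a + b)) (hq : m + s < 2 ^ (q + 1)) :
    (m + s).choose m ≤ 2 ^ ((q + 4) * j) * (a + b).choose a := by
  have h1 := loss a b j
  have h2 : (a + j) + (b + j) = m + s := by omega
  have h3 : a + b + 2 * j = m + s := by omega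
  rw [h2, h3, ← hm] at h1
  have h4 : (m + s) ^ 2 ≤ 2 ^ (q + 4) * ((a + 1) * (b + 1)) := by
    have h5 : m + s ≤ 8 * ((a + 1) * (b + 1)) := by nlinarith [Nat.zero_le (a * b)]
    calc (m + s) ^ 2 = (m + s) * (m + s) := sq _
      _ ≤ 2 ^ (q + 1) * (8 * ((a + 1) * (b + 1))) := Nat.mul_le_mul hq.le h5
      _ = 2 ^ (q + 4) * ((a + 1) * (b + 1)) := by ring
  have h5 : (m + s) ^ (2 * j) ≤ 2 ^ ((q + 4) * j) * ((a + 1) * (b + 1)) ^ j := by
    rw [pow_mul, pow_mul, ← mul_pow]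
    exact Nat.pow_le_pow_left h4 j
  have h6 : 0 < ((a + 1) * (b + 1)) ^ j := by positivity
  refine Nat.le_of_mul_le_mul_left (c := ((a + 1) * (b + 1)) ^ j) ?_ h6
  calc ((a + 1) * (b + 1)) ^ j * (m + s).choose m
      ≤ (m + s) ^ (2 * j) * (a + b).choose a := h1
    _ ≤ (2 ^ ((q + 4) * j) * ((a + 1) * (b + 1)) ^ j) * (a + b).choose a :=
        Nat.mul_le_mul_right _ h5
    _ = _ := by ring

/-- Proof: let `k = min(m, s)`, `q = Nat.log 2 (m + s)`, `i = Nat.clog 2 (k * (k + 1))`,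
`j = i + 3`. Then `m + s < 2 ^ (q + 1)`, `q ≤ k` and `binom(m + s, m) ≤ (m + s) ^ k ≤
2 ^ (k (k + 1)) ≤ 2 ^ 2 ^ i`. For `k ≥ M`, `4 j ≤ k`. By `main` for `(m - j, s - j, i)` (its
minimum is the binomial coefficient, as this is at most `binom(m + s, m)`), `g m s ≥
binom(m + s - 2 j, m - j)`. By `loss`, with `a = m - j`, `b = s - j`, this is at least
`binom(m + s, m) / R ^ j`, where `R = (m + s) ^ 2 / ((a + 1) (b + 1)) ≤ 8 (m + s) / k ≤
2 ^ (q + 4)`. By `eventually_small` with `η = log_2 (1 / (1 - ε))`, `2 ^ ((q + 4) j) ≤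
(1 - ε) ^ (- k)`. -/
theorem asyB (ε : ℝ) (h0 : 0 < ε) (h1 : ε < 1) :
    ∃ M : ℕ, ∀ m s : ℕ, M ≤ m → M ≤ s → Nat.log 2 (m + s) ^ 2 ≤ min m s →
      (1 - ε) ^ min m s * ((m + s).choose m : ℝ) ≤ g m s := by
  have hε : 0 < 1 - ε := by linarith
  have hη : 0 < Real.logb 2 (1 / (1 - ε)) := by
    refine Real.logb_pos (by norm_num) ?_
    rw [lt_div_iff₀ hε]
    linarith
  obtain ⟨M1, hM1⟩ := eventually_small _ hη
  obtain ⟨M2, hM2⟩ := eventually_small 1 one_pos
  refine ⟨max M1 M2, fun m s hm hs hlog => ?_⟩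
  set k := min m s with hk
  set i := Nat.clog 2 (k * (k + 1)) with hi
  set q := Nat.log 2 (m + s) with hq
  have hkM : max M1 M2 ≤ k := le_min hm hs
  have hbig := hM1 k q ((le_max_left _ _).trans hkM) hlog
  have hfour : 4 * (i + 3) ≤ k := by
    have h2 := hM2 k 0 ((le_max_right _ _).trans hkM) (by simp)
    rw [← hi] at h2
    have h3 : (4 : ℝ) * ((i : ℝ) + 3) ≤ k := by simpa using h2
    exact_mod_cast h3
  have hkm : k ≤ m := min_le_left _ _
  have hks : k ≤ s := min_le_right _ _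
  obtain ⟨a, ha⟩ : ∃ a, m = a + (i + 3) := ⟨m - (i + 3), by omega⟩
  obtain ⟨b, hb⟩ : ∃ b, s = b + (i + 3) := ⟨s - (i + 3), by omega⟩
  have hA := asyB_main hk hlog hi ha hb (by omega)
  have hlt : m + s < 2 ^ (q + 1) := Nat.lt_pow_succ_log_self (by norm_num) _
  have hB := asyB_loss ha hb (by omega) hlt
  have hA' : ((a + b).choose a : ℝ) ≤ (g m s : ℝ) := by exact_mod_cast hA
  have hB' : ((m + s).choose m : ℝ) ≤ 2 ^ ((q + 4) * (i + 3)) * ((a + b).choose a : ℝ) := by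
    exact_mod_cast hB
  have h2 : (2 : ℝ) ^ ((q + 4) * (i + 3)) ≤ (1 / (1 - ε)) ^ k := by
    have h3 : (2 : ℝ) ^ (Real.logb 2 (1 / (1 - ε))) = 1 / (1 - ε) :=
      Real.rpow_logb (by norm_num) (by norm_num) (by positivity)
    have h4 : (2 : ℝ) ^ (Real.logb 2 (1 / (1 - ε)) * k) = (1 / (1 - ε)) ^ k := by
      rw [Real.rpow_mul (by norm_num), h3, Real.rpow_natCast]
    rw [← h4, ← Real.rpow_natCast]
    refine Real.rpow_le_rpow_of_exponent_le (by norm_num) ?_
    push_cast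
    exact hbig
  have h3 : (1 - ε) ^ k * (2 : ℝ) ^ ((q + 4) * (i + 3)) ≤ 1 := by
    calc (1 - ε) ^ k * (2 : ℝ) ^ ((q + 4) * (i + 3)) ≤ (1 - ε) ^ k * (1 / (1 - ε)) ^ k :=
          mul_le_mul_of_nonneg_left h2 (by positivity)
      _ = 1 := by
          rw [← mul_pow, mul_one_div_cancel hε.ne', one_pow]
  calc (1 - ε) ^ k * ((m + s).choose m : ℝ)
      ≤ (1 - ε) ^ k * (2 ^ ((q + 4) * (i + 3)) * ((a + b).choose a : ℝ)) :=
        mul_le_mul_of_nonneg_left hB' (by positivity)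
    _ = ((1 - ε) ^ k * 2 ^ ((q + 4) * (i + 3))) * ((a + b).choose a : ℝ) := by ring
    _ ≤ 1 * ((a + b).choose a : ℝ) := mul_le_mul_of_nonneg_right h3 (Nat.cast_nonneg _)
    _ ≤ g m s := by rw [one_mul]; exact hA'

end Pool.Agent.Lib.MP_ffcda7_coU
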