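import Pool.Agent.Lib.MP_ffcda7_coU.AsyB

set_option autoImplicit false

open Finset Filter Topology

namespace Pool.Agent.Lib.MP_ffcda7_coU

open Pool.Agent.Lib.MP_ffcda7_co (FB HasBasis f g kap)

private theorem AsyC_log : ∀ᶠ m : ℕ in atTop, Nat.log 2 (m + m ^ 2) ^ 2 ≤ m := by
  have h1 : ∀ᶠ x : ℝ in atTop, ‖Real.log x ^ 2‖ ≤ (1 / 36 : ℝ) * ‖(id x : ℝ)‖ :=
    (Real.isLittleO_pow_log_id_atTop (n := 2)).def (by norm_num)
  have h2 := tendsto_natCast_atTop_atTop.eventually h1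
  filter_upwards [h2, eventually_ge_atTop 2] with m hm hm2
  have hmr : (2 : ℝ) ≤ m := by exact_mod_cast hm2
  have h3 : Real.log m ^ 2 ≤ (1 / 36 : ℝ) * m := by
    have h := hm
    rw [Real.norm_of_nonneg (sq_nonneg _), id, Real.norm_of_nonneg (by positivity)] at h
    exact h
  have hlog : 0 ≤ Real.log m := Real.log_nonneg (by linarith)
  have h4 : (Nat.log 2 (m + m ^ 2) : ℝ) ≤ 6 * Real.log m := by
    have h5 : 2 ^ Nat.log 2 (m + m ^ 2) ≤ m + m ^ 2 :=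
      Nat.pow_log_le_self 2 (by positivity)
    have h6 : (2 : ℝ) ^ Nat.log 2 (m + m ^ 2) ≤ (m : ℝ) ^ 3 := by
      have h : m + m ^ 2 ≤ m ^ 3 := by
        have h10 : m ^ 2 * 2 ≤ m ^ 2 * m := Nat.mul_le_mul_left _ hm2
        have h11 : m * 1 ≤ m * m := Nat.mul_le_mul_left _ (by omega)
        calc m + m ^ 2 ≤ m ^ 2 * 2 := by nlinarith
          _ ≤ m ^ 2 * m := h10
          _ = m ^ 3 := by ring
      exact_mod_cast h5.trans h
    have h7 := Real.log_le_log (by positivity) h6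
    rw [Real.log_pow, Real.log_pow] at h7
    have h8 : (1 : ℝ) / 2 ≤ Real.log 2 := by
      have := Real.log_two_gt_d9
      linarith
    have h9 : (Nat.log 2 (m + m ^ 2) : ℝ) * (1 / 2) ≤ Nat.log 2 (m + m ^ 2) * Real.log 2 :=
      mul_le_mul_of_nonneg_left h8 (Nat.cast_nonneg _)
    push_cast at h7
    linarith
  have h5 : (Nat.log 2 (m + m ^ 2) : ℝ) ^ 2 ≤ m := by
    calc (Nat.log 2 (m + m ^ 2) : ℝ) ^ 2 ≤ (6 * Real.log m) ^ 2 :=
          pow_le_pow_left₀ (Nat.cast_nonneg _) h4 2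
      _ = 36 * Real.log m ^ 2 := by ring
      _ ≤ m := by linarith
  exact_mod_cast h5

private theorem AsyC_pow (m : ℕ) (hm : 1 ≤ m) :
    (((m ^ 2 : ℕ) : ℝ) + m) ^ m ≤ 3 * ((m : ℝ) ^ 2) ^ m := by
  have hm0 : (1 : ℝ) ≤ m := by exact_mod_cast hm
  have h1 : ((m ^ 2 : ℕ) : ℝ) + m = (m : ℝ) ^ 2 * (1 / (m : ℝ) + 1) := by
    push_cast
    field_simp
    ring
  have h2 : (1 / (m : ℝ) + 1) ^ m ≤ 3 := by
    calc (1 / (m : ℝ) + 1) ^ m ≤ (Real.exp (1 / (m : ℝ))) ^ m :=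
          pow_le_pow_left₀ (by positivity) (Real.add_one_le_exp _) m
      _ = Real.exp ((m : ℝ) * (1 / (m : ℝ))) := by rw [Real.exp_nat_mul]
      _ = Real.exp 1 := by
          congr 1
          field_simp
      _ ≤ 3 := by
          have := Real.exp_one_lt_d9
          linarith
  rw [h1, mul_pow]
  calc ((m : ℝ) ^ 2) ^ m * (1 / (m : ℝ) + 1) ^ m ≤ ((m : ℝ) ^ 2) ^ m * 3 :=
        mul_le_mul_of_nonneg_left h2 (by positivity)
    _ = 3 * ((m : ℝ) ^ 2) ^ m := by ring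

/-- Proof: `asyB` with `ε' = ε / 2` at `(m, m ^ 2)` (for large `m`, `Nat.log 2 (m + m ^ 2) ^ 2 ≤ m`),
`g_le_f` and `f_le_kap` give `(1 - ε / 2) ^ m binom(m + m ^ 2, m) ≤ kap m (m ^ 2 + m) ^ m`, and
`binom(m + m ^ 2, m) ≥ m ^ (2 m) / m!`, `(m ^ 2 + m) ^ m ≤ e m ^ (2 m)`. So
`kap m ≥ (1 - ε / 2) ^ m / (e m!) > (1 - ε) ^ m / m!` for large `m`. -/
theorem kap_large (ε : ℝ) (h0 : 0 < ε) (h1 : ε < 1) :
    ∃ M : ℕ, ∀ m : ℕ, M ≤ m → (1 - ε) ^ m / (m.factorial : ℝ) < kap m := by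
  obtain ⟨M0, hM0⟩ := asyB (ε / 2) (by linarith) (by linarith)
  have hq : 1 < (1 - ε / 2) / (1 - ε) := by
    rw [lt_div_iff₀ (by linarith)]
    linarith
  have hq2 : ∀ᶠ m : ℕ in atTop, 3 < ((1 - ε / 2) / (1 - ε)) ^ m :=
    (tendsto_pow_atTop_atTop_of_one_lt hq).eventually_gt_atTop 3
  have hev : ∀ᶠ m : ℕ in atTop, (1 - ε) ^ m / (m.factorial : ℝ) < kap m := by
    filter_upwards [AsyC_log, hq2, eventually_ge_atTop M0, eventually_ge_atTop 1] with m hl hq3 hm hm1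
    have hm0 : (1 : ℝ) ≤ m := by exact_mod_cast hm1
    have hmm : m ≤ m ^ 2 := by nlinarith
    have hmin : min m (m ^ 2) = m := min_eq_left hmm
    have h2 := hM0 m (m ^ 2) hm (hm.trans hmm) (by rw [hmin]; exact hl)
    rw [hmin] at h2
    have h3 : (g m (m ^ 2) : ℝ) ≤ f m (m ^ 2) := by
      exact_mod_cast Pool.Agent.Lib.MP_ffcda7_co.g_le_f m (m ^ 2)
    have h4 := Pool.Agent.Lib.MP_ffcda7_co.f_le_kap m hm1 (m ^ 2)
    have h5 : ((m : ℝ) ^ 2) ^ m / (m.factorial : ℝ) ≤ ((m + m ^ 2).choose m : ℝ) := by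
      have h6 := Nat.pow_le_choose (α := ℝ) m (m + m ^ 2)
      refine le_trans ?_ h6
      have h7 : m + m ^ 2 + 1 - m = m ^ 2 + 1 := by omega
      rw [h7]
      apply div_le_div_of_nonneg_right _ (by positivity)
      push_cast
      apply pow_le_pow_left₀ (by positivity)
      linarith
    have hk : 0 < kap m := Pool.Agent.Lib.MP_ffcda7_co.kap_pos m hm1
    have hF : (0 : ℝ) < m.factorial := by exact_mod_cast m.factorial_pos
    have hP : (0 : ℝ) < ((m : ℝ) ^ 2) ^ m := by positivity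
    have hA : (0 : ℝ) < (1 - ε / 2) ^ m := pow_pos (by linarith) m
    have hB : (0 : ℝ) < (1 - ε) ^ m := pow_pos (by linarith) m
    have h6 : (1 - ε / 2) ^ m * (((m : ℝ) ^ 2) ^ m / (m.factorial : ℝ)) ≤
        kap m * (3 * ((m : ℝ) ^ 2) ^ m) := by
      calc (1 - ε / 2) ^ m * (((m : ℝ) ^ 2) ^ m / (m.factorial : ℝ))
          ≤ (1 - ε / 2) ^ m * ((m + m ^ 2).choose m : ℝ) :=
            mul_le_mul_of_nonneg_left h5 hA.le
        _ ≤ g m (m ^ 2) := h2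
        _ ≤ f m (m ^ 2) := h3
        _ ≤ kap m * (((m ^ 2 : ℕ) : ℝ) + m) ^ m := h4
        _ ≤ kap m * (3 * ((m : ℝ) ^ 2) ^ m) :=
            mul_le_mul_of_nonneg_left (AsyC_pow m hm1) hk.le
    have h7 : (1 - ε / 2) ^ m / (m.factorial : ℝ) ≤ kap m * 3 := by
      have h8 : ((1 - ε / 2) ^ m / (m.factorial : ℝ)) * ((m : ℝ) ^ 2) ^ m ≤
          (kap m * 3) * ((m : ℝ) ^ 2) ^ m := by
        calc ((1 - ε / 2) ^ m / (m.factorial : ℝ)) * ((m : ℝ) ^ 2) ^ m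
            = (1 - ε / 2) ^ m * (((m : ℝ) ^ 2) ^ m / (m.factorial : ℝ)) := by ring
          _ ≤ kap m * (3 * ((m : ℝ) ^ 2) ^ m) := h6
          _ = (kap m * 3) * ((m : ℝ) ^ 2) ^ m := by ring
      exact le_of_mul_le_mul_right h8 hP
    have h9 : 3 * (1 - ε) ^ m < (1 - ε / 2) ^ m := by
      rw [div_pow, lt_div_iff₀ hB] at hq3
      exact hq3
    have h10 : 3 * ((1 - ε) ^ m / (m.factorial : ℝ)) < (1 - ε / 2) ^ m / (m.factorial : ℝ) := by
      rw [← mul_div_assoc]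
      exact div_lt_div_of_pos_right h9 hF
    linarith
  exact eventually_atTop.1 hev

/-- Proof: `kap_large`, `lower_kap` with `κ'` strictly between, and `binom(m + s, m) ≤
(m + s) ^ m / m!`, `((m + s) / s) ^ m → 1` as `s → ∞`. -/
theorem asyC (ε : ℝ) (h0 : 0 < ε) (h1 : ε < 1) :
    ∃ M : ℕ, ∀ m : ℕ, M ≤ m → ∀ᶠ s : ℕ in atTop,
      (1 - ε) ^ m * ((m + s).choose m : ℝ) ≤ g m s := by
  obtain ⟨M, hM⟩ := kap_large ε h0 h1
  refine ⟨max M 1, fun m hm => ?_⟩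
  have hm1 : 1 ≤ m := le_trans (le_max_right _ _) hm
  obtain ⟨κ, hκ1, hκ2⟩ := exists_between (hM m (le_trans (le_max_left _ _) hm))
  have hlow := Pool.Agent.Lib.MP_ffcda7_co.lower_kap m hm1 κ hκ2
  have hlim : Tendsto (fun s : ℕ => (1 - ε) ^ m / (m.factorial : ℝ) * (((m : ℝ) + s) / s) ^ m) atTop
      (𝓝 ((1 - ε) ^ m / (m.factorial : ℝ))) := by
    have h2 : Tendsto (fun s : ℕ => ((m : ℝ) + s) / s) atTop (𝓝 1) := by
      have h3 : Tendsto (fun s : ℕ => 1 + (m : ℝ) / s) atTop (𝓝 (1 + 0)) :=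
        tendsto_const_nhds.add (tendsto_const_div_atTop_nhds_zero_nat _)
      rw [add_zero] at h3
      refine h3.congr' ?_
      filter_upwards [eventually_ge_atTop 1] with s hs
      have : (s : ℝ) ≠ 0 := by positivity
      field_simp
      ring
    have h4 := (h2.pow m).const_mul ((1 - ε) ^ m / (m.factorial : ℝ))
    simpa using h4
  filter_upwards [hlow, hlim.eventually_lt_const hκ1, eventually_ge_atTop 1] with s hs1 hs2 hs3
  have hs0 : (0 : ℝ) < s := by exact_mod_cast hs3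
  have hB : (0 : ℝ) ≤ (1 - ε) ^ m := (pow_pos (by linarith) m).le
  have h5 : ((m + s).choose m : ℝ) ≤ ((m : ℝ) + s) ^ m / (m.factorial : ℝ) := by
    have h6 := Nat.choose_le_pow_div (α := ℝ) m (m + s)
    push_cast at h6
    exact h6
  have hP : (0 : ℝ) < (s : ℝ) ^ m := by positivity
  calc (1 - ε) ^ m * ((m + s).choose m : ℝ)
      ≤ (1 - ε) ^ m * (((m : ℝ) + s) ^ m / (m.factorial : ℝ)) :=
        mul_le_mul_of_nonneg_left h5 hB
    _ = ((1 - ε) ^ m / (m.factorial : ℝ) * (((m : ℝ) + s) / s) ^ m) * (s : ℝ) ^ m := by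
        rw [div_pow]
        field_simp
    _ ≤ κ * (s : ℝ) ^ m := mul_le_mul_of_nonneg_right hs2.le hP.le
    _ ≤ g m s := hs1

end Pool.Agent.Lib.MP_ffcda7_coU
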