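import Pool.Agent.Lib.MP_ffcda7_coU.Main
import Pool.Agent.Lib.MP_ffcda7_coU.Loss
import Pool.Agent.Lib.MP_ffcda7_coU.Ev

set_option autoImplicit false

open Finset

namespace Pool.Agent.Lib.MP_ffcda7_coU

open Pool.Agent.Lib.MP_ffcda7_co (FB HasBasis f g)

/-- The numerical estimate in the range `q log k ≤ δ k`. -/
theorem eventually_small_log (η : ℝ) (hη : 0 < η) :
    ∃ δ : ℝ, 0 < δ ∧ ∃ M : ℕ, ∀ k q : ℕ, M ≤ k → (q : ℝ) * (Nat.log 2 k : ℝ) ≤ δ * k →
      q ≤ k ∧ ((q : ℝ) + 4) * ((Nat.clog 2 (k * (k + 1)) : ℝ) + 3) ≤ η * k := by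
  obtain ⟨M, hM⟩ := eventually_small (η / 14) (by positivity)
  refine ⟨min 1 (η / 14), by positivity, max M 2, fun k q hk hq => ?_⟩
  have hkM : M ≤ k := (le_max_left _ _).trans hk
  have hk2 : 2 ≤ k := (le_max_right _ _).trans hk
  have h1 := hM k 0 hkM (by simp)
  set l := Nat.log 2 k with hl
  have hl1 : 1 ≤ l := by
    rw [hl]
    exact Nat.log_pos (by norm_num) hk2
  have hklt : k < 2 ^ (l + 1) := Nat.lt_pow_succ_log_self (by norm_num) _
  have hcl : Nat.clog 2 (k * (k + 1)) ≤ 2 * l + 2 := by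
    refine Nat.clog_le_of_le_pow ?_
    calc k * (k + 1) ≤ 2 ^ (l + 1) * 2 ^ (l + 1) := Nat.mul_le_mul hklt.le hklt
      _ = 2 ^ (2 * l + 2) := by rw [← pow_add]; congr 1; ring
  have hlc : l ≤ Nat.clog 2 (k * (k + 1)) := by
    refine (Nat.log_le_clog 2 k).trans (Nat.clog_mono_right 2 ?_)
    exact Nat.le_mul_of_pos_right k (Nat.succ_pos k)
  have c1 : (1 : ℝ) ≤ l := by exact_mod_cast hl1
  have c2 : (Nat.clog 2 (k * (k + 1)) : ℝ) ≤ 2 * l + 2 := by exact_mod_cast hcl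
  have c3 : (l : ℝ) ≤ Nat.clog 2 (k * (k + 1)) := by exact_mod_cast hlc
  have c4 : (0 : ℝ) ≤ q := Nat.cast_nonneg q
  have c5 : (0 : ℝ) ≤ k := Nat.cast_nonneg k
  have d1 : min 1 (η / 14) * (k : ℝ) ≤ 1 * k := mul_le_mul_of_nonneg_right (min_le_left _ _) c5
  have d2 : min 1 (η / 14) * (k : ℝ) ≤ (η / 14) * k :=
    mul_le_mul_of_nonneg_right (min_le_right _ _) c5
  have e1 : (q : ℝ) ≤ q * l := by nlinarith
  have e2 : (q : ℝ) * l ≤ (η / 14) * k := hq.trans d2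
  refine ⟨?_, ?_⟩
  · have : (q : ℝ) ≤ k := by linarith
    exact_mod_cast this
  · have e3 : 4 * (l : ℝ) ≤ (η / 14) * k := by
      have e4 : (4 : ℝ) * ((Nat.clog 2 (k * (k + 1)) : ℝ) + 3) ≤ η / 14 * k := by
        simpa using h1
      linarith
    have e5 : ((q : ℝ) + 4) * ((Nat.clog 2 (k * (k + 1)) : ℝ) + 3) ≤ ((q : ℝ) + 4) * (7 * l) :=
      mul_le_mul_of_nonneg_left (by linarith) (by linarith)
    nlinarith

/-- The lower bound by the binomial coefficient with both arguments diminished by `j = i + 3`. -/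
private theorem asyD_main {m s k i a b : ℕ} (hk : k = min m s) (hqk : Nat.log 2 (m + s) ≤ k)
    (hi : i = Nat.clog 2 (k * (k + 1))) (hm : m = a + (i + 3)) (hs : s = b + (i + 3))
    (ha : 3 ≤ a) : (a + b).choose a ≤ g m s := by
  have h1 := main a b i ha
  rw [← hm, ← hs] at h1
  refine le_trans (le_min le_rfl ?_) h1
  set q := Nat.log 2 (m + s) with hqd
  have hlt : m + s < 2 ^ (q + 1) := Nat.lt_pow_succ_log_self (by norm_num) _
  have hab : min a b ≤ k := by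
    rw [hk, le_min_iff]
    exact ⟨(min_le_left _ _).trans (by omega), (min_le_right _ _).trans (by omega)⟩
  have hms : 0 < m + s := by omega
  calc (a + b).choose a ≤ (a + b) ^ min a b := choose_le_pow_min a b
    _ ≤ (m + s) ^ min a b := Nat.pow_le_pow_left (by omega) _
    _ ≤ (m + s) ^ k := Nat.pow_le_pow_right hms hab
    _ ≤ (2 ^ (q + 1)) ^ k := Nat.pow_le_pow_left hlt.le _
    _ = 2 ^ ((q + 1) * k) := by rw [← pow_mul]
    _ ≤ 2 ^ (k * (k + 1)) := by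
        refine Nat.pow_le_pow_right (by norm_num) ?_
        rw [mul_comm]
        exact Nat.mul_le_mul_left _ (by omega)
    _ ≤ 2 ^ 2 ^ i := by
        refine Nat.pow_le_pow_right (by norm_num) ?_
        rw [hi]
        exact Nat.le_pow_clog (by norm_num) _

/-- The loss. -/
private theorem asyD_loss {m s a b j q : ℕ} (hm : m = a + j) (hs : s = b + j)
    (h : m + s ≤ 2 * (a + b)) (hq : m + s < 2 ^ (q + 1)) :
    (m + s).choose m ≤ 2 ^ ((q + 4) * j) * (a + b).choose a := by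
  have h1 := loss a b j
  have h2 : (a + j) + (b + j) = m + s := by omega
  have h3 : a + b + 2 * j = m + s := by omega
  rw [h2, h3, ← hm] at h1
  have h4 : (m + s) ^ 2 ≤ 2 ^ (q + 4) * ((a + 1) * (b + 1)) := by
    have h5 : m + s ≤ 8 * ((a + 1) * (b + 1)) := by nlinarith [Nat.zero_le (a * b)]
    calc (m + s) ^ 2 = (m + s) * (m + s) := sq _
      _ ≤ 2 ^ (q + 1) * (8 * ((a + 1) * (b + 1))) := Nat.mul_le_mul hq.le h5
      _ = 2 ^ (q + 4) * ((a + 1) * (b + 1)) := by ring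
  have h5 : (m + s) ^ (2 * j) ≤ 2 ^ ((q + 4) * j) * ((a + 1) * (b + 1)) ^ j := by
    rw [pow_mul, pow_mul, ← mul_pow]
    exact Nat.pow_le_pow_left h4 j
  have h6 : 0 < ((a + 1) * (b + 1)) ^ j := by positivity
  refine Nat.le_of_mul_le_mul_left (c := ((a + 1) * (b + 1)) ^ j) ?_ h6
  calc ((a + 1) * (b + 1)) ^ j * (m + s).choose m
      ≤ (m + s) ^ (2 * j) * (a + b).choose a := h1
    _ ≤ (2 ^ ((q + 4) * j) * ((a + 1) * (b + 1)) ^ j) * (a + b).choose a :=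
        Nat.mul_le_mul_right _ h5
    _ = _ := by ring

/-- `asyB` in the range `log (m + s) log (min (m, s)) ≤ δ min (m, s)`. -/
theorem asyD (ε : ℝ) (h0 : 0 < ε) (h1 : ε < 1) :
    ∃ δ : ℝ, 0 < δ ∧ ∃ M : ℕ, ∀ m s : ℕ, M ≤ m → M ≤ s →
      (Nat.log 2 (m + s) : ℝ) * (Nat.log 2 (min m s) : ℝ) ≤ δ * ((min m s : ℕ) : ℝ) →
      (1 - ε) ^ min m s * ((m + s).choose m : ℝ) ≤ g m s := by
  have hε : 0 < 1 - ε := by linarith
  have hη : 0 < Real.logb 2 (1 / (1 - ε)) := by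
    refine Real.logb_pos (by norm_num) ?_
    rw [lt_div_iff₀ hε]
    linarith
  obtain ⟨δ, hδ, M1, hM1⟩ := eventually_small_log _ hη
  obtain ⟨M2, hM2⟩ := eventually_small 1 one_pos
  refine ⟨δ, hδ, max M1 M2, fun m s hm hs hlog => ?_⟩
  set k := min m s with hk
  set i := Nat.clog 2 (k * (k + 1)) with hi
  set q := Nat.log 2 (m + s) with hq
  have hkM : max M1 M2 ≤ k := le_min hm hs
  obtain ⟨hqk, hbig⟩ := hM1 k q ((le_max_left _ _).trans hkM) hlog
  have hfour : 4 * (i + 3) ≤ k := by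
    have h2 := hM2 k 0 ((le_max_right _ _).trans hkM) (by simp)
    rw [← hi] at h2
    have h3 : (4 : ℝ) * ((i : ℝ) + 3) ≤ k := by simpa using h2
    exact_mod_cast h3
  have hkm : k ≤ m := min_le_left _ _
  have hks : k ≤ s := min_le_right _ _
  obtain ⟨a, ha⟩ : ∃ a, m = a + (i + 3) := ⟨m - (i + 3), by omega⟩
  obtain ⟨b, hb⟩ : ∃ b, s = b + (i + 3) := ⟨s - (i + 3), by omega⟩
  have hA := asyD_main hk hqk hi ha hb (by omega)
  have hlt : m + s < 2 ^ (q + 1) := Nat.lt_pow_succ_log_self (by norm_num) _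
  have hB := asyD_loss ha hb (by omega) hlt
  have hA' : ((a + b).choose a : ℝ) ≤ (g m s : ℝ) := by exact_mod_cast hA
  have hB' : ((m + s).choose m : ℝ) ≤ 2 ^ ((q + 4) * (i + 3)) * ((a + b).choose a : ℝ) := by
    exact_mod_cast hB
  have h2 : (2 : ℝ) ^ ((q + 4) * (i + 3)) ≤ (1 / (1 - ε)) ^ k := by
    have h3 : (2 : ℝ) ^ (Real.logb 2 (1 / (1 - ε))) = 1 / (1 - ε) :=
      Real.rpow_logb (by norm_num) (by norm_num) (by positivity)
    have h4 : (2 : ℝ) ^ (Real.logb 2 (1 / (1 - ε)) * k) = (1 / (1 - ε)) ^ k := by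
      rw [Real.rpow_mul (by norm_num), h3, Real.rpow_natCast]
    rw [← h4, ← Real.rpow_natCast]
    refine Real.rpow_le_rpow_of_exponent_le (by norm_num) ?_
    push_cast
    exact hbig
  have h3 : (1 - ε) ^ k * (2 : ℝ) ^ ((q + 4) * (i + 3)) ≤ 1 := by
    calc (1 - ε) ^ k * (2 : ℝ) ^ ((q + 4) * (i + 3)) ≤ (1 - ε) ^ k * (1 / (1 - ε)) ^ k :=
          mul_le_mul_of_nonneg_left h2 (by positivity)
      _ = 1 := by
          rw [← mul_pow, mul_one_div_cancel hε.ne', one_pow]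
  calc (1 - ε) ^ k * ((m + s).choose m : ℝ)
      ≤ (1 - ε) ^ k * (2 ^ ((q + 4) * (i + 3)) * ((a + b).choose a : ℝ)) :=
        mul_le_mul_of_nonneg_left hB' (by positivity)
    _ = ((1 - ε) ^ k * 2 ^ ((q + 4) * (i + 3))) * ((a + b).choose a : ℝ) := by ring
    _ ≤ 1 * ((a + b).choose a : ℝ) := mul_le_mul_of_nonneg_right h3 (Nat.cast_nonneg _)
    _ ≤ g m s := by rw [one_mul]; exact hA'

end Pool.Agent.Lib.MP_ffcda7_coU
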