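import Pool.Agent.Lib.MP_ffcda7_coU.Far
import Pool.Agent.Lib.MP_ffcda7_coU.AsyD

set_option autoImplicit false

open Finset Filter Topology

namespace Pool.Agent.Lib.MP_ffcda7_coU

open Pool.Agent.Lib.MP_ffcda7_co (FB HasBasis f g)

private theorem asyE_sq_le (l : ℕ) (h : 4 ≤ l) : l ^ 2 ≤ 2 ^ l := by
  induction l, h using Nat.le_induction with
  | base => norm_num
  | succ l hl ih =>
    have h1 : (l + 1) ^ 2 ≤ 2 * l ^ 2 := by nlinarith
    calc (l + 1) ^ 2 ≤ 2 * l ^ 2 := h1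
      _ ≤ 2 * 2 ^ l := Nat.mul_le_mul_left _ ih
      _ = 2 ^ (l + 1) := by rw [pow_succ]; ring

/-- Proof: for `s ≥ C m` by `far`; for `m ≤ s < C m` by `asyD` (or `asyB`), as
`log (m + s) log m ≤ log ((C + 1) m) log m` is `o(m)`. -/
theorem asyE1 (ε : ℝ) (h0 : 0 < ε) (h1 : ε < 1) :
    ∃ M : ℕ, ∀ m s : ℕ, M ≤ m → m ≤ s → (1 - ε) ^ m * ((m + s).choose m : ℝ) ≤ g m s := by
  obtain ⟨C, M1, hC, hfar⟩ := far ε h0 h1
  obtain ⟨δ, hδ, M2, hD⟩ := asyD ε h0 h1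
  obtain ⟨M3, hM3⟩ := eventually_small (δ / 3) (by positivity)
  refine ⟨M1 + M2 + M3 + 16 + (C + 1), fun m s hm hs => ?_⟩
  have a1 : M1 ≤ m := by omega
  have a2 : M2 ≤ m := by omega
  have a3 : M3 ≤ m := by omega
  have a4 : 16 ≤ m := by omega
  have a5 : C + 1 ≤ m := by omega
  by_cases hs' : C * m ≤ s
  · exact hfar m s a1 hs'
  · have hmin : min m s = m := min_eq_left hs
    have h2 := hD m s a2 (a2.trans hs)
    rw [hmin] at h2
    refine h2 ?_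
    obtain ⟨l, hl⟩ : ∃ l, l = Nat.log 2 m := ⟨_, rfl⟩
    rw [← hl]
    have hl4 : 4 ≤ l := by
      rw [hl]
      exact Nat.le_log_of_pow_le (by norm_num) (by norm_num; exact a4)
    have hlow : 2 ^ l ≤ m := by
      rw [hl]
      exact Nat.pow_log_le_self 2 (by omega)
    have hup : m < 2 ^ (l + 1) := by
      rw [hl]
      exact Nat.lt_pow_succ_log_self (by norm_num) _
    have hlog : Nat.log 2 (m + s) ≤ 2 * l + 1 := by
      have h3 : m + s < 2 ^ (2 * l + 2) := by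
        have h4 : m + s < (C + 1) * m := by
          rw [add_mul, one_mul]
          omega
        calc m + s < (C + 1) * m := h4
          _ ≤ m * m := Nat.mul_le_mul_right _ a5
          _ ≤ 2 ^ (l + 1) * 2 ^ (l + 1) := Nat.mul_le_mul hup.le hup.le
          _ = 2 ^ (2 * l + 2) := by rw [← pow_add]; congr 1; ring
      have h5 := Nat.log_lt_of_lt_pow (b := 2) (by omega) h3
      omega
    have hsm := hM3 m l a3 ((asyE_sq_le l hl4).trans hlow)
    have hlc : l ≤ Nat.clog 2 (m * (m + 1)) := by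
      rw [hl]
      refine (Nat.log_le_clog 2 m).trans (Nat.clog_mono_right 2 ?_)
      exact Nat.le_mul_of_pos_right m (Nat.succ_pos m)
    have c1 : (Nat.log 2 (m + s) : ℝ) ≤ 2 * l + 1 := by exact_mod_cast hlog
    have c2 : (l : ℝ) ≤ Nat.clog 2 (m * (m + 1)) := by exact_mod_cast hlc
    have c3 : (4 : ℝ) ≤ l := by exact_mod_cast hl4
    have c4 : (l : ℝ) * l ≤ ((l : ℝ) + 4) * ((Nat.clog 2 (m * (m + 1)) : ℝ) + 3) := by
      apply mul_le_mul <;> linarith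
    have c5 : (Nat.log 2 (m + s) : ℝ) * l ≤ (2 * l + 1) * l :=
      mul_le_mul_of_nonneg_right c1 (by linarith)
    nlinarith

/-- Proof: `asyD` with `min m s = s`. -/
theorem asyE2 (ε : ℝ) (h0 : 0 < ε) (h1 : ε < 1) :
    ∃ δ : ℝ, 0 < δ ∧ ∃ M : ℕ, ∀ m s : ℕ, M ≤ s → s ≤ m →
      (Nat.log 2 (m + s) : ℝ) * (Nat.log 2 s : ℝ) ≤ δ * (s : ℝ) →
      (1 - ε) ^ s * ((m + s).choose m : ℝ) ≤ g m s := by
  obtain ⟨δ, hδ, M, hM⟩ := asyD ε h0 h1
  refine ⟨δ, hδ, M, fun m s hs hsm h => ?_⟩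
  have hmin : min m s = s := min_eq_right hsm
  have h2 := hM m s (hs.trans hsm) hs
  rw [hmin] at h2
  exact h2 h

end Pool.Agent.Lib.MP_ffcda7_coU
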