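import Pool.Agent.Lib.MP_ffcda7_coU.AsyGF
import Pool.Agent.Lib.MP_ffcda7_coU.AsyE

set_option autoImplicit false

open Finset Filter Topology

namespace Pool.Agent.Lib.MP_ffcda7_coU

open Pool.Agent.Lib.MP_ffcda7_co (FB HasBasis f g)

private theorem asyG_sq_le (l : ℕ) (h : 4 ≤ l) : l ^ 2 ≤ 2 ^ l := by
  induction l, h using Nat.le_induction with
  | base => norm_num
  | succ l hl ih =>
    have h1 : (l + 1) ^ 2 ≤ 2 * l ^ 2 := by nlinarith
    calc (l + 1) ^ 2 ≤ 2 * l ^ 2 := h1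
      _ ≤ 2 * 2 ^ l := Nat.mul_le_mul_left _ ih
      _ = 2 ^ (l + 1) := by rw [pow_succ]; ring

/-- Proof: `m ≤ s`: `asyE1`. `s ≤ m ≤ s ^ 3`: `asyE2`, as `log (m + s) log s = O(log ^ 2 s)` is
`o(s)`. `m ≥ s ^ 3`: `asyG_far`. -/
theorem asyG (ε : ℝ) (h0 : 0 < ε) (h1 : ε < 1) :
    ∃ δ : ℝ, 0 < δ ∧ ∃ M : ℕ, ∀ m s : ℕ, M ≤ m → M ≤ s →
      (Nat.log 2 (Nat.log 2 m) : ℝ) ≤ δ * (s : ℝ) →
      (1 - ε) ^ min m s * ((m + s).choose m : ℝ) ≤ g m s := by
  obtain ⟨M1, hM1⟩ := asyE1 ε h0 h1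
  obtain ⟨δ2, hδ2, M2, hM2⟩ := asyE2 ε h0 h1
  obtain ⟨δ3, hδ3, M3, hM3⟩ := asyG_far ε h0 h1
  obtain ⟨M4, hM4⟩ := eventually_small (δ2 / 4) (by positivity)
  refine ⟨δ3, hδ3, M1 + M2 + M3 + M4 + 16, fun m s hm hs hlog => ?_⟩
  rcases le_total m s with hms | hsm
  · rw [min_eq_left hms]
    exact hM1 m s (by omega) hms
  · rw [min_eq_right hsm]
    rcases le_total (s ^ 3) m with h3 | h3
    · exact hM3 m s (by omega) h3 hlog
    · refine hM2 m s (by omega) hsm ?_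
      obtain ⟨l, hl⟩ : ∃ l, l = Nat.log 2 s := ⟨_, rfl⟩
      rw [← hl]
      have hl4 : 4 ≤ l := by
        rw [hl]
        exact Nat.le_log_of_pow_le (by norm_num) (by norm_num; omega)
      have hlow : 2 ^ l ≤ s := by
        rw [hl]
        exact Nat.pow_log_le_self 2 (by omega)
      have hup : s < 2 ^ (l + 1) := by
        rw [hl]
        exact Nat.lt_pow_succ_log_self (by norm_num) _
      have hlg : Nat.log 2 (m + s) ≤ 3 * l + 3 := by
        have h4 : m + s < 2 ^ (3 * l + 4) := by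
          have h5 : s ≤ s ^ 3 := Nat.le_self_pow (by norm_num) s
          have h6 : s ^ 3 < (2 ^ (l + 1)) ^ 3 := Nat.pow_lt_pow_left hup (by norm_num)
          have h7 : (2 ^ (l + 1)) ^ 3 * 2 = 2 ^ (3 * l + 4) := by
            rw [← pow_mul, ← pow_succ]
            congr 1
            ring
          omega
        have h5 := Nat.log_lt_of_lt_pow (b := 2) (by omega) h4
        omega
      have hsm := hM4 s l (by omega) ((asyG_sq_le l hl4).trans hlow)
      have hlc : l ≤ Nat.clog 2 (s * (s + 1)) := by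
        rw [hl]
        refine (Nat.log_le_clog 2 s).trans (Nat.clog_mono_right 2 ?_)
        exact Nat.le_mul_of_pos_right s (Nat.succ_pos s)
      have c1 : (Nat.log 2 (m + s) : ℝ) ≤ 3 * l + 3 := by exact_mod_cast hlg
      have c2 : (l : ℝ) ≤ Nat.clog 2 (s * (s + 1)) := by exact_mod_cast hlc
      have c3 : (4 : ℝ) ≤ l := by exact_mod_cast hl4
      have c4 : (l : ℝ) * l ≤ ((l : ℝ) + 4) * ((Nat.clog 2 (s * (s + 1)) : ℝ) + 3) := by
        apply mul_le_mul <;> linarith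
      have c5 : (Nat.log 2 (m + s) : ℝ) * l ≤ (3 * l + 3) * l :=
        mul_le_mul_of_nonneg_right c1 (by linarith)
      nlinarith

end Pool.Agent.Lib.MP_ffcda7_coU
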