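import Pool.Agent.Lib.MP_ffcda7_coU.Bd4

set_option autoImplicit false

open Finset Filter Topology

namespace Pool.Agent.Lib.MP_ffcda7_coU

open Pool.Agent.Lib.MP_ffcda7_co (FB HasBasis f g)

private theorem asyGF_pow (q : ℕ) (hq : 27 ≤ q) : 4096 * (q + 3) ^ 3 ≤ 2 ^ q := by
  induction q, hq using Nat.le_induction with
  | base => norm_num
  | succ q hq ih =>
    rw [pow_succ]
    have h1 : (q + 1 + 3) ^ 3 ≤ 2 * (q + 3) ^ 3 := by
      obtain ⟨d, rfl⟩ := Nat.exists_eq_add_of_le hq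
      ring_nf
      nlinarith [Nat.zero_le (d ^ 3), Nat.zero_le (d ^ 2), Nat.zero_le d]
    calc 4096 * (q + 1 + 3) ^ 3 ≤ 4096 * (2 * (q + 3) ^ 3) := Nat.mul_le_mul_left _ h1
      _ = 4096 * (q + 3) ^ 3 * 2 := by ring
      _ ≤ 2 ^ q * 2 := Nat.mul_le_mul_right _ ih

private theorem asyGF_lin (m s : ℕ) (hs : 512 ≤ s) (hm : s ^ 3 ≤ m) :
    16 * s ^ 2 * (Nat.log 2 m + 3) ≤ m := by
  have hm0 : m ≠ 0 := by
    have : 0 < s ^ 3 := by positivity
    omega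
  have h27 : 27 ≤ Nat.log 2 m := by
    refine Nat.le_log_of_pow_le one_lt_two ?_
    calc 2 ^ 27 = 512 ^ 3 := by norm_num
      _ ≤ s ^ 3 := Nat.pow_le_pow_left hs 3
      _ ≤ m := hm
  have h1 := asyGF_pow _ h27
  have h2 : 2 ^ Nat.log 2 m ≤ m := Nat.pow_log_le_self 2 hm0
  generalize Nat.log 2 m = q at *
  have h3 : (16 * s ^ 2 * (q + 3)) ^ 3 ≤ m ^ 3 := by
    calc (16 * s ^ 2 * (q + 3)) ^ 3 = (s ^ 3) ^ 2 * (4096 * (q + 3) ^ 3) := by ring
      _ ≤ m ^ 2 * m := Nat.mul_le_mul (Nat.pow_le_pow_left hm 2) (h1.trans h2)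
      _ = m ^ 3 := by ring
  exact (Nat.pow_le_pow_iff_left (by norm_num)).1 h3

private theorem asyGF_nat (m s : ℕ) (hs : 512 ≤ s) (hm : s ^ 3 ≤ m) :
    (m + s).choose m ≤ 128 * (s * (Nat.log 2 m + 2)) * g m s := by
  have hlin := asyGF_lin m s hs hm
  have hsm : s ≤ m := by
    refine le_trans ?_ hm
    calc s = s * 1 := (mul_one s).symm
      _ ≤ s * s ^ 2 := Nat.mul_le_mul_left _ (Nat.one_le_pow _ _ (by omega))
      _ = s ^ 3 := by ring
  have hL : (m + s).choose m ≤ 2 ^ (s * (Nat.log 2 m + 2)) := by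
    have h1 : m < 2 ^ (Nat.log 2 m + 1) := Nat.lt_pow_succ_log_self one_lt_two m
    have h2 : m + s ≤ 2 ^ (Nat.log 2 m + 2) := by
      rw [pow_succ]
      omega
    have h3 : (m + s).choose m = (m + s).choose s :=
      Nat.choose_symm_of_eq_add rfl
    rw [h3, mul_comm s, pow_mul]
    exact (Nat.choose_le_pow (m + s) s).trans (Nat.pow_le_pow_left h2 s)
  obtain ⟨q, hq⟩ : ∃ q, q = Nat.log 2 m := ⟨_, rfl⟩
  rw [← hq] at hlin hL ⊢
  have hm2 : 2 * s * (8 * (s * (q + 2)) + 1) ≤ m := by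
    refine le_trans ?_ hlin
    nlinarith [Nat.mul_le_mul hs (le_refl s)]
  have hb := bd4 m s (s * (q + 2)) (by omega) hL hm2
  have hB : 128 * (s * (q + 2)) ≤ (m + s).choose m := by
    have h1 : (m + 1).choose m ≤ (m + s).choose m := Nat.choose_le_choose m (by omega)
    rw [Nat.choose_succ_self_right] at h1
    have h2 : 128 * (s * (q + 2)) ≤ m := by
      refine le_trans ?_ hlin
      nlinarith [Nat.mul_le_mul hs (le_refl (s * (q + 2))), Nat.mul_le_mul hs (le_refl s)]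
    omega
  have hpos : 0 < 64 * (s * (q + 2)) := by positivity
  have h4 := Nat.lt_mul_div_succ ((m + s).choose m) hpos
  have h5 : (m + s).choose m ≤ 128 * (s * (q + 2)) * ((m + s).choose m / (64 * (s * (q + 2)))) := by
    generalize (m + s).choose m / (64 * (s * (q + 2))) = D at *
    generalize (m + s).choose m = B at *
    nlinarith
  exact h5.trans (Nat.mul_le_mul_left _ hb)

/-- The range `m ≥ s ^ 3`. Proof: let `q = Nat.log 2 m`, `L = s * (q + 2)`; `B = binom(m + s, m) ≤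
(m + s) ^ s ≤ 2 ^ L` as `m + s ≤ 2 m < 2 ^ (q + 2)`. For large `s` and `m ≥ s ^ 3`,
`2 s (8 L + 1) ≤ m` (as `m / log m` is at least about `s ^ 3 / (3 log s)`) and `B ≥ 128 L`. So by
`bd4`, `g m s ≥ B / (64 L) - 1 ≥ B / (128 L)`, and `128 L (1 - ε) ^ s ≤ 1` for large `s`, because
`q ≤ 2 ^ (Nat.log 2 q + 1) ≤ 2 ^ (δ s + 1)`, with `2 ^ (2 δ) = 1 / (1 - ε)`. -/
theorem asyG_far (ε : ℝ) (h0 : 0 < ε) (h1 : ε < 1) :
    ∃ δ : ℝ, 0 < δ ∧ ∃ M : ℕ, ∀ m s : ℕ, M ≤ s → s ^ 3 ≤ m →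
      (Nat.log 2 (Nat.log 2 m) : ℝ) ≤ δ * (s : ℝ) →
      (1 - ε) ^ s * ((m + s).choose m : ℝ) ≤ g m s := by
  obtain ⟨r, hr⟩ : ∃ r : ℝ, r = √(1 - ε) := ⟨_, rfl⟩
  have hr2 : r * r = 1 - ε := by
    rw [hr]
    exact Real.mul_self_sqrt (by linarith)
  have hr0 : 0 < r := by
    rw [hr]
    exact Real.sqrt_pos.2 (by linarith)
  have hr1 : r < 1 := by nlinarith
  have hlog2 : 0 < Real.log 2 := Real.log_pos (by norm_num)
  have hlogr : Real.log r < 0 := Real.log_neg hr0 hr1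
  have hT : Tendsto (fun n : ℕ => 512 * ((n : ℝ) * r ^ n)) atTop (𝓝 (512 * 0)) :=
    (tendsto_self_mul_const_pow_of_lt_one hr0.le hr1).const_mul 512
  rw [mul_zero] at hT
  obtain ⟨M1, hM1⟩ := eventually_atTop.1 (hT.eventually (gt_mem_nhds one_pos))
  refine ⟨-Real.log r / Real.log 2, div_pos (by linarith) hlog2, max M1 512, ?_⟩
  intro m s hMs hm hlog
  have hs1 : M1 ≤ s := (le_max_left _ _).trans hMs
  have hs2 : 512 ≤ s := (le_max_right _ _).trans hMs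
  have hnat := asyGF_nat m s hs2 hm
  have hnatR : ((m + s).choose m : ℝ) ≤ 128 * ((s : ℝ) * ((Nat.log 2 m : ℝ) + 2)) * (g m s : ℝ) := by
    exact_mod_cast hnat
  obtain ⟨q, hq⟩ : ∃ q, q = Nat.log 2 m := ⟨_, rfl⟩
  rw [← hq] at hlog hnatR
  have hpow : (2 : ℝ) ^ Nat.log 2 q * r ^ s ≤ 1 := by
    have e1 : (2 : ℝ) ^ Nat.log 2 q = Real.exp ((Nat.log 2 q : ℝ) * Real.log 2) := by
      rw [Real.exp_nat_mul, Real.exp_log (by norm_num)]
    have e2 : r ^ s = Real.exp ((s : ℝ) * Real.log r) := by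
      rw [Real.exp_nat_mul, Real.exp_log hr0]
    rw [e1, e2, ← Real.exp_add]
    rw [← Real.exp_zero]
    refine Real.exp_le_exp.2 ?_
    have h2 : (Nat.log 2 q : ℝ) * Real.log 2 ≤ -Real.log r / Real.log 2 * s * Real.log 2 :=
      mul_le_mul_of_nonneg_right hlog hlog2.le
    have h3 : -Real.log r / Real.log 2 * s * Real.log 2 = -Real.log r * s := by
      field_simp
    rw [h3] at h2
    linarith
  have hq2 : ((q : ℝ) + 2) ≤ 4 * 2 ^ Nat.log 2 q := by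
    have h2 : q < 2 ^ (Nat.log 2 q + 1) := Nat.lt_pow_succ_log_self one_lt_two q
    have h3 : 0 < 2 ^ Nat.log 2 q := by positivity
    have h4 : q + 2 ≤ 4 * 2 ^ Nat.log 2 q := by
      rw [pow_succ] at h2
      omega
    exact_mod_cast h4
  have hfin : 128 * ((s : ℝ) * ((q : ℝ) + 2)) * (1 - ε) ^ s ≤ 1 := by
    have hrs : 0 < r ^ s := by positivity
    have hsr : (0 : ℝ) ≤ s := Nat.cast_nonneg s
    have h5 := hM1 s hs1
    have h6 : (1 - ε) ^ s = r ^ s * r ^ s := by rw [← hr2, mul_pow]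
    rw [h6]
    calc 128 * ((s : ℝ) * ((q : ℝ) + 2)) * (r ^ s * r ^ s)
        ≤ 128 * ((s : ℝ) * (4 * 2 ^ Nat.log 2 q)) * (r ^ s * r ^ s) := by
          gcongr
      _ = 512 * ((s : ℝ) * r ^ s) * (2 ^ Nat.log 2 q * r ^ s) := by ring
      _ ≤ 512 * ((s : ℝ) * r ^ s) * 1 := by
          gcongr
      _ ≤ 1 := by
          rw [mul_one]
          exact h5.le
  have hB0 : (0 : ℝ) ≤ ((m + s).choose m : ℝ) := Nat.cast_nonneg _
  have hg0 : (0 : ℝ) ≤ (g m s : ℝ) := Nat.cast_nonneg _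
  have hε : (0 : ℝ) ≤ (1 - ε) ^ s := pow_nonneg (by linarith) s
  calc (1 - ε) ^ s * ((m + s).choose m : ℝ)
      ≤ (1 - ε) ^ s * (128 * ((s : ℝ) * ((q : ℝ) + 2)) * (g m s : ℝ)) :=
        mul_le_mul_of_nonneg_left hnatR hε
    _ = (128 * ((s : ℝ) * ((q : ℝ) + 2)) * (1 - ε) ^ s) * (g m s : ℝ) := by ring
    _ ≤ 1 * (g m s : ℝ) := mul_le_mul_of_nonneg_right hfin hg0
    _ = g m s := one_mul _

end Pool.Agent.Lib.MP_ffcda7_coU
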