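import Pool.Agent.Lib.MP_ffcda7_coU.FBG

set_option autoImplicit false

open Finset

namespace Pool.Agent.Lib.MP_ffcda7_coU

open Pool.Agent.Lib.MP_ffcda7_co (FB HasBasis f g)

/-- Proof: induction on `t`: `binom(m + t + 1, m) (t + 1) = (m + t + 1) binom(m + t, m)`, so the
quotient `r_t` of the two binomial coefficients has `r_(t+1) = r_t (1 - k / (m + t + 1))` and
`r_t ≥ 1 - k t / m`. -/
theorem choose_sub_ge (a k t : ℕ) :
    (a + k - k * t) * (a + k + t).choose t ≤ (a + k) * (a + t).choose t := by
  induction t with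
  | zero => simp
  | succ t ih =>
    by_cases h : k * (t + 1) ≤ a + k
    · obtain ⟨d, hd⟩ := Nat.exists_eq_add_of_le h
      have ha : a = k * t + d := by
        rw [mul_add, mul_one] at hd
        omega
      have e1 : a + k - k * (t + 1) = d := by omega
      have e2 : a + k - k * t = d + k := by omega
      rw [e1]
      rw [e2] at ih
      have h1 : (a + k + t + 1) * (a + k + t).choose t =
          (a + k + t + 1).choose (t + 1) * (t + 1) := Nat.add_one_mul_choose_eq (a + k + t) t
      have h2 : (a + t + 1) * (a + t).choose t = (a + t + 1).choose (t + 1) * (t + 1) :=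
        Nat.add_one_mul_choose_eq (a + t) t
      have h3 : d * (a + k + t + 1) ≤ (a + t + 1) * (d + k) := by
        have : d ≤ a + t + 1 := by omega
        nlinarith [Nat.mul_le_mul_right k this]
      refine Nat.le_of_mul_le_mul_right (c := t + 1) ?_ (Nat.succ_pos t)
      calc d * (a + k + (t + 1)).choose (t + 1) * (t + 1)
          = d * ((a + k + t + 1).choose (t + 1) * (t + 1)) := by
            rw [mul_assoc]
            rfl
        _ = d * (a + k + t + 1) * (a + k + t).choose t := by rw [← h1, mul_assoc]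
        _ ≤ (a + t + 1) * (d + k) * (a + k + t).choose t := Nat.mul_le_mul_right _ h3
        _ = (a + t + 1) * ((d + k) * (a + k + t).choose t) := mul_assoc _ _ _
        _ ≤ (a + t + 1) * ((a + k) * (a + t).choose t) := Nat.mul_le_mul_left _ ih
        _ = (a + k) * ((a + t + 1) * (a + t).choose t) := by ring
        _ = (a + k) * (a + (t + 1)).choose (t + 1) * (t + 1) := by
            rw [h2, mul_assoc]
            rfl
    · have : a + k - k * (t + 1) = 0 := by omega
      rw [this, zero_mul]
      exact Nat.zero_le _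

/-- Proof: `le_g`. Let `k = m / (2 s)` (floor, at least `8 L + 1`), `m = a + k`, `s = t + 1`,
`N = binom(a + t, a)`. For `1 ≤ n ≤ B / (64 L)`, `B = binom(m + s, m)`, use `FB_greedy` for
`(a, t, k, L, n)`: `8 L n ≤ k n`, and `8 L n ≤ B / 8 ≤ k N`, because `2 N ≥ binom(m + t, t)` by
`choose_sub_ge` (as `2 k t ≤ m`), `s B = (m + s) binom(m + t, t)` and `4 k s ≥ m + s` (from
`2 s (k + 1) > m ≥ 5 s`). -/
theorem bd4 (m s L : ℕ) (hs : 1 ≤ s) (hL : (m + s).choose m ≤ 2 ^ L)
    (hm : 2 * s * (8 * L + 1) ≤ m) : (m + s).choose m / (64 * L) ≤ g m s := by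
  rcases Nat.eq_zero_or_pos L with rfl | hL1
  · simp
  obtain ⟨t, rfl⟩ : ∃ t, s = t + 1 := ⟨s - 1, by omega⟩
  refine Pool.Agent.Lib.MP_ffcda7_co.le_g fun n hn1 hn => ?_
  refine Pool.Agent.Lib.MP_ffcda7_co.HasBasis_of_FB ?_
  have hs2 : 0 < 2 * (t + 1) := by omega
  obtain ⟨k, hk⟩ : ∃ k, k = m / (2 * (t + 1)) := ⟨_, rfl⟩
  have hk1 : k * (2 * (t + 1)) ≤ m := by
    rw [hk]
    exact Nat.div_mul_le_self m _
  have hk2 : m < (k + 1) * (2 * (t + 1)) := by
    have h1 := Nat.div_add_mod m (2 * (t + 1))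
    have h2 := Nat.mod_lt m hs2
    rw [← hk] at h1
    have h3 : (k + 1) * (2 * (t + 1)) = 2 * (t + 1) * k + 2 * (t + 1) := by ring
    rw [h3]
    omega
  have hk3 : 8 * L + 1 ≤ k := by
    rw [hk, Nat.le_div_iff_mul_le hs2, mul_comm]
    exact hm
  have hP : k * (2 * (t + 1)) = 2 * (k * t) + 2 * k := by ring
  have hP2 : (k + 1) * (2 * (t + 1)) = 2 * (k * t) + 2 * k + 2 * t + 2 := by ring
  have hm18 : 18 * (t + 1) ≤ m := by nlinarith
  obtain ⟨a, ha⟩ : ∃ a, m = a + k := ⟨m - k, by omega⟩
  have ha3 : 3 ≤ a := by omega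
  have hB : (m + (t + 1)).choose m = (m + t + 1).choose (t + 1) := by
    rw [← Nat.choose_symm_of_eq_add (show m + t + 1 = m + (t + 1) by ring)]
    rfl
  have hs1 : (m + t + 1) * (m + t).choose t = (m + (t + 1)).choose m * (t + 1) := by
    rw [hB]
    exact Nat.add_one_mul_choose_eq (m + t) t
  have hN : (a + t).choose a = (a + t).choose t :=
    (Nat.choose_symm_of_eq_add (show a + t = a + t from rfl))
  have hc := choose_sub_ge a k t
  rw [← ha] at hc
  have hC : (m + t).choose t ≤ 2 * (a + t).choose t := by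
    have h1 : m ≤ 2 * (m - k * t) := by omega
    have h2 : m * (m + t).choose t ≤ m * (2 * (a + t).choose t) := by
      calc m * (m + t).choose t ≤ 2 * (m - k * t) * (m + t).choose t := Nat.mul_le_mul_right _ h1
        _ = 2 * ((m - k * t) * (m + t).choose t) := mul_assoc _ _ _
        _ ≤ 2 * (m * (a + t).choose t) := Nat.mul_le_mul_left _ hc
        _ = m * (2 * (a + t).choose t) := by ring
    exact Nat.le_of_mul_le_mul_left h2 (by omega)
  have hBN : (m + (t + 1)).choose m ≤ 8 * k * (a + t).choose t := by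
    have h1 : m + t + 1 ≤ 4 * (k * (t + 1)) := by
      have : k * (t + 1) = k * t + k := by ring
      omega
    refine Nat.le_of_mul_le_mul_right (c := t + 1) ?_ (Nat.succ_pos t)
    calc (m + (t + 1)).choose m * (t + 1) = (m + t + 1) * (m + t).choose t := hs1.symm
      _ ≤ 4 * (k * (t + 1)) * (2 * (a + t).choose t) := Nat.mul_le_mul h1 hC
      _ = 8 * k * (a + t).choose t * (t + 1) := by ring
  have hn64 : n * (64 * L) ≤ (m + (t + 1)).choose m :=
    (Nat.le_div_iff_mul_le (by omega)).1 hn
  have hn2 : n ≤ 2 ^ L := by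
    refine le_trans ?_ hL
    refine le_trans ?_ hn64
    exact Nat.le_mul_of_pos_right n (by omega)
  have hkk : 8 * L * n ≤ k * min n ((a + t).choose a) := by
    rcases le_total n ((a + t).choose a) with h | h
    · rw [min_eq_left h]
      exact Nat.mul_le_mul_right n (by omega)
    · rw [min_eq_right h, hN]
      have h1 : n * (64 * L) = 8 * (8 * L * n) := by ring
      have h2 : 8 * k * (a + t).choose t = 8 * (k * (a + t).choose t) := by ring
      omega
  have h := FB_greedy a t k L n hn1 ha3 hn2 hkk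
  rw [ha]
  exact h

end Pool.Agent.Lib.MP_ffcda7_coU
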