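import Pool.Agent.Lib.MP_ffcda7_coU.AsyC

set_option autoImplicit false

open Finset Filter Topology

namespace Pool.Agent.Lib.MP_ffcda7_coU

open Pool.Agent.Lib.MP_ffcda7_co (FB HasBasis f g kap)

private theorem Block_pow (m : ℕ) (hm : 1 ≤ m) :
    Real.exp 1 * (m : ℝ) ^ (m + 1) ≤ ((m : ℝ) + 1) ^ (m + 1) := by
  have hm0 : (0 : ℝ) < m := by exact_mod_cast hm
  have h1 : (m : ℝ) / ((m : ℝ) + 1) ≤ Real.exp (-(1 / ((m : ℝ) + 1))) := by
    have h := Real.add_one_le_exp (-(1 / ((m : ℝ) + 1)))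
    have h2 : -(1 / ((m : ℝ) + 1)) + 1 = (m : ℝ) / ((m : ℝ) + 1) := by
      field_simp
      ring
    rw [h2] at h
    exact h
  have h3 : ((m : ℝ) / ((m : ℝ) + 1)) ^ (m + 1) ≤ Real.exp (-1) := by
    calc ((m : ℝ) / ((m : ℝ) + 1)) ^ (m + 1) ≤ (Real.exp (-(1 / ((m : ℝ) + 1)))) ^ (m + 1) :=
          pow_le_pow_left₀ (by positivity) h1 _
      _ = Real.exp (((m + 1 : ℕ) : ℝ) * (-(1 / ((m : ℝ) + 1)))) := by rw [Real.exp_nat_mul]
      _ = Real.exp (-1) := by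
          congr 1
          push_cast
          field_simp
  rw [div_pow, div_le_iff₀ (by positivity), Real.exp_neg] at h3
  have he : 0 < Real.exp 1 := Real.exp_pos 1
  calc Real.exp 1 * (m : ℝ) ^ (m + 1) ≤ Real.exp 1 * ((Real.exp 1)⁻¹ * ((m : ℝ) + 1) ^ (m + 1)) :=
        mul_le_mul_of_nonneg_left h3 he.le
    _ = ((m : ℝ) + 1) ^ (m + 1) := by
        rw [← mul_assoc, mul_inv_cancel₀ he.ne', one_mul]

private theorem Block_fact (m : ℕ) (hm : 1 ≤ m) :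
    (m.factorial : ℝ) * Real.exp 1 ^ m ≤ Real.exp 1 * m * (m : ℝ) ^ m := by
  induction m, hm using Nat.le_induction with
  | base => simp
  | succ m hm ih =>
    have h := Block_pow m hm
    have hm1 : (0 : ℝ) ≤ (m : ℝ) + 1 := by positivity
    have he : 0 < Real.exp 1 := Real.exp_pos 1
    calc (((m + 1).factorial : ℕ) : ℝ) * Real.exp 1 ^ (m + 1)
        = ((m : ℝ) + 1) * Real.exp 1 * ((m.factorial : ℝ) * Real.exp 1 ^ m) := by
          rw [Nat.factorial_succ]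
          push_cast
          ring
      _ ≤ ((m : ℝ) + 1) * Real.exp 1 * (Real.exp 1 * m * (m : ℝ) ^ m) :=
          mul_le_mul_of_nonneg_left ih (by positivity)
      _ = Real.exp 1 * ((m : ℝ) + 1) * (Real.exp 1 * (m : ℝ) ^ (m + 1)) := by ring
      _ ≤ Real.exp 1 * ((m : ℝ) + 1) * ((m : ℝ) + 1) ^ (m + 1) :=
          mul_le_mul_of_nonneg_left h (by positivity)
      _ = Real.exp 1 * ((m + 1 : ℕ) : ℝ) * ((m + 1 : ℕ) : ℝ) ^ (m + 1) := by
          push_cast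
          ring

/-- Proof: let `ε' = ε / 2`. For large `m0`, `kap m0 > (1 - ε') ^ m0 / m0!` (`kap_large`) and
`m0! ≤ (m0 / e) ^ m0 ((1 - ε') / (1 - ε)) ^ m0` (as `m! ≤ m ^ (m + 1) / e ^ (m - 1)`), so
`kap m0 > ((1 - ε) e / m0) ^ m0`. By `tendsto_f`, `f m0 s / s ^ m0` is larger than
`((1 - ε) e / m0) ^ m0` for all large `s`; take `s = m0 * b`. -/
theorem fixed_block (ε : ℝ) (h0 : 0 < ε) (h1 : ε < 1) :
    ∃ m0 : ℕ, 1 ≤ m0 ∧ ∃ b0 : ℕ, ∀ b : ℕ, b0 ≤ b →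
      ((1 - ε) * Real.exp 1 * b) ^ m0 ≤ f m0 (m0 * b) := by
  obtain ⟨M, hM⟩ := kap_large (ε / 2) (by linarith) (by linarith)
  have h1e : 0 < 1 - ε := by linarith
  have he : 0 < Real.exp 1 := Real.exp_pos 1
  have hq : 1 < (1 - ε / 2) / (1 - ε) := by
    rw [lt_div_iff₀ h1e]
    linarith
  have hev : ∀ᶠ m : ℕ in atTop, (m : ℝ) / ((1 - ε / 2) / (1 - ε)) ^ m < (Real.exp 1)⁻¹ := by
    have h := tendsto_pow_const_div_const_pow_of_one_lt 1 hq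
    have h2 := h.eventually_lt_const (inv_pos.mpr he)
    filter_upwards [h2] with m hm
    rwa [pow_one] at hm
  obtain ⟨m0, hm1, hm2, hm3⟩ :=
    (hev.and ((eventually_ge_atTop M).and (eventually_ge_atTop 1))).exists
  have hm0 : (0 : ℝ) < m0 := by exact_mod_cast hm3
  refine ⟨m0, hm3, ?_⟩
  have hk : ((1 - ε) * Real.exp 1 / m0) ^ m0 < kap m0 := by
    refine lt_of_le_of_lt ?_ (hM m0 hm2)
    have hqp : 0 < ((1 - ε / 2) / (1 - ε)) ^ m0 := pow_pos (by linarith) _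
    rw [div_lt_iff₀ hqp] at hm1
    have h4 : Real.exp 1 * m0 ≤ ((1 - ε / 2) / (1 - ε)) ^ m0 := by
      calc Real.exp 1 * m0 ≤ Real.exp 1 * ((Real.exp 1)⁻¹ * ((1 - ε / 2) / (1 - ε)) ^ m0) :=
            mul_le_mul_of_nonneg_left hm1.le he.le
        _ = ((1 - ε / 2) / (1 - ε)) ^ m0 := by rw [← mul_assoc, mul_inv_cancel₀ he.ne', one_mul]
    have h5 := Block_fact m0 hm3
    have hF : (0 : ℝ) < m0.factorial := by exact_mod_cast m0.factorial_pos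
    have hA : (0 : ℝ) < (1 - ε) ^ m0 := pow_pos h1e _
    have hB : (0 : ℝ) < (m0 : ℝ) ^ m0 := pow_pos hm0 _
    rw [div_pow, mul_pow, div_le_div_iff₀ hB hF]
    calc (1 - ε) ^ m0 * Real.exp 1 ^ m0 * (m0.factorial : ℝ)
        = (1 - ε) ^ m0 * ((m0.factorial : ℝ) * Real.exp 1 ^ m0) := by ring
      _ ≤ (1 - ε) ^ m0 * (Real.exp 1 * m0 * (m0 : ℝ) ^ m0) := mul_le_mul_of_nonneg_left h5 hA.le
      _ ≤ (1 - ε) ^ m0 * (((1 - ε / 2) / (1 - ε)) ^ m0 * (m0 : ℝ) ^ m0) :=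
          mul_le_mul_of_nonneg_left (mul_le_mul_of_nonneg_right h4 hB.le) hA.le
      _ = (1 - ε / 2) ^ m0 * (m0 : ℝ) ^ m0 := by
          rw [div_pow, ← mul_assoc, mul_div_cancel₀ _ hA.ne']
  have ht := (Pool.Agent.Lib.MP_ffcda7_co.tendsto_f m0 hm3).eventually_const_lt hk
  obtain ⟨s0, hs0⟩ := eventually_atTop.1 ht
  refine ⟨s0 + 1, fun b hb => ?_⟩
  have hb1 : 1 ≤ b := by omega
  have hs : s0 ≤ m0 * b := by
    calc s0 ≤ 1 * b := by omega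
      _ ≤ m0 * b := Nat.mul_le_mul_right b hm3
  have h6 := hs0 (m0 * b) hs
  have hbr : (0 : ℝ) < b := by exact_mod_cast hb1
  have hP : (0 : ℝ) < ((m0 * b : ℕ) : ℝ) ^ m0 := by
    push_cast
    positivity
  rw [lt_div_iff₀ hP, ← mul_pow] at h6
  have h7 : (1 - ε) * Real.exp 1 / m0 * ((m0 * b : ℕ) : ℝ) = (1 - ε) * Real.exp 1 * b := by
    push_cast
    field_simp
  rw [h7] at h6
  exact h6.le

end Pool.Agent.Lib.MP_ffcda7_coU
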