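import Pool.Agent.Lib.MP_ffcda7_coU.Defs

set_option autoImplicit false

open Finset

namespace Pool.Agent.Lib.MP_ffcda7_coU

private theorem subL_pair {m n : ℕ} [NeZero n] {J J' : Finset (Fin m)} {j : Fin m} (hj : j ∈ J)
    (hj' : j ∉ J') :
    n * ((univ : Finset (Fin m → ZMod n)).filter
      fun a => ∑ i ∈ J, a i = ∑ i ∈ J', a i).card ≤ n ^ m := by
  classical
  have h1 : (((univ : Finset (Fin m → ZMod n)).filter
      fun a => ∑ i ∈ J, a i = ∑ i ∈ J', a i) ×ˢ (univ : Finset (ZMod n))).card ≤
      (univ : Finset (Fin m → ZMod n)).card := by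
    apply Finset.card_le_card_of_injOn (fun p => p.1 + Pi.single j p.2)
    · intro p _
      simp
    · rintro ⟨a, c⟩ hp ⟨b, d⟩ hq h
      simp only [coe_product, coe_filter, mem_univ, true_and, coe_univ, Set.mem_prod,
        Set.mem_ofPred_eq, Set.mem_univ, and_true] at hp hq h
      have e1 : ∑ i ∈ J, (a + Pi.single j c : Fin m → ZMod n) i = ∑ i ∈ J, a i + c := by
        simp only [Pi.add_apply, sum_add_distrib, sum_pi_single', if_pos hj]
      have e2 : ∑ i ∈ J', (a + Pi.single j c : Fin m → ZMod n) i = ∑ i ∈ J', a i := by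
        simp only [Pi.add_apply, sum_add_distrib, sum_pi_single', if_neg hj', add_zero]
      have e3 : ∑ i ∈ J, (b + Pi.single j d : Fin m → ZMod n) i = ∑ i ∈ J, b i + d := by
        simp only [Pi.add_apply, sum_add_distrib, sum_pi_single', if_pos hj]
      have e4 : ∑ i ∈ J', (b + Pi.single j d : Fin m → ZMod n) i = ∑ i ∈ J', b i := by
        simp only [Pi.add_apply, sum_add_distrib, sum_pi_single', if_neg hj', add_zero]
      rw [h] at e1 e2
      have h5 : ∑ i ∈ J, a i + c = ∑ i ∈ J, b i + d := by rw [← e1, ← e3]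
      have h6 : ∑ i ∈ J', a i = ∑ i ∈ J', b i := by rw [← e2, ← e4]
      have h7 : c = d := by
        rw [hp, hq, h6] at h5
        exact add_left_cancel h5
      subst h7
      have h8 : a = b := add_right_cancel h
      rw [h8]
  rw [card_product, card_univ, card_univ, ZMod.card, Fintype.card_fun, ZMod.card, Fintype.card_fin]
    at h1
  rw [mul_comm]
  exact h1

private theorem subL_cs {α β : Type*} [DecidableEq β] (P : Finset α) (f : α → β) :
    P.card ^ 2 ≤ (P.image f).card * ∑ J ∈ P, (P.filter fun J' => f J = f J').card := by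
  have h1 : P.card = ∑ b ∈ P.image f, (P.filter fun J => f J = b).card :=
    Finset.card_eq_sum_card_image f P
  have h2 : ∑ J ∈ P, (P.filter fun J' => f J = f J').card =
      ∑ b ∈ P.image f, ((P.filter fun J => f J = b).card) ^ 2 := by
    rw [← Finset.sum_fiberwise_of_maps_to (s := P) (t := P.image f) (g := f)
      (fun x hx => mem_image_of_mem f hx)]
    apply sum_congr rfl
    intro b _
    rw [sum_congr rfl (g := fun _ => (P.filter fun J => f J = b).card), sum_const, smul_eq_mul, sq]
    intro x hx
    rw [(mem_filter.1 hx).2]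
    congr 1
    ext y
    simp [eq_comm]
  rw [h2]
  nth_rewrite 1 [h1]
  exact sq_sum_le_card_mul_sum_sq

/-- Subset sums with exactly `s` terms. Proof: for two different `s`-subsets `J`, `J'` of `Fin m`
the number of the `a : Fin m → ZMod n` with `∑_J a = ∑_J' a` is `n ^ (m - 1)` (solve for one
coordinate in the symmetric difference), so the sum over `a` of the number of the pairs with the same
sum is at most `n ^ m N + n ^ (m - 1) N ^ 2`, `N = binom(m, s)`, and for some `a` the number `Q` of
these pairs has `n Q ≤ n N + N ^ 2`; by Cauchy-Schwarz `N ^ 2 ≤ |image| Q`. -/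
theorem subset_large (m s n : ℕ) [NeZero n] :
    ∃ a : Fin m → ZMod n, min n (m.choose s) ≤
      2 * ((powersetCard s (univ : Finset (Fin m))).image fun J => ∑ j ∈ J, a j).card := by
  classical
  set P := powersetCard s (univ : Finset (Fin m)) with hP
  have hN : P.card = m.choose s := by
    rw [hP, card_powersetCard, card_univ, Fintype.card_fin]
  rw [← hN]
  rcases Nat.eq_zero_or_pos P.card with h0 | hpos
  · exact ⟨0, by rw [h0]; simp⟩
  have hcount : n * ∑ a : Fin m → ZMod n, ∑ J ∈ P,
      (P.filter fun J' => ∑ j ∈ J, a j = ∑ j ∈ J', a j).card ≤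
      ∑ _a : Fin m → ZMod n, (n * P.card + P.card ^ 2) := by
    have e1 : ∑ a : Fin m → ZMod n, ∑ J ∈ P,
        (P.filter fun J' => ∑ j ∈ J, a j = ∑ j ∈ J', a j).card =
        ∑ J ∈ P, ∑ J' ∈ P, ((univ : Finset (Fin m → ZMod n)).filter
          fun a => ∑ i ∈ J, a i = ∑ i ∈ J', a i).card := by
      rw [sum_comm]
      apply sum_congr rfl
      intro J _
      simp only [card_filter]
      rw [sum_comm]
    rw [e1, mul_sum]
    have e2 : ∀ J ∈ P, n * ∑ J' ∈ P, ((univ : Finset (Fin m → ZMod n)).filter
          fun a => ∑ i ∈ J, a i = ∑ i ∈ J', a i).card ≤ n * n ^ m + n ^ m * P.card := by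
      intro J hJ
      rw [← add_sum_erase P _ hJ, mul_add]
      apply Nat.add_le_add
      · apply Nat.mul_le_mul_left
        refine (card_filter_le _ _).trans ?_
        rw [card_univ, Fintype.card_fun, ZMod.card, Fintype.card_fin]
      · rw [mul_sum]
        calc ∑ J' ∈ P.erase J, n * ((univ : Finset (Fin m → ZMod n)).filter
                fun a => ∑ i ∈ J, a i = ∑ i ∈ J', a i).card
            ≤ ∑ _J' ∈ P.erase J, n ^ m := by
              apply sum_le_sum
              intro J' hJ'
              obtain ⟨hne, hJ'P⟩ := mem_erase.1 hJ'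
              have hc : J.card = J'.card := by
                rw [hP, mem_powersetCard] at hJ hJ'P
                rw [hJ.2, hJ'P.2]
              have hex : ∃ j ∈ J, j ∉ J' := by
                by_contra hcon
                push Not at hcon
                exact hne (eq_of_subset_of_card_le hcon hc.ge).symm
              obtain ⟨j, hj, hj'⟩ := hex
              exact subL_pair hj hj'
          _ = n ^ m * (P.erase J).card := by rw [sum_const, smul_eq_mul, mul_comm]
          _ ≤ n ^ m * P.card := Nat.mul_le_mul_left _ (card_le_card (erase_subset _ _))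
    calc ∑ J ∈ P, n * ∑ J' ∈ P, ((univ : Finset (Fin m → ZMod n)).filter
          fun a => ∑ i ∈ J, a i = ∑ i ∈ J', a i).card
        ≤ ∑ _J ∈ P, (n * n ^ m + n ^ m * P.card) := sum_le_sum e2
      _ = P.card * (n * n ^ m + n ^ m * P.card) := by rw [sum_const, smul_eq_mul]
      _ = ∑ _a : Fin m → ZMod n, (n * P.card + P.card ^ 2) := by
          rw [sum_const, smul_eq_mul, card_univ, Fintype.card_fun, ZMod.card, Fintype.card_fin]
          ring
  rw [mul_sum] at hcount
  obtain ⟨a, -, ha⟩ := exists_le_of_sum_le (univ_nonempty (α := Fin m → ZMod n)) hcount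
  refine ⟨a, ?_⟩
  have hcs := subL_cs P (fun J => ∑ j ∈ J, a j)
  set I := (P.image fun J => ∑ j ∈ J, a j).card with hI
  set Q := ∑ J ∈ P, (P.filter fun J' => ∑ j ∈ J, a j = ∑ j ∈ J', a j).card with hQ
  have h1 : P.card * (n * P.card) ≤ P.card * (I * (n + P.card)) := by
    calc P.card * (n * P.card) = n * P.card ^ 2 := by ring
      _ ≤ n * (I * Q) := Nat.mul_le_mul_left _ hcs
      _ = I * (n * Q) := by ring
      _ ≤ I * (n * P.card + P.card ^ 2) := Nat.mul_le_mul_left _ ha
      _ = P.card * (I * (n + P.card)) := by ring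
  have h2 : n * P.card ≤ I * (n + P.card) := Nat.le_of_mul_le_mul_left h1 hpos
  have hn : 0 < n := Nat.pos_of_ne_zero (NeZero.ne n)
  rcases le_total n P.card with h | h
  · rw [min_eq_left h]
    have h3 : P.card * n ≤ P.card * (2 * I) := by
      calc P.card * n = n * P.card := by ring
        _ ≤ I * (n + P.card) := h2
        _ ≤ I * (P.card + P.card) := Nat.mul_le_mul_left _ (by omega)
        _ = P.card * (2 * I) := by ring
    exact Nat.le_of_mul_le_mul_left h3 hpos
  · rw [min_eq_right h]
    have h3 : n * P.card ≤ n * (2 * I) := by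
      calc n * P.card ≤ I * (n + P.card) := h2
        _ ≤ I * (n + n) := Nat.mul_le_mul_left _ (by omega)
        _ = n * (2 * I) := by ring
    exact Nat.le_of_mul_le_mul_left h3 hn

end Pool.Agent.Lib.MP_ffcda7_coU
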