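import Pool.Agent.Lib.MP_ffcda7_coU.Greedy
import Pool.Agent.Lib.MP_ffcda7_coU.SubL

set_option autoImplicit false

open Finset

namespace Pool.Agent.Lib.MP_ffcda7_coU

private theorem dist_num (n c k L : ℕ) (hn1 : 1 ≤ n) (hL1 : 1 ≤ L) (hL : n ≤ 2 ^ L)
    (hc : c ≤ n) (hk : L * n ≤ k * c) : n * (n - c) ^ k < n ^ k := by
  have hnpos : (0 : ℝ) < n := by exact_mod_cast hn1
  have h1 : (n : ℝ) * ((n - c : ℕ) : ℝ) ^ k < (n : ℝ) ^ k := by
    rw [Nat.cast_sub hc]
    have h2 : ((n : ℝ) - c) = n * (1 - c / n) := by field_simp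
    rw [h2, mul_pow]
    have hcn : (c : ℝ) / n ≤ 1 := by
      rw [div_le_one hnpos]
      exact_mod_cast hc
    have h3 : (1 - (c : ℝ) / n) ^ k ≤ Real.exp (-(L : ℝ)) := by
      have h4 : (1 - (c : ℝ) / n) ≤ Real.exp (-((c : ℝ) / n)) := by
        have := Real.add_one_le_exp (-((c : ℝ) / n))
        linarith
      calc (1 - (c : ℝ) / n) ^ k ≤ (Real.exp (-((c : ℝ) / n))) ^ k :=
            pow_le_pow_left₀ (by linarith) h4 k
        _ = Real.exp (-((k : ℝ) * c / n)) := by
            rw [← Real.exp_nat_mul]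
            congr 1
            ring
        _ ≤ Real.exp (-(L : ℝ)) := by
            apply Real.exp_le_exp.2
            have h5 : (L : ℝ) ≤ (k : ℝ) * c / n := by
              rw [le_div_iff₀ hnpos]
              exact_mod_cast hk
            linarith
    have h6 : (n : ℝ) * Real.exp (-(L : ℝ)) < 1 := by
      have h7 : (n : ℝ) ≤ 2 ^ L := by exact_mod_cast hL
      have h8 : (2 : ℝ) ^ L < Real.exp (L : ℝ) := by
        have h9 : (2 : ℝ) < Real.exp 1 := by
          have := Real.add_one_lt_exp (x := 1) one_ne_zero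
          linarith
        calc (2 : ℝ) ^ L < (Real.exp 1) ^ L := pow_lt_pow_left₀ h9 (by norm_num) (by omega)
          _ = Real.exp (L : ℝ) := by
            rw [← Real.exp_nat_mul, mul_one]
      rw [Real.exp_neg, ← div_eq_mul_inv, div_lt_one (Real.exp_pos _)]
      exact h7.trans_lt h8
    calc (n : ℝ) * ((n : ℝ) ^ k * (1 - (c : ℝ) / n) ^ k)
        = (n : ℝ) ^ k * ((n : ℝ) * (1 - (c : ℝ) / n) ^ k) := by ring
      _ ≤ (n : ℝ) ^ k * ((n : ℝ) * Real.exp (-(L : ℝ))) := by
          apply mul_le_mul_of_nonneg_left _ (by positivity)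
          exact mul_le_mul_of_nonneg_left h3 hnpos.le
      _ < (n : ℝ) ^ k * 1 := by
          apply mul_lt_mul_of_pos_left h6 (by positivity)
      _ = (n : ℝ) ^ k := mul_one _
  exact_mod_cast h1

/-- Proof: take `a` from `subset_large`, `S` the set of the sums, `2 |S| ≥ min n N`, so
`k |S| ≥ L n`; take `b` from `greedy`. As `(1 - |S| / n) ^ k ≤ exp (- L) < 2 ^ (- L) ≤ 1 / n`
(`L ≥ 1`), every `x` is `b i + ∑_{J} a j` with `|J| = s`: the elements `a j` (`Fin m`) and `b i`
(`Fin k`) together, the set `J ∪ {i}`. -/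
theorem distinct (m k s L n : ℕ) (hn1 : 1 ≤ n) (hL1 : 1 ≤ L) (hL : n ≤ 2 ^ L)
    (hk : 2 * L * n ≤ k * min n (m.choose s)) :
    ∃ a : Fin (m + k) → ZMod n, ∀ x : ZMod n, ∃ J : Finset (Fin (m + k)),
      J.card = s + 1 ∧ ∑ j ∈ J, a j = x := by
  have : NeZero n := ⟨by omega⟩
  obtain ⟨a, ha⟩ := subset_large m s n
  set S := (powersetCard s (univ : Finset (Fin m))).image fun J => ∑ j ∈ J, a j with hS
  have hcn : S.card ≤ n := by
    have := card_le_univ S
    rwa [ZMod.card] at this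
  have hk2 : L * n ≤ k * S.card := by
    have h1 : k * min n (m.choose s) ≤ k * (2 * S.card) := Nat.mul_le_mul_left _ ha
    have h2 : 2 * (L * n) ≤ 2 * (k * S.card) := by
      calc 2 * (L * n) = 2 * L * n := by ring
        _ ≤ k * min n (m.choose s) := hk
        _ ≤ k * (2 * S.card) := h1
        _ = 2 * (k * S.card) := by ring
    omega
  have hnum := dist_num n S.card k L hn1 hL1 hL hcn hk2
  obtain ⟨b, hb⟩ := greedy S k
  rw [ZMod.card] at hb
  have hU : (univ.filter fun x : ZMod n => ∀ i, x - b i ∉ S).card = 0 := by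
    by_contra h0
    have h1 : 1 ≤ (univ.filter fun x : ZMod n => ∀ i, x - b i ∉ S).card :=
      Nat.one_le_iff_ne_zero.2 h0
    have h2 : n ^ k * 1 ≤ n * (n - S.card) ^ k := (Nat.mul_le_mul_left _ h1).trans hb
    omega
  refine ⟨Fin.append a b, fun x => ?_⟩
  have hx : ∃ i, x - b i ∈ S := by
    by_contra hno
    push Not at hno
    rw [card_eq_zero] at hU
    have : x ∈ (univ.filter fun x : ZMod n => ∀ i, x - b i ∉ S) := by
      rw [mem_filter]
      exact ⟨mem_univ _, hno⟩
    rw [hU] at this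
    exact notMem_empty _ this
  obtain ⟨i, hi⟩ := hx
  rw [hS, mem_image] at hi
  obtain ⟨J, hJ, hJx⟩ := hi
  rw [mem_powersetCard] at hJ
  have hnot : Fin.natAdd m i ∉ J.map (Fin.castAddEmb k) := by
    intro h
    rw [mem_map] at h
    obtain ⟨j, -, hj⟩ := h
    have h1 := congrArg Fin.val hj
    simp only [Fin.castAddEmb_apply, Fin.val_castAdd, Fin.val_natAdd] at h1
    have := j.isLt
    omega
  refine ⟨insert (Fin.natAdd m i) (J.map (Fin.castAddEmb k)), ?_, ?_⟩
  · rw [card_insert_of_notMem hnot, card_map, hJ.2]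
  · rw [sum_insert hnot, sum_map, Fin.append_right]
    have h1 : ∀ j ∈ J, Fin.append a b (Fin.castAddEmb k j) = a j := fun j _ => by
      rw [Fin.castAddEmb_apply, Fin.append_left]
    rw [sum_congr rfl h1, hJx]
    abel

end Pool.Agent.Lib.MP_ffcda7_coU
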