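import Pool.Agent.Lib.MP_ffcda7_coU.Defs

set_option autoImplicit false

open Finset Filter Topology

namespace Pool.Agent.Lib.MP_ffcda7_coU

private theorem seed_fact (s : ℕ) (hs : 1 ≤ s) :
    (s.factorial : ℝ) ≤ Real.exp 1 * s * (s / Real.exp 1) ^ s := by
  obtain ⟨t, rfl⟩ : ∃ t, s = t + 1 := ⟨s - 1, by omega⟩
  have h1 := Stirling.stirlingSeq'_antitone (Nat.zero_le t)
  simp only [Function.comp, Nat.succ_eq_add_one, zero_add] at h1
  rw [Stirling.stirlingSeq_one, Stirling.stirlingSeq] at h1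
  have he : 0 < Real.exp 1 := Real.exp_pos 1
  have hpos : (0 : ℝ) < √(2 * ((t + 1 : ℕ) : ℝ)) * (((t + 1 : ℕ) : ℝ) / Real.exp 1) ^ (t + 1) := by
    positivity
  rw [div_le_iff₀ hpos] at h1
  refine h1.trans ?_
  rw [Real.sqrt_mul (by norm_num)]
  have h2 : (0 : ℝ) < √2 := by positivity
  have h3 : √(((t + 1 : ℕ) : ℝ)) ≤ ((t + 1 : ℕ) : ℝ) := by
    rw [Real.sqrt_le_left (by positivity)]
    have : (1 : ℝ) ≤ ((t + 1 : ℕ) : ℝ) := by
      push_cast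
      linarith [(Nat.cast_nonneg t : (0 : ℝ) ≤ t)]
    nlinarith
  have h4 : Real.exp 1 / √2 * (√2 * √(((t + 1 : ℕ) : ℝ)) *
      (((t + 1 : ℕ) : ℝ) / Real.exp 1) ^ (t + 1)) =
      Real.exp 1 * √(((t + 1 : ℕ) : ℝ)) * (((t + 1 : ℕ) : ℝ) / Real.exp 1) ^ (t + 1) := by
    field_simp
  rw [h4]
  have h5 : (0 : ℝ) ≤ (((t + 1 : ℕ) : ℝ) / Real.exp 1) ^ (t + 1) := by positivity
  exact mul_le_mul_of_nonneg_right (mul_le_mul_of_nonneg_left h3 he.le) h5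

/-- `q binom(s q, s) ≥ (e q)^(s+1) / (2 e^2 s)` for `q = s^3`. -/
private theorem seed_choose (s : ℕ) (hs : 2 ≤ s) :
    (Real.exp 1 * (s : ℝ) ^ 3) ^ (s + 1) ≤
      2 * Real.exp 1 ^ 2 * s * ((s : ℝ) ^ 3 * ((s * s ^ 3).choose s : ℝ)) := by
  have he : 0 < Real.exp 1 := Real.exp_pos 1
  have hs0 : (0 : ℝ) < s := by positivity
  have hs2 : (2 : ℝ) ≤ s := by exact_mod_cast hs
  set q : ℝ := (s : ℝ) ^ 3 with hq
  have hq8 : (8 : ℝ) ≤ q := by
    rw [hq]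
    calc (8 : ℝ) = 2 ^ 3 := by norm_num
      _ ≤ (s : ℝ) ^ 3 := by gcongr
  have hC : ((s : ℝ) * (q - 1)) ^ s ≤ (s.factorial : ℝ) * ((s * s ^ 3).choose s : ℝ) := by
    have h1 := Nat.pow_sub_le_descFactorial (s * s ^ 3) s
    rw [Nat.descFactorial_eq_factorial_mul_choose] at h1
    have h2 : s * (s ^ 3 - 1) ≤ s * s ^ 3 + 1 - s := by
      have h3 : 1 ≤ s ^ 3 := Nat.one_le_pow _ _ (by omega)
      have h4 : s * (s ^ 3 - 1) = s * s ^ 3 - s := by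
        rw [Nat.mul_sub, mul_one]
      omega
    have h5 : (s * (s ^ 3 - 1)) ^ s ≤ s.factorial * (s * s ^ 3).choose s :=
      (Nat.pow_le_pow_left h2 s).trans h1
    have h6 : (((s * (s ^ 3 - 1)) ^ s : ℕ) : ℝ) ≤ ((s.factorial * (s * s ^ 3).choose s : ℕ) : ℝ) := by
      exact_mod_cast h5
    have h7 : ((s ^ 3 - 1 : ℕ) : ℝ) = q - 1 := by
      rw [Nat.cast_sub (Nat.one_le_pow _ _ (by omega))]
      push_cast
      rfl
    rw [Nat.cast_pow, Nat.cast_mul, h7, Nat.cast_mul] at h6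
    exact h6
  have hber : q ^ s ≤ 2 * (q - 1) ^ s := by
    have h1 := one_add_mul_le_pow (a := -(1 / q)) (by
      have : 1 / q ≤ 1 := by
        rw [div_le_one (by linarith)]
        linarith
      linarith) s
    have h2 : (1 : ℝ) / 2 ≤ 1 + (s : ℝ) * -(1 / q) := by
      have h3 : (s : ℝ) * (1 / q) ≤ 1 / 2 := by
        rw [mul_one_div, div_le_iff₀ (by linarith), hq]
        nlinarith [sq_nonneg ((s : ℝ) - 2)]
      linarith
    have h4 : (1 / 2 : ℝ) ≤ (1 + -(1 / q)) ^ s := h2.trans h1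
    have h5 : q ^ s * (1 + -(1 / q)) ^ s = (q - 1) ^ s := by
      rw [← mul_pow]
      congr 1
      have : q ≠ 0 := by linarith
      field_simp
      ring
    have h6 : 0 ≤ q ^ s := by positivity
    nlinarith [mul_le_mul_of_nonneg_left h4 h6]
  have hf := seed_fact s (by omega)
  have hch0 : (0 : ℝ) ≤ ((s * s ^ 3).choose s : ℝ) := by positivity
  have h8 : ((s : ℝ) * (q - 1)) ^ s ≤
      (Real.exp 1 * s * (s / Real.exp 1) ^ s) * ((s * s ^ 3).choose s : ℝ) :=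
    hC.trans (mul_le_mul_of_nonneg_right hf hch0)
  -- cancel `s ^ s`
  have h9 : (q - 1) ^ s * Real.exp 1 ^ s ≤ Real.exp 1 * s * ((s * s ^ 3).choose s : ℝ) := by
    rw [mul_pow, div_pow] at h8
    have hss : (0 : ℝ) < (s : ℝ) ^ s := by positivity
    have hes : (0 : ℝ) < Real.exp 1 ^ s := by positivity
    have h10 : Real.exp 1 * s * ((s : ℝ) ^ s / Real.exp 1 ^ s) * ((s * s ^ 3).choose s : ℝ) =
        (s : ℝ) ^ s * (Real.exp 1 * s * ((s * s ^ 3).choose s : ℝ)) / Real.exp 1 ^ s := by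
      ring
    rw [h10, le_div_iff₀ hes, mul_assoc] at h8
    exact le_of_mul_le_mul_left h8 hss
  calc (Real.exp 1 * q) ^ (s + 1) = Real.exp 1 * q * (Real.exp 1 ^ s * q ^ s) := by
        rw [pow_succ, mul_pow]
        ring
    _ ≤ Real.exp 1 * q * (Real.exp 1 ^ s * (2 * (q - 1) ^ s)) := by
        gcongr
    _ = 2 * Real.exp 1 * q * ((q - 1) ^ s * Real.exp 1 ^ s) := by ring
    _ ≤ 2 * Real.exp 1 * q * (Real.exp 1 * s * ((s * s ^ 3).choose s : ℝ)) := by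
        gcongr
    _ = 2 * Real.exp 1 ^ 2 * s * (q * ((s * s ^ 3).choose s : ℝ)) := by ring

/-- The numbers for `distinct`. Proof: for large `s` let `q = s ^ 3`, `k = q`, `m = s q`, `n` the
upper integer part of `((1 - ε) e q) ^ (s + 1)` and `L` the least number with `n ≤ 2 ^ L`, so
`L ≤ (s + 1) log_2 (e q) + 2 ≤ 5 s log_2 s` for large `s`. Then `2 L n ≤ k n`, and
`k binom(m, s) ≥ q (s (q - 1)) ^ s / s! ≥ q (q - 1) ^ s e ^ s / (e s) ≥
(e q) ^ (s + 1) / (2 e ^ 2 s)` (as `s! ≤ e s (s / e) ^ s`, `(1 - 1 / q) ^ s ≥ 1 / 2`), which is at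
least `4 L ((1 - ε) e q) ^ (s + 1) ≥ 2 L n` for large `s`. -/
theorem seed (ε : ℝ) (h0 : 0 < ε) (h1 : ε < 1) :
    ∃ M : ℕ, ∀ s : ℕ, M ≤ s → ∃ m k L n : ℕ, 1 ≤ k ∧ 1 ≤ n ∧ 1 ≤ L ∧ n ≤ 2 ^ L ∧
      2 * L * n ≤ k * min n (m.choose s) ∧
      ((1 - ε) * Real.exp 1 * (((m + k : ℕ) : ℝ) / ((s + 1 : ℕ) : ℝ))) ^ (s + 1) ≤ n := by
  have hd0 : 0 < 1 - ε := by linarith
  have hd1 : 1 - ε < 1 := by linarith
  have he : 0 < Real.exp 1 := Real.exp_pos 1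
  have he3 : Real.exp 1 < 3 := Real.exp_one_lt_three
  have he2 : 2 < Real.exp 1 := by
    have := Real.exp_one_gt_d9
    linarith
  have e1 : ∀ᶠ s : ℕ in atTop, (s : ℝ) ^ 3 * (1 - ε) ^ s < 1 / 216 :=
    (tendsto_pow_const_mul_const_pow_of_abs_lt_one 3 (by rw [abs_of_pos hd0]; exact hd1)).eventually
      (gt_mem_nhds (by norm_num))
  have e2 : ∀ᶠ s : ℕ in atTop, (s : ℝ) ^ 3 * (1 / 2 : ℝ) ^ s < 1 / 3 :=
    (tendsto_pow_const_mul_const_pow_of_abs_lt_one 3 (by rw [abs_of_pos] <;> norm_num)).eventually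
      (gt_mem_nhds (by norm_num))
  have e3 : ∀ᶠ s : ℕ in atTop, 1 / (1 - ε) ≤ (s : ℝ) :=
    tendsto_natCast_atTop_atTop.eventually_ge_atTop _
  obtain ⟨M, hM⟩ := eventually_atTop.1 ((e1.and e2).and (e3.and (eventually_ge_atTop 4)))
  refine ⟨M, fun s hs => ?_⟩
  obtain ⟨⟨h216, hhalf⟩, hinv, hs4⟩ := hM s hs
  have hs4' : (4 : ℝ) ≤ s := by exact_mod_cast hs4
  have hs0 : (0 : ℝ) < s := by linarith
  set x : ℝ := (1 - ε) * Real.exp 1 * (s : ℝ) ^ 3 with hx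
  have hx1 : 1 ≤ x := by
    have h2 : 1 ≤ (s : ℝ) * (1 - ε) := (div_le_iff₀ hd0).1 hinv
    have h3 : (s : ℝ) ≤ (s : ℝ) ^ 3 := by nlinarith [sq_nonneg ((s : ℝ) - 1)]
    have h4 : (s : ℝ) * (1 - ε) ≤ (s : ℝ) ^ 3 * (1 - ε) := mul_le_mul_of_nonneg_right h3 hd0.le
    have h5 : (s : ℝ) ^ 3 * (1 - ε) * 1 ≤ (s : ℝ) ^ 3 * (1 - ε) * Real.exp 1 :=
      mul_le_mul_of_nonneg_left (by linarith) (by positivity)
    rw [hx]
    nlinarith
  have hx2 : x ≤ 2 ^ s := by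
    have h2 : (s : ℝ) ^ 3 * 3 ≤ 2 ^ s := by
      have h3 : (s : ℝ) ^ 3 < 1 / 3 * 2 ^ s := by
        have h4 : (0 : ℝ) < 2 ^ s := by positivity
        have h5 := mul_lt_mul_of_pos_right hhalf h4
        rw [mul_assoc, ← mul_pow] at h5
        norm_num at h5
        linarith
      linarith
    have h6 : (1 - ε) * Real.exp 1 ≤ 3 := by nlinarith
    have h7 : (0 : ℝ) < (s : ℝ) ^ 3 := by positivity
    rw [hx]
    nlinarith
  have hX1 : 1 ≤ x ^ (s + 1) := one_le_pow₀ hx1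
  have hceil : ((⌈x ^ (s + 1)⌉₊ : ℕ) : ℝ) < x ^ (s + 1) + 1 := Nat.ceil_lt_add_one (by positivity)
  have hLe : x ^ (s + 1) ≤ 2 ^ (s * (s + 1)) := by
    rw [pow_mul]
    exact pow_le_pow_left₀ (by linarith) hx2 _
  refine ⟨s * s ^ 3, s ^ 3, s ^ 2 + s + 1, ⌈x ^ (s + 1)⌉₊, Nat.one_le_pow _ _ (by omega), ?_,
    by omega, ?_, ?_, ?_⟩
  · rw [Nat.one_le_ceil_iff]
    linarith
  · have h2 : ((⌈x ^ (s + 1)⌉₊ : ℕ) : ℝ) ≤ ((2 ^ (s ^ 2 + s + 1) : ℕ) : ℝ) := by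
      have h3 : (2 : ℝ) ^ (s ^ 2 + s + 1) = 2 * 2 ^ (s * (s + 1)) := by
        rw [pow_succ]
        have : s ^ 2 + s = s * (s + 1) := by ring
        rw [this]
        ring
      push_cast
      rw [h3]
      linarith
    exact_mod_cast h2
  · rw [← Nat.mul_min_mul_left, le_min_iff]
    constructor
    · apply Nat.mul_le_mul_right
      nlinarith [Nat.mul_le_mul hs4 hs4]
    · have h2 := seed_choose s (by omega)
      have h3 : ((⌈x ^ (s + 1)⌉₊ : ℕ) : ℝ) ≤ 2 * x ^ (s + 1) := by linarith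
      have hxe : x ^ (s + 1) = (1 - ε) ^ (s + 1) * (Real.exp 1 * (s : ℝ) ^ 3) ^ (s + 1) := by
        rw [← mul_pow, hx]
        ring
      have hE : (0 : ℝ) < (Real.exp 1 * (s : ℝ) ^ 3) ^ (s + 1) := by positivity
      set E : ℝ := (Real.exp 1 * (s : ℝ) ^ 3) ^ (s + 1) with hEdef
      set C : ℝ := ((s * s ^ 3).choose s : ℝ) with hCdef
      have hC0 : 0 ≤ C := by positivity
      set Q : ℝ := (s : ℝ) ^ 3 * C with hQ
      have hQ0 : 0 ≤ Q := by positivity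
      set L : ℝ := (s : ℝ) ^ 2 + s + 1 with hL
      have hLs : L * s ≤ 3 * (s : ℝ) ^ 3 := by
        rw [hL]
        nlinarith [sq_nonneg ((s : ℝ) - 1), mul_pos hs0 hs0]
      have hdp : (1 - ε) ^ (s + 1) ≤ (1 - ε) ^ s :=
        pow_le_pow_of_le_one hd0.le hd1.le (Nat.le_succ s)
      have hdp0 : 0 < (1 - ε) ^ (s + 1) := by positivity
      have hee : Real.exp 1 ^ 2 ≤ 9 := by nlinarith
      -- `4 L (1 - ε)^(s+1) * (2 e^2 s) ≤ 1`
      have hkey : 4 * L * (1 - ε) ^ (s + 1) * (2 * Real.exp 1 ^ 2 * s) ≤ 1 := by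
        have h5 : (s : ℝ) ^ 3 * (1 - ε) ^ (s + 1) ≤ 1 / 216 :=
          (mul_le_mul_of_nonneg_left hdp (by positivity)).trans h216.le
        have h6 : 4 * L * (1 - ε) ^ (s + 1) * (2 * Real.exp 1 ^ 2 * s) =
            8 * Real.exp 1 ^ 2 * (L * s) * (1 - ε) ^ (s + 1) := by ring
        rw [h6]
        have h7 : 8 * Real.exp 1 ^ 2 * (L * s) ≤ 72 * (3 * (s : ℝ) ^ 3) := by
          have : 0 ≤ L * s := by positivity
          nlinarith
        calc 8 * Real.exp 1 ^ 2 * (L * s) * (1 - ε) ^ (s + 1)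
            ≤ 72 * (3 * (s : ℝ) ^ 3) * (1 - ε) ^ (s + 1) :=
              mul_le_mul_of_nonneg_right h7 hdp0.le
          _ = 216 * ((s : ℝ) ^ 3 * (1 - ε) ^ (s + 1)) := by ring
          _ ≤ 1 := by linarith
      have hLpos : 0 < L := by positivity
      have h8 : 2 * L * ((⌈x ^ (s + 1)⌉₊ : ℕ) : ℝ) ≤ Q := by
        calc 2 * L * ((⌈x ^ (s + 1)⌉₊ : ℕ) : ℝ) ≤ 2 * L * (2 * x ^ (s + 1)) :=
              mul_le_mul_of_nonneg_left h3 (by positivity)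
          _ = 4 * L * (1 - ε) ^ (s + 1) * E := by
              rw [hxe]
              ring
          _ ≤ 4 * L * (1 - ε) ^ (s + 1) * (2 * Real.exp 1 ^ 2 * s * Q) :=
              mul_le_mul_of_nonneg_left h2 (by positivity)
          _ = 4 * L * (1 - ε) ^ (s + 1) * (2 * Real.exp 1 ^ 2 * s) * Q := by ring
          _ ≤ 1 * Q := mul_le_mul_of_nonneg_right hkey hQ0
          _ = Q := one_mul Q
      have h9 : ((2 * (s ^ 2 + s + 1) * ⌈x ^ (s + 1)⌉₊ : ℕ) : ℝ) ≤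
          ((s ^ 3 * (s * s ^ 3).choose s : ℕ) : ℝ) := by
        push_cast
        exact h8
      exact_mod_cast h9
  · have h2 : (((s * s ^ 3 + s ^ 3 : ℕ) : ℝ) / ((s + 1 : ℕ) : ℝ)) = (s : ℝ) ^ 3 := by
      push_cast
      have : (s : ℝ) + 1 ≠ 0 := by positivity
      field_simp
    rw [h2]
    exact Nat.le_ceil _

end Pool.Agent.Lib.MP_ffcda7_coU
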