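import Pool.Agent.Lib.MP_ffcda7_coU.Defs

set_option autoImplicit false

open Finset

namespace Pool.Agent.Lib.MP_ffcda7_coU

open Pool.Agent.Lib.MP_ffcda7_co (FB HasBasis f g)

private theorem DigR_sum (v b s : ℕ) : ∑ j ∈ range s, b ^ j * (v / b ^ j % b) = v % b ^ s := by
  induction s with
  | zero => simp [Nat.mod_one]
  | succ s ih => rw [sum_range_succ, ih, Nat.mod_pow_succ]

private theorem DigR_one (b d : ℕ) (M : Type) [AddCommMonoid M] (F : ℕ → M) (h0 : F 0 = 0)
    (hd : d < b) :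
    ∑ e : Fin (b - 1), (if d = (e : ℕ) + 1 then F ((e : ℕ) + 1) else 0) = F d := by
  rcases Nat.eq_zero_or_pos d with h | h
  · subst h
    rw [h0]
    exact sum_eq_zero fun e _ => if_neg (by omega)
  · rw [sum_eq_single (⟨d - 1, by omega⟩ : Fin (b - 1))]
    · have h1 : d - 1 + 1 = d := by omega
      simp only [h1]
      rw [if_pos trivial]
    · intro e _ he
      refine if_neg fun h1 => he ?_
      ext
      simp only
      omega
    · intro h1
      exact absurd (mem_univ _) h1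

/-- Proof: digits in base `b`: the elements `e b ^ i`, `1 ≤ e < b`, `i < s`, at most one of them
for each `i`. -/
theorem digits_right (s b n : ℕ) (hn1 : 1 ≤ n) (hb : 1 ≤ b) (hn : n ≤ b ^ s) :
    FB (ZMod n) (s * (b - 1)) s := by
  have : NeZero n := ⟨by omega⟩
  refine ⟨fun i => (((((finProdFinEquiv.symm i).2 : ℕ) + 1 : ℕ) : ZMod n)) *
    (b : ZMod n) ^ ((finProdFinEquiv.symm i).1 : ℕ), fun y => ?_⟩
  have hv : y.val < b ^ s := lt_of_lt_of_le (ZMod.val_lt y) hn
  refine ⟨fun i => if y.val / b ^ ((finProdFinEquiv.symm i).1 : ℕ) % b =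
    ((finProdFinEquiv.symm i).2 : ℕ) + 1 then 1 else 0, ?_, ?_⟩
  · rw [← (finProdFinEquiv (m := s) (n := b - 1)).sum_comp, Fintype.sum_prod_type]
    simp only [Equiv.symm_apply_apply]
    calc ∑ j : Fin s, ∑ e : Fin (b - 1),
          (if y.val / b ^ (j : ℕ) % b = (e : ℕ) + 1 then 1 else 0) ≤ ∑ _j : Fin s, 1 := by
            refine sum_le_sum fun j _ => ?_
            have h1 := DigR_one b (y.val / b ^ (j : ℕ) % b) ℕ (fun t => if t = 0 then 0 else 1)
              (by simp) (Nat.mod_lt _ (by omega))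
            simp only [Nat.succ_ne_zero, if_false] at h1
            rw [h1]
            split_ifs <;> omega
      _ = s := by simp
  · rw [← (finProdFinEquiv (m := s) (n := b - 1)).sum_comp, Fintype.sum_prod_type]
    simp only [Equiv.symm_apply_apply]
    have h2 : ∀ j : Fin s, ∑ e : Fin (b - 1),
        (((if y.val / b ^ (j : ℕ) % b = (e : ℕ) + 1 then 1 else 0 : ℕ) : ℤ) •
          ((((e : ℕ) + 1 : ℕ) : ZMod n) * (b : ZMod n) ^ (j : ℕ))) =
        (((b ^ (j : ℕ) * (y.val / b ^ (j : ℕ) % b) : ℕ)) : ZMod n) := by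
      intro j
      have h1 := DigR_one b (y.val / b ^ (j : ℕ) % b) (ZMod n)
        (fun t => (t : ZMod n) * (b : ZMod n) ^ (j : ℕ)) (by simp) (Nat.mod_lt _ (by omega))
      have h3 : (((b ^ (j : ℕ) * (y.val / b ^ (j : ℕ) % b) : ℕ)) : ZMod n) =
          ((y.val / b ^ (j : ℕ) % b : ℕ) : ZMod n) * (b : ZMod n) ^ (j : ℕ) := by
        rw [Nat.cast_mul, Nat.cast_pow, mul_comm]
      rw [h3, ← h1]
      refine sum_congr rfl fun e _ => ?_
      split_ifs <;> simp
    rw [sum_congr rfl fun j _ => h2 j, ← Nat.cast_sum,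
      Fin.sum_univ_eq_sum_range (fun j => b ^ j * (y.val / b ^ j % b)) s, DigR_sum,
      Nat.mod_eq_of_lt hv, ZMod.natCast_zmod_val]

end Pool.Agent.Lib.MP_ffcda7_coU
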