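import Pool.Agent.Lib.MP_ffcda7_coU.Cnt
import Pool.Agent.Lib.MP_ffcda7_coU.DigR

set_option autoImplicit false

open Finset

namespace Pool.Agent.Lib.MP_ffcda7_coU

open Pool.Agent.Lib.MP_ffcda7_co (FB HasBasis f g)

/-- Proof: pad with zeros. -/
theorem FB_mono_left {G : Type*} [AddCommGroup G] {m m' s : ℕ} (h : FB G m s) (hm : m ≤ m') :
    FB G m' s := by
  obtain ⟨a, ha⟩ := h
  have hinj : Function.Injective (Fin.castLE hm) := Fin.castLE_injective hm
  refine ⟨Function.extend (Fin.castLE hm) a 0, fun y => ?_⟩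
  obtain ⟨c, hc1, hc2⟩ := ha y
  refine ⟨Function.extend (Fin.castLE hm) c 0, ?_, ?_⟩
  · rw [← Fintype.sum_of_injective (Fin.castLE hm) hinj c]
    · exact hc1
    · intro i hi
      rw [Function.extend_apply' _ _ _ (by simpa only [Set.mem_range] using hi)]
      rfl
    · intro i
      rw [hinj.extend_apply]
  · rw [← Fintype.sum_of_injective (Fin.castLE hm) hinj (fun i => (c i : ℤ) • a i)]
    · exact hc2
    · intro i hi
      rw [Function.extend_apply' _ _ _ (by simpa only [Set.mem_range] using hi),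
        Function.extend_apply' _ _ _ (by simpa only [Set.mem_range] using hi)]
      simp
    · intro i
      rw [hinj.extend_apply, hinj.extend_apply]

theorem g_mono {m m' s s' : ℕ} (hm : m ≤ m') (hs : s ≤ s') : g m s ≤ g m' s' := by
  have hne : {N | ∀ n, 1 ≤ n → n ≤ N → HasBasis (ZMod n) m s}.Nonempty :=
    ⟨0, fun n h1 h2 => absurd h2 (by omega)⟩
  have h : ∀ n, 1 ≤ n → n ≤ g m s → HasBasis (ZMod n) m s :=
    Nat.sSup_mem hne (Pool.Agent.Lib.MP_ffcda7_co.g_set_bdd m s)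
  refine Pool.Agent.Lib.MP_ffcda7_co.le_g fun n h1 h2 => ?_
  exact Pool.Agent.Lib.MP_ffcda7_co.HasBasis_of_FB
    ((FB_mono_left (Pool.Agent.Lib.MP_ffcda7_co.FB_of_HasBasis (h n h1 h2)) hm).mono hs)

/-- Proof: digits in base `b`: the elements `b ^ i`, `i < m` (`finFunctionFinEquiv`). -/
theorem digits_left (m b n : ℕ) (hn1 : 1 ≤ n) (hb : 1 ≤ b) (hn : n ≤ b ^ m) :
    FB (ZMod n) m (m * (b - 1)) := by
  have : NeZero n := ⟨by omega⟩
  refine ⟨fun i => (b : ZMod n) ^ (i : ℕ), fun y => ?_⟩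
  have hy : y.val < b ^ m := (ZMod.val_lt y).trans_le hn
  obtain ⟨φ, hφ⟩ : ∃ φ : Fin m → Fin b, ∑ i, (φ i : ℕ) * b ^ (i : ℕ) = y.val := by
    refine ⟨finFunctionFinEquiv.symm (⟨y.val, hy⟩ : Fin (b ^ m)), ?_⟩
    have h1 := finFunctionFinEquiv_apply
      (finFunctionFinEquiv.symm (⟨y.val, hy⟩ : Fin (b ^ m)))
    rw [Equiv.apply_symm_apply] at h1
    exact h1.symm
  refine ⟨fun i => (φ i : ℕ), ?_, ?_⟩
  · refine (Finset.sum_le_card_nsmul _ _ (b - 1) fun i _ => ?_).trans ?_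
    · have := (φ i).2
      exact Nat.le_sub_one_of_lt this
    · simp
  · have h2 : ((y.val : ℕ) : ZMod n) = y := ZMod.natCast_zmod_val y
    refine Eq.trans ?_ ((congrArg (Nat.cast : ℕ → ZMod n) hφ).trans h2)
    push_cast
    refine sum_congr rfl fun i _ => ?_
    simp

/-- The known bound. From `digits_left` with `b = s / m + 1`, as `m (s / m) ≤ s`. -/
theorem pow_le_g (m s : ℕ) (hm : 1 ≤ m) : (s / m + 1) ^ m ≤ g m s := by
  refine Pool.Agent.Lib.MP_ffcda7_co.le_g fun n h1 h2 => ?_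
  have h := digits_left m (s / m + 1) n h1 (Nat.le_add_left 1 _) h2
  rw [Nat.add_sub_cancel] at h
  exact Pool.Agent.Lib.MP_ffcda7_co.HasBasis_of_FB (h.mono (Nat.mul_div_le s m))

/-- From `digits_right` with `b = m / s + 1`. -/
theorem pow_le_g' (m s : ℕ) (hs : 1 ≤ s) : (m / s + 1) ^ s ≤ g m s := by
  refine Pool.Agent.Lib.MP_ffcda7_co.le_g fun n h1 h2 => ?_
  have h := digits_right s (m / s + 1) n h1 (Nat.le_add_left 1 _) h2
  rw [Nat.add_sub_cancel] at h
  exact Pool.Agent.Lib.MP_ffcda7_co.HasBasis_of_FB (FB_mono_left h (Nat.mul_div_le m s))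

/-- The upper bound: a group with an `s`-basis of `m` elements has at most `|Simp m s|` elements.
(`FB_of_HasBasis`, `f_mem`.) -/
theorem f_le_choose (m s : ℕ) : f m s ≤ (m + s).choose m := by
  classical
  obtain ⟨a, ha⟩ := Pool.Agent.Lib.MP_ffcda7_co.FB_of_HasBasis
    (Pool.Agent.Lib.MP_ffcda7_co.f_mem m s).2
  have hsurj : Function.Surjective
      (fun c : Simp m s => ∑ i, ((c : Fin m → ℕ) i : ℤ) • a i) := by
    intro y
    obtain ⟨c, h1, h2⟩ := ha y
    exact ⟨⟨c, mem_Simp.2 h1⟩, h2⟩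
  have h := Nat.card_le_card_of_surjective _ hsurj
  rw [Nat.card_zmod, Nat.card_eq_fintype_card, Fintype.card_coe, card_Simp] at h
  exact h

end Pool.Agent.Lib.MP_ffcda7_coU
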