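import Pool.Agent.Lib.MP_ffcda7_coU.Blow
import Pool.Agent.Lib.MP_ffcda7_coU.Dist
import Pool.Agent.Lib.MP_ffcda7_coU.Seed
import Pool.Agent.Lib.MP_ffcda7_coU.Triv

set_option autoImplicit false

open Finset Filter Topology

namespace Pool.Agent.Lib.MP_ffcda7_coU

open Pool.Agent.Lib.MP_ffcda7_co (FB HasBasis f g)

private theorem BlockD_aux (ε : ℝ) (h0 : 0 < ε) (h1 : ε < 1) (m1 s0 n D R : ℕ) (hn1 : 1 ≤ n)
    (hD : 1 ≤ D) (hm1p : 1 ≤ m1) (hs0p : 1 ≤ s0)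
    (hB : ∀ t : ℕ, R ≤ t → Nat.Coprime t D →
      FB (ZMod (n * t ^ s0)) (m1 * (t + R + 1)) s0)
    (hn : ((1 - ε / 2) * Real.exp 1 * ((m1 : ℝ) / (s0 : ℝ))) ^ s0 ≤ n) :
    ∃ b0 : ℕ, ∀ b : ℕ, b0 ≤ b →
      ((1 - ε) * Real.exp 1 * b) ^ s0 ≤ f (s0 * b) s0 := by
  refine ⟨max (m1 * (2 * R + D + 2)) ⌈2 * ((R : ℝ) + 1 + D) * (m1 : ℝ) / ε⌉₊,
    fun b hb => ?_⟩
  have hb1 : m1 * (2 * R + D + 2) ≤ b := le_trans (le_max_left _ _) hb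
  have hb2 : 2 * ((R : ℝ) + 1 + D) * (m1 : ℝ) / ε ≤ b := by
    have h2 : ⌈2 * ((R : ℝ) + 1 + D) * (m1 : ℝ) / ε⌉₊ ≤ b := le_trans (le_max_right _ _) hb
    exact (Nat.le_ceil _).trans (by exact_mod_cast h2)
  obtain ⟨Q, hQ1, hQ2, hQ3⟩ : ∃ Q : ℕ, 2 * R + D + 2 ≤ Q ∧ m1 * Q ≤ s0 * b ∧
      s0 * b < m1 * (Q + 1) := by
    refine ⟨s0 * b / m1, ?_, Nat.mul_div_le _ _, Nat.lt_mul_div_succ _ (by omega)⟩
    rw [Nat.le_div_iff_mul_le (by omega)]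
    calc (2 * R + D + 2) * m1 = m1 * (2 * R + D + 2) := Nat.mul_comm _ _
      _ ≤ b := hb1
      _ = 1 * b := (Nat.one_mul b).symm
      _ ≤ s0 * b := Nat.mul_le_mul_right _ hs0p
  obtain ⟨t, ht1, ht2, ht3⟩ : ∃ t : ℕ, Nat.Coprime t D ∧ t + R + 1 ≤ Q ∧ Q ≤ t + R + D := by
    refine ⟨D * ((Q - (R + 1) - 1) / D) + 1, ?_, ?_, ?_⟩
    · rw [Nat.coprime_comm, Nat.coprime_mul_left_add_right]
      exact Nat.coprime_one_right D
    · have := Nat.mul_div_le (Q - (R + 1) - 1) D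
      omega
    · have h2 := Nat.lt_mul_div_succ (Q - (R + 1) - 1) (show 0 < D by omega)
      rw [mul_add, mul_one] at h2
      omega
  have htp : 1 ≤ t := by omega
  have hFB := hB t (by omega) ht1
  have hf : n * t ^ s0 ≤ f (s0 * b) s0 := by
    refine Pool.Agent.Lib.MP_ffcda7_co.le_f (Nat.mul_pos hn1 (Nat.one_le_pow _ _ htp))
      (Pool.Agent.Lib.MP_ffcda7_co.HasBasis_of_FB (FB_mono_left hFB ?_))
    exact (Nat.mul_le_mul_left _ ht2).trans hQ2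
  have hs0r : (1 : ℝ) ≤ s0 := by exact_mod_cast hs0p
  have hm1r : (1 : ℝ) ≤ m1 := by exact_mod_cast hm1p
  have he : 0 < Real.exp 1 := Real.exp_pos 1
  have hr1 : (s0 : ℝ) * b < m1 * (t + (R + 1 + D)) := by
    have h2 : s0 * b < m1 * (t + R + D + 1) :=
      hQ3.trans_le (Nat.mul_le_mul_left _ (by omega))
    have h3 : ((s0 * b : ℕ) : ℝ) < ((m1 * (t + R + D + 1) : ℕ) : ℝ) := by exact_mod_cast h2
    push_cast at h3
    linarith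
  have hr2 : 2 * ((R : ℝ) + 1 + D) * (m1 : ℝ) ≤ ε * b := by
    rw [div_le_iff₀ h0] at hb2
    linarith
  have hb0 : (0 : ℝ) ≤ b := Nat.cast_nonneg b
  have hr3 : (1 - ε / 2) * (s0 * b) ≤ (m1 : ℝ) * t := by
    have h4 : ε * b ≤ ε * (s0 * b) := by
      have h5 : (b : ℝ) ≤ s0 * b := by nlinarith
      exact mul_le_mul_of_nonneg_left h5 h0.le
    nlinarith
  have hr4 : (1 - ε / 2) * b ≤ (m1 : ℝ) / s0 * t := by
    rw [div_mul_eq_mul_div, le_div_iff₀ (by linarith)]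
    linarith
  have hkey : (1 - ε) * Real.exp 1 * b ≤
      (1 - ε / 2) * Real.exp 1 * ((m1 : ℝ) / s0) * t := by
    have h5 : (1 - ε) * b ≤ (1 - ε / 2) * ((m1 : ℝ) / s0 * t) := by
      have h6 : (1 - ε / 2) * ((1 - ε / 2) * b) ≤ (1 - ε / 2) * ((m1 : ℝ) / s0 * t) :=
        mul_le_mul_of_nonneg_left hr4 (by linarith)
      have h7 : 0 ≤ ε * ε * b := by positivity
      nlinarith
    have h8 := mul_le_mul_of_nonneg_left h5 he.le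
    calc (1 - ε) * Real.exp 1 * b = Real.exp 1 * ((1 - ε) * b) := by ring
      _ ≤ _ := h8
      _ = _ := by ring
  have hfin : ((1 - ε) * Real.exp 1 * b) ^ s0 ≤ (n : ℝ) * (t : ℝ) ^ s0 := by
    have h9 : 0 ≤ (1 - ε) * Real.exp 1 * b :=
      mul_nonneg (mul_nonneg (by linarith) he.le) hb0
    calc ((1 - ε) * Real.exp 1 * b) ^ s0
        ≤ ((1 - ε / 2) * Real.exp 1 * ((m1 : ℝ) / s0) * t) ^ s0 := pow_le_pow_left₀ h9 hkey _
      _ = ((1 - ε / 2) * Real.exp 1 * ((m1 : ℝ) / s0)) ^ s0 * (t : ℝ) ^ s0 := mul_pow _ _ _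
      _ ≤ (n : ℝ) * (t : ℝ) ^ s0 := mul_le_mul_of_nonneg_right hn (by positivity)
  refine hfin.trans ?_
  exact_mod_cast hf

/-- The dual of `fixed_block`. Proof: take `s`, `m`, `k`, `L`, `n` from `seed` for `ε / 2` (any
`s ≥ M`), let `s0 = s + 1`, `m1 = m + k`, so `n ≥ ((1 - ε / 2) e m1 / s0) ^ s0`. By `distinct` and
`blowup` there are `D`, `R` with `f (m1 (t + R + 1)) s0 ≥ n t ^ s0` for all `t ≥ R` prime to `D`
(`le_f`). For large `b` let `t` be the largest number `≡ 1` modulo `D` with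
`m1 (t + R + 1) ≤ s0 b`; then `t ≥ s0 b / m1 - R - 2 - D`, and `f (s0 b) s0 ≥ n t ^ s0 ≥
((1 - ε / 2) e (m1 / s0) t) ^ s0 ≥ ((1 - ε) e b) ^ s0` for large `b`. (`f` is monotone in `m`: pad
the basis with zeros, `FB_mono_left`.) -/
theorem fixed_block' (ε : ℝ) (h0 : 0 < ε) (h1 : ε < 1) :
    ∃ s0 : ℕ, 1 ≤ s0 ∧ ∃ b0 : ℕ, ∀ b : ℕ, b0 ≤ b →
      ((1 - ε) * Real.exp 1 * b) ^ s0 ≤ f (s0 * b) s0 := by
  obtain ⟨M, hM⟩ := seed (ε / 2) (by linarith) (by linarith)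
  obtain ⟨m, k, L, n, hk1, hn1, hL1, hL, hk, hn⟩ := hM M le_rfl
  obtain ⟨a, ha⟩ := distinct m k M L n hn1 hL1 hL hk
  obtain ⟨D, R, hD, hB⟩ := blowup (m + k) (M + 1) n hn1 a ha
  exact ⟨M + 1, by omega, BlockD_aux ε h0 h1 (m + k) (M + 1) n D R hn1 hD (by omega) (by omega)
    hB hn⟩

end Pool.Agent.Lib.MP_ffcda7_coU
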