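import Pool.Agent.Lib.MP_ffcda7_coU.Defs

set_option autoImplicit false

open Finset

namespace Pool.Agent.Lib.MP_ffcda7_coU

private theorem seed2_e (s : ℕ) (hs : 1 ≤ s) : (s + 1) ^ s ≤ 3 * s ^ s := by
  have hs0 : (0 : ℝ) < s := by exact_mod_cast hs
  have h1 : (1 + 1 / (s : ℝ)) ^ s ≤ 3 := by
    have h2 : 1 + 1 / (s : ℝ) ≤ Real.exp (1 / s) := by
      have := Real.add_one_le_exp (1 / (s : ℝ))
      linarith
    calc (1 + 1 / (s : ℝ)) ^ s ≤ Real.exp (1 / s) ^ s := pow_le_pow_left₀ (by positivity) h2 s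
      _ = Real.exp 1 := by
        rw [← Real.exp_nat_mul]
        congr 1
        field_simp
      _ ≤ 3 := Real.exp_one_lt_three.le
  have h3 : ((s : ℝ) + 1) ^ s ≤ 3 * (s : ℝ) ^ s := by
    have h4 : ((s : ℝ) + 1) = s * (1 + 1 / (s : ℝ)) := by field_simp
    rw [h4, mul_pow]
    have h5 : (0 : ℝ) ≤ (s : ℝ) ^ s := by positivity
    nlinarith [mul_le_mul_of_nonneg_left h1 h5]
  exact_mod_cast h3

private theorem seed2_b (s q : ℕ) (hq : 1 ≤ q) (h : 2 * s ≤ q) : q ^ s ≤ 2 * (q - 1) ^ s := by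
  have hq0 : (0 : ℝ) < q := by exact_mod_cast hq
  have hq1 : (1 : ℝ) ≤ q := by exact_mod_cast hq
  have h' : 2 * (s : ℝ) ≤ q := by exact_mod_cast h
  have h1 := one_add_mul_le_pow (a := -(1 / (q : ℝ))) (by
    have : 1 / (q : ℝ) ≤ 1 := by
      rw [div_le_one hq0]
      exact hq1
    linarith) s
  have h2 : (1 : ℝ) / 2 ≤ 1 + (s : ℝ) * -(1 / q) := by
    have h3 : (s : ℝ) * (1 / q) ≤ 1 / 2 := by
      rw [mul_one_div, div_le_iff₀ hq0]
      linarith
    linarith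
  have h4 : (1 / 2 : ℝ) ≤ (1 + -(1 / (q : ℝ))) ^ s := h2.trans h1
  have h5 : (q : ℝ) ^ s * (1 + -(1 / (q : ℝ))) ^ s = ((q : ℝ) - 1) ^ s := by
    rw [← mul_pow]
    congr 1
    field_simp
    ring
  have h6 : 0 ≤ (q : ℝ) ^ s := by positivity
  have h7 : (q : ℝ) ^ s ≤ 2 * ((q : ℝ) - 1) ^ s := by
    nlinarith [mul_le_mul_of_nonneg_left h4 h6]
  have h8 : ((q - 1 : ℕ) : ℝ) = (q : ℝ) - 1 := by
    rw [Nat.cast_sub hq]
    push_cast
    ring
  rw [← h8] at h7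
  exact_mod_cast h7

/-- The sharper form of `seed`. Proof: let `q = (s + 1) ^ 6`, `k = q`, `m = s q`,
`P = k binom(m, s)`, `L = 14 (s + 1) log_2 (s + 1)`, `n = P / (2 L)` (floor). As
`P ≤ (m + k) ^ (s + 1) = (s + 1) ^ (7 (s + 1)) ≤ 2 ^ L`, and `2 L ≤ q = k`, `2 L ≤ P`. Further
`binom(m, s) ≥ (s (q - 1)) ^ s / s!`, so
`(m + k) ^ (s + 1) / ((s + 1)! P) ≤ (1 + 1 / s) ^ s (q / (q - 1)) ^ s ≤ 6`, and `P ≤ 4 L n`. -/
theorem seed2 (s : ℕ) (hs : 1 ≤ s) : ∃ m k L n : ℕ, 1 ≤ k ∧ 1 ≤ n ∧ 1 ≤ L ∧ n ≤ 2 ^ L ∧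
    2 * L * n ≤ k * min n (m.choose s) ∧
    (m + k) ^ (s + 1) ≤ 360 * (s + 1) * Nat.log 2 (s + 1) * (s + 1).factorial * n := by
  obtain ⟨t, ht⟩ : ∃ t, t = s + 1 := ⟨_, rfl⟩
  rw [← ht]
  have ht2 : 2 ≤ t := by omega
  obtain ⟨l, hl⟩ : ∃ l, l = Nat.log 2 t := ⟨_, rfl⟩
  rw [← hl]
  have hl1 : 1 ≤ l := by
    rw [hl]
    exact Nat.log_pos (by norm_num) ht2
  have hlt : l + 1 ≤ t := by
    rw [hl]
    exact Nat.log_lt_self 2 (by omega)
  have htl : t ≤ 2 ^ (2 * l) := by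
    have h1 : t < 2 ^ (l + 1) := by
      rw [hl]
      exact Nat.lt_pow_succ_log_self (by norm_num) t
    exact h1.le.trans (Nat.pow_le_pow_right (by norm_num) (by omega))
  obtain ⟨q, hq⟩ : ∃ q, q = t ^ 6 := ⟨_, rfl⟩
  have hq1 : 1 ≤ q := by
    rw [hq]
    exact Nat.one_le_pow _ _ (by omega)
  have hLq : 2 * (14 * t * l) ≤ q := by
    rw [hq]
    obtain ⟨u, hu⟩ : ∃ u, t = u + 2 := ⟨t - 2, by omega⟩
    have h1 : l ≤ u + 1 := by omega
    have h2 : 28 * ((u + 2) * (u + 1)) ≤ (u + 2) ^ 6 := by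
      nlinarith [Nat.zero_le u, Nat.zero_le (u ^ 2), Nat.zero_le (u ^ 3), Nat.zero_le (u ^ 4),
        Nat.zero_le (u ^ 5), Nat.zero_le (u ^ 6)]
    rw [hu]
    calc 2 * (14 * (u + 2) * l) = 28 * ((u + 2) * l) := by ring
      _ ≤ 28 * ((u + 2) * (u + 1)) := by gcongr
      _ ≤ (u + 2) ^ 6 := h2
  have h2s : 2 * s ≤ q := by
    refine le_trans ?_ hLq
    nlinarith [Nat.mul_le_mul_left (14 * t) hl1]
  obtain ⟨P, hP⟩ : ∃ P, P = q * (s * q).choose s := ⟨_, rfl⟩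
  have hch : 1 ≤ (s * q).choose s := Nat.choose_pos (by nlinarith)
  have hqP : q ≤ P := by
    rw [hP]
    exact Nat.le_mul_of_pos_right q hch
  have hmk : s * q + q = t * q := by
    rw [ht]
    ring
  have hPle : P ≤ (t * q) ^ t := by
    have h1 : (s * q).choose s ≤ (t * q) ^ s :=
      (Nat.choose_le_pow (s * q) s).trans (Nat.pow_le_pow_left (by nlinarith) s)
    calc P = q * (s * q).choose s := hP
      _ ≤ (t * q) * (t * q) ^ s := Nat.mul_le_mul (Nat.le_mul_of_pos_left q (by omega)) h1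
      _ = (t * q) ^ t := by
        rw [ht, pow_succ]
        ring
  obtain ⟨L, hL⟩ : ∃ L, L = 14 * t * l := ⟨_, rfl⟩
  rw [← hL] at hLq
  have hL1 : 1 ≤ L := by
    rw [hL]
    have : 1 ≤ t * l := Nat.mul_pos (by omega) hl1
    nlinarith
  have hPL : P ≤ 2 ^ L := by
    refine hPle.trans ?_
    have h1 : t * q = t ^ 7 := by
      rw [hq]
      ring
    rw [h1, ← pow_mul]
    calc t ^ (7 * t) ≤ (2 ^ (2 * l)) ^ (7 * t) := Nat.pow_le_pow_left htl _
      _ = 2 ^ L := by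
        rw [← pow_mul, hL]
        congr 1
        ring
  obtain ⟨n, hn⟩ : ∃ n, n = P / (2 * L) := ⟨_, rfl⟩
  have hn1 : 1 ≤ n := by
    rw [hn, Nat.le_div_iff_mul_le (by omega), one_mul]
    exact hLq.trans hqP
  have h4 : 2 * L * n ≤ P := by
    rw [hn]
    exact Nat.mul_div_le P (2 * L)
  have h5 : P ≤ 4 * L * n := by
    have h6 : P < 2 * L * (n + 1) := by
      rw [hn]
      exact Nat.lt_mul_div_succ P (by omega)
    have h7 : 2 * L * (n + 1) ≤ 4 * L * n := by nlinarith [Nat.mul_le_mul_left (2 * L) hn1]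
    omega
  refine ⟨s * q, q, L, n, hq1, hn1, hL1, ?_, ?_, ?_⟩
  · rw [hn]
    exact (Nat.div_le_self P (2 * L)).trans hPL
  · rw [← Nat.mul_min_mul_left, le_min_iff]
    exact ⟨Nat.mul_le_mul_right n hLq, hP ▸ h4⟩
  · have k1 := seed2_e s hs
    rw [← ht] at k1
    have k2 := seed2_b s q hq1 h2s
    have k3 : (s * (q - 1)) ^ s ≤ s.factorial * (s * q).choose s := by
      have h1 := Nat.pow_sub_le_descFactorial (s * q) s
      rw [Nat.descFactorial_eq_factorial_mul_choose] at h1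
      refine le_trans (Nat.pow_le_pow_left ?_ s) h1
      have h3 : s * (q - 1) = s * q - s := by rw [Nat.mul_sub, mul_one]
      omega
    have k4 : (t * q) ^ s ≤ 6 * (s.factorial * (s * q).choose s) := by
      calc (t * q) ^ s = t ^ s * q ^ s := mul_pow _ _ _
        _ ≤ (3 * s ^ s) * (2 * (q - 1) ^ s) := Nat.mul_le_mul k1 k2
        _ = 6 * (s * (q - 1)) ^ s := by
          rw [mul_pow]
          ring
        _ ≤ _ := Nat.mul_le_mul_left 6 k3
    have k5 : t.factorial = t * s.factorial := by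
      rw [ht, Nat.factorial_succ]
    rw [hmk]
    calc (t * q) ^ t = (t * q) ^ s * (t * q) := by
          rw [ht, pow_succ]
      _ ≤ 6 * (s.factorial * (s * q).choose s) * (t * q) := Nat.mul_le_mul_right _ k4
      _ = 6 * t.factorial * P := by
          rw [k5, hP]
          ring
      _ ≤ 6 * t.factorial * (4 * L * n) := Nat.mul_le_mul_left _ h5
      _ = 336 * t * l * t.factorial * n := by
          rw [hL]
          ring
      _ ≤ 360 * t * l * t.factorial * n := by gcongr; norm_num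

end Pool.Agent.Lib.MP_ffcda7_coU
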