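import Pool.Agent.Lib.MP_ffcda7_coU.Blow
import Pool.Agent.Lib.MP_ffcda7_coU.Dist
import Pool.Agent.Lib.MP_ffcda7_coU.Seed2
import Pool.Agent.Lib.MP_ffcda7_coU.Triv

set_option autoImplicit false

open Finset Filter Topology

namespace Pool.Agent.Lib.MP_ffcda7_coU

open Pool.Agent.Lib.MP_ffcda7_co (FB HasBasis f g)

private theorem BlockE_pow (C t s0 : ℕ) (hs0 : 1 ≤ s0) (hC : 1 ≤ C) (ht : 2 * s0 * C ≤ t) :
    (t + C) ^ s0 ≤ 2 * t ^ s0 := by
  have hy : (0 : ℝ) < (t : ℝ) + C := by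
    have : (1 : ℝ) ≤ C := by exact_mod_cast hC
    have := Nat.cast_nonneg (α := ℝ) t
    linarith
  have h1 : -2 ≤ -((C : ℝ) / (t + C)) := by
    have : (C : ℝ) / (t + C) ≤ 1 := by
      rw [div_le_one hy]
      have := Nat.cast_nonneg (α := ℝ) t
      linarith
    linarith
  have h2 := one_add_mul_le_pow h1 s0
  have h3 : 1 + -((C : ℝ) / (t + C)) = t / (t + C) := by
    field_simp
    ring
  have h4 : (s0 : ℝ) * ((C : ℝ) / (t + C)) ≤ 1 / 2 := by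
    rw [← mul_div_assoc, div_le_iff₀ hy]
    have h5 : ((2 * s0 * C : ℕ) : ℝ) ≤ (t : ℝ) := by exact_mod_cast ht
    push_cast at h5
    have : (0 : ℝ) ≤ C := Nat.cast_nonneg _
    linarith
  rw [h3, div_pow] at h2
  have h5 : (1 : ℝ) / 2 ≤ (t : ℝ) ^ s0 / ((t : ℝ) + C) ^ s0 := by linarith
  rw [le_div_iff₀ (pow_pos hy _)] at h5
  have h6 : (((t + C) ^ s0 : ℕ) : ℝ) ≤ ((2 * t ^ s0 : ℕ) : ℝ) := by
    push_cast
    linarith
  exact_mod_cast h6

/-- As `fixed_block'` (`BlockD.lean`, copy the proof), with `seed2`: let `s0 = s + 1`,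
`m1 = m + k`. By `distinct` and `blowup` there are `D`, `R` with `f (m1 (t + R + 1)) s0 ≥ n t ^ s0`
for all `t ≥ R` prime to `D`. For large `M` let `t ≡ 1` modulo `D` be the largest with
`m1 (t + R + 1) ≤ M`; then `t ≥ M / m1 - R - 2 - D` and `t ^ s0 ≥ (M / m1) ^ s0 / 2`. -/
theorem blockE (s : ℕ) (hs : 1 ≤ s) : ∀ᶠ M : ℕ in atTop,
    M ^ (s + 1) ≤ 720 * (s + 1) * Nat.log 2 (s + 1) * (s + 1).factorial * f M (s + 1) := by
  obtain ⟨m, k, L, n, hk1, hn1, hL1, hL, hk, hn⟩ := seed2 s hs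
  obtain ⟨a, ha⟩ := distinct m k s L n hn1 hL1 hL hk
  obtain ⟨D, R, hD, hB⟩ := blowup (m + k) (s + 1) n hn1 a ha
  generalize hm1 : m + k = m1 at hn hB
  have hm1p : 1 ≤ m1 := by omega
  generalize hK : 360 * (s + 1) * Nat.log 2 (s + 1) * (s + 1).factorial = K at hn
  have hK2 : 720 * (s + 1) * Nat.log 2 (s + 1) * (s + 1).factorial = 2 * K := by
    rw [← hK]; ring
  rw [hK2]
  refine Filter.eventually_atTop.2 ⟨m1 * (2 * R + D + 2 + 2 * (s + 1) * (R + D + 1)), fun M hM => ?_⟩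
  generalize hW : 2 * (s + 1) * (R + D + 1) = W at hM
  obtain ⟨Q, hQ1, hQ2, hQ3⟩ : ∃ Q : ℕ, 2 * R + D + 2 + W ≤ Q ∧ m1 * Q ≤ M ∧
      M < m1 * (Q + 1) := by
    refine ⟨M / m1, ?_, Nat.mul_div_le _ _, Nat.lt_mul_div_succ _ (by omega)⟩
    rw [Nat.le_div_iff_mul_le (by omega)]
    calc (2 * R + D + 2 + W) * m1 = m1 * (2 * R + D + 2 + W) := Nat.mul_comm _ _
      _ ≤ M := hM
  obtain ⟨t, ht1, ht2, ht3⟩ : ∃ t : ℕ, Nat.Coprime t D ∧ t + R + 1 ≤ Q ∧ Q ≤ t + R + D := by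
    refine ⟨D * ((Q - (R + 1) - 1) / D) + 1, ?_, ?_, ?_⟩
    · rw [Nat.coprime_comm, Nat.coprime_mul_left_add_right]
      exact Nat.coprime_one_right D
    · have := Nat.mul_div_le (Q - (R + 1) - 1) D
      omega
    · have h2 := Nat.lt_mul_div_succ (Q - (R + 1) - 1) (show 0 < D by omega)
      rw [mul_add, mul_one] at h2
      omega
  have htp : 1 ≤ t := by omega
  have hFB := hB t (by omega) ht1
  have hf : n * t ^ (s + 1) ≤ f M (s + 1) := by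
    refine Pool.Agent.Lib.MP_ffcda7_co.le_f (Nat.mul_pos hn1 (Nat.one_le_pow _ _ htp))
      (Pool.Agent.Lib.MP_ffcda7_co.HasBasis_of_FB (FB_mono_left hFB ?_))
    exact (Nat.mul_le_mul_left _ ht2).trans hQ2
  have hpow := BlockE_pow (R + D + 1) t (s + 1) (by omega) (by omega) (by rw [hW]; omega)
  calc M ^ (s + 1) ≤ (m1 * (t + (R + D + 1))) ^ (s + 1) := by
        refine Nat.pow_le_pow_left (hQ3.le.trans (Nat.mul_le_mul_left _ ?_)) _
        omega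
    _ = m1 ^ (s + 1) * (t + (R + D + 1)) ^ (s + 1) := mul_pow _ _ _
    _ ≤ (K * n) * (2 * t ^ (s + 1)) := Nat.mul_le_mul hn hpow
    _ = 2 * K * (n * t ^ (s + 1)) := by ring
    _ ≤ 2 * K * f M (s + 1) := Nat.mul_le_mul_left _ hf

end Pool.Agent.Lib.MP_ffcda7_coU
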