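import Pool.Agent.Lib.MP_ffcda7_coU.Gen

set_option autoImplicit false

open Finset

namespace Pool.Agent.Lib.MP_ffcda7_coU

open Pool.Agent.Lib.MP_ffcda7_co (FB HasBasis f g)

/-- Blow-up. Proof: take `D`, `R` from `generic`, `w j` for `t`, natural representatives `a' j` of
`a j` and `w' j` of `w j`. The `m (t + R + 1)` elements are `a' j + N u w' j`, `0 ≤ u ≤ t + R`. For a
residue `x` (natural representative) take `J` for `x` modulo `N`; then `x - ∑_{J} a' j = N y`, and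
`y` modulo `t ^ s` is `∑ u i w (e i)`, where `e` enumerates `J`. The `s` elements
`a' (e i) + N u i w' (e i)` have the sum `x` modulo `N t ^ s`. -/
theorem blowup (m s N : ℕ) (hN : 1 ≤ N) (a : Fin m → ZMod N)
    (ha : ∀ x : ZMod N, ∃ J : Finset (Fin m), J.card = s ∧ ∑ j ∈ J, a j = x) :
    ∃ D R : ℕ, 1 ≤ D ∧ ∀ t : ℕ, R ≤ t → Nat.Coprime t D →
      FB (ZMod (N * t ^ s)) (m * (t + R + 1)) s := by
  classical
  obtain ⟨D, R, hD, hgen⟩ := generic m s
  refine ⟨D, R + 1, hD, fun t ht hcop => ?_⟩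
  obtain ⟨w, hw⟩ := hgen t (by omega) hcop
  have ht1 : 1 ≤ t := by omega
  have hts : 1 ≤ t ^ s := Nat.one_le_pow _ _ ht1
  have hM : 1 ≤ N * t ^ s := Nat.mul_pos hN hts
  have : NeZero N := ⟨by omega⟩
  have : NeZero (t ^ s) := ⟨by omega⟩
  have : NeZero (N * t ^ s) := ⟨by omega⟩
  refine ⟨fun k => (((a (finProdFinEquiv.symm k).1).val +
    N * ((finProdFinEquiv.symm k).2 : ℕ) * (w (finProdFinEquiv.symm k).1).val : ℕ) :
      ZMod (N * t ^ s)), fun y => ?_⟩
  obtain ⟨J, hJ, hJs⟩ := ha ((y.val : ℕ) : ZMod N)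
  set e : Fin s → Fin m := fun i => ((Finset.equivFinOfCardEq hJ).symm i : Fin m) with he
  have hinj : Function.Injective e := by
    intro i i' hii
    exact (Finset.equivFinOfCardEq hJ).symm.injective (Subtype.ext hii)
  have hsum : ∑ i, a (e i) = ((y.val : ℕ) : ZMod N) := by
    rw [← hJs, ← Finset.sum_coe_sort J a]
    exact Equiv.sum_comp (Finset.equivFinOfCardEq hJ).symm (fun j : J => a (j : Fin m))
  -- modulo `N`
  have h1 : (N : ℤ) ∣ (y.val : ℤ) - ∑ i, ((a (e i)).val : ℤ) := by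
    rw [← ZMod.intCast_zmod_eq_zero_iff_dvd]
    push_cast
    have h2 : ∀ i, (((a (e i)).val : ℕ) : ZMod N) = a (e i) := fun i => ZMod.natCast_zmod_val _
    simp only [h2]
    rw [hsum, sub_self]
  obtain ⟨y', hy'⟩ := h1
  obtain ⟨u, hu, hz⟩ := hw e hinj (y' : ZMod (t ^ s))
  -- modulo `t ^ s`
  have h3 : ((t ^ s : ℕ) : ℤ) ∣ y' - ∑ i, (u i : ℤ) * ((w (e i)).val : ℤ) := by
    rw [← ZMod.intCast_zmod_eq_zero_iff_dvd]
    push_cast
    have h2 : ∀ i, (((w (e i)).val : ℕ) : ZMod (t ^ s)) = w (e i) := fun i =>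
      ZMod.natCast_zmod_val _
    simp only [h2]
    rw [hz, sub_self]
  obtain ⟨y'', hy''⟩ := h3
  have hu' : ∀ i, u i < t + (R + 1) + 1 := fun i => by
    have := hu i
    omega
  refine ⟨fun k => ∑ i, if finProdFinEquiv (e i, (⟨u i, hu' i⟩ : Fin (t + (R + 1) + 1))) = k
    then 1 else 0, ?_, ?_⟩
  · rw [sum_comm]
    simp
  · simp only [Nat.cast_sum, Nat.cast_ite, Nat.cast_one, Nat.cast_zero, sum_smul, ite_smul,
      one_smul, zero_smul]
    rw [sum_comm]
    simp only [sum_ite_eq, mem_univ, if_true, Equiv.symm_apply_apply]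
    have h4 : ((∑ i, ((a (e i)).val + N * u i * (w (e i)).val) : ℕ) : ℤ) =
        (y.val : ℤ) - ((N * t ^ s : ℕ) : ℤ) * y'' := by
      push_cast
      rw [sum_add_distrib]
      have h5 : ∑ i, (N : ℤ) * (u i : ℤ) * ((w (e i)).val : ℤ) =
          N * ∑ i, (u i : ℤ) * ((w (e i)).val : ℤ) := by
        rw [mul_sum]
        exact sum_congr rfl fun i _ => by ring
      push_cast at hy''
      rw [h5]
      linear_combination -hy' - (N : ℤ) * hy''
    have h6 : (((∑ i, ((a (e i)).val + N * u i * (w (e i)).val) : ℕ) : ℤ) : ZMod (N * t ^ s)) =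
        y := by
      rw [h4, Int.cast_sub, Int.cast_mul, Int.cast_natCast, Int.cast_natCast,
        ZMod.natCast_self, zero_mul, sub_zero, ZMod.natCast_zmod_val]
    rw [← Nat.cast_sum]
    rw [Int.cast_natCast] at h6
    exact h6

end Pool.Agent.Lib.MP_ffcda7_coU
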