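import Pool.Agent.Lib.MP_ffcda7_coU.Defs

set_option autoImplicit false

open Finset

namespace Pool.Agent.Lib.MP_ffcda7_coU

private theorem Cnt_fiber (m s k : ℕ) (hk : k ≤ s) :
    ((Simp (m + 1) s).filter fun c => c 0 = k).card = (Simp m (s - k)).card := by
  refine Finset.card_nbij' (fun c => Fin.tail c) (fun c => Fin.cons k c) ?_ ?_ ?_ ?_
  · intro c hc
    rw [mem_coe, mem_filter, mem_Simp, Fin.sum_univ_succ] at hc
    rw [mem_coe, mem_Simp]
    have h1 : ∑ i, Fin.tail c i = ∑ i : Fin m, c i.succ := rfl
    rw [h1]
    omega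
  · intro c hc
    rw [mem_coe, mem_Simp] at hc
    rw [mem_coe, mem_filter, mem_Simp, Fin.sum_univ_succ]
    simp only [Fin.cons_zero, Fin.cons_succ]
    exact ⟨by omega, trivial⟩
  · intro c hc
    rw [mem_coe, mem_filter] at hc
    simp only
    rw [← hc.2]
    exact Fin.cons_self_tail c
  · intro c _
    funext i
    simp only [Fin.tail, Fin.cons_succ]

/-- The number of `c ∈ ℕ ^ m` with `∑ c i ≤ s`. -/
theorem card_Simp (m s : ℕ) : (Simp m s).card = (m + s).choose m := by
  induction m generalizing s with
  | zero =>
    have h : Simp 0 s = univ := by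
      ext c
      rw [mem_Simp, Fin.sum_univ_zero]
      exact ⟨fun _ => mem_univ _, fun _ => Nat.zero_le _⟩
    rw [h, Nat.choose_zero_right]
    simp
  | succ m ih =>
    rw [Finset.card_eq_sum_card_fiberwise (f := fun c => c 0) (t := range (s + 1))]
    · rw [Finset.sum_congr rfl (g := fun k => (m + (s - k)).choose m)]
      · rw [Finset.sum_flip (fun k => (m + k).choose m)]
        have h1 := Nat.sum_range_add_choose s m
        have h2 : ∀ k, (m + k).choose m = (k + m).choose m := fun k => by rw [add_comm]
        simp only [h2]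
        rw [h1]
        congr 1
        omega
      · intro k hk
        rw [mem_range] at hk
        rw [Cnt_fiber m s k (by omega), ih]
    · intro c hc
      rw [mem_coe, mem_Simp, Fin.sum_univ_succ] at hc
      rw [mem_coe, mem_range]
      show c 0 < s + 1
      omega

/-- The number of the vectors with given residues modulo `d`: dividing all the entries by `d` is
injective on them and lands in `Simp m (s / d)`. -/
theorem card_Simp_mod (m s d : ℕ) (hd : 1 ≤ d) (c : Fin m → ℕ) :
    ((Simp m s).filter fun c' => ∀ i, c' i % d = c i % d).card ≤ (m + s / d).choose m := by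
  rw [← card_Simp]
  apply Finset.card_le_card_of_injOn (fun c' i => c' i / d)
  · intro c' hc'
    rw [mem_coe, mem_filter, mem_Simp] at hc'
    rw [mem_coe, mem_Simp, Nat.le_div_iff_mul_le (by omega), Finset.sum_mul]
    exact (Finset.sum_le_sum fun i _ => Nat.div_mul_le_self (c' i) d).trans hc'.1
  · intro c₁ h₁ c₂ h₂ h
    rw [mem_coe, mem_filter] at h₁ h₂
    funext i
    have e1 := congrFun h i
    simp only at e1
    have e2 := h₁.2 i
    have e3 := h₂.2 i
    rw [← Nat.div_add_mod (c₁ i) d, ← Nat.div_add_mod (c₂ i) d, e1, e2, e3]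

end Pool.Agent.Lib.MP_ffcda7_coU
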