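import Pool.Agent.Lib.MP_ffcda7_coU.Defs

set_option autoImplicit false

open Finset

namespace Pool.Agent.Lib.MP_ffcda7_coU

private theorem cntB_three (n : ℕ) : (3 + n).choose 3 * 6 = (n + 1) * (n + 2) * (n + 3) := by
  have e : 3 + n = n + 2 + 1 := by omega
  have h1 := Nat.add_one_mul_choose_eq (n + 2) 2
  have h2 := Nat.add_one_mul_choose_eq (n + 1) 1
  have h3 : (n + 1).choose 1 = n + 1 := Nat.choose_one_right _
  rw [h3] at h2
  have h2' : (n + 2) * (n + 1) = (n + 2).choose 2 * 2 := h2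
  have h1' : (n + 3) * (n + 2).choose 2 = (n + 3).choose 3 * 3 := h1
  rw [e]
  show (n + 3).choose 3 * 6 = _
  calc (n + 3).choose 3 * 6 = ((n + 3).choose 3 * 3) * 2 := by ring
    _ = ((n + 3) * (n + 2).choose 2) * 2 := by rw [h1']
    _ = (n + 3) * ((n + 2).choose 2 * 2) := by ring
    _ = (n + 3) * ((n + 2) * (n + 1)) := by rw [← h2']
    _ = (n + 1) * (n + 2) * (n + 3) := by ring

/-- `(d + 1) (d + 2) (d + 3) binom(m + s / d, m) ≤ 24 binom(m + s, m)`. Proof: let `t = s / d ≥ 1`,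
`t d ≤ s`. For `m = 3` use `(t + i) (d + i) ≤ (1 + i) (t d + i)`, `i = 1, 2, 3`, as the difference
is `i (t - 1) (d - 1)`; induction on `m` by `(m + 1) binom(m + 1 + t, m + 1) =
(m + 1 + t) binom(m + t, m)`. -/
theorem choose_div_le (m s d : ℕ) (hm : 3 ≤ m) (hd : 1 ≤ d) (hds : d ≤ s) :
    (d + 1) * (d + 2) * (d + 3) * (m + s / d).choose m ≤ 24 * (m + s).choose m := by
  obtain ⟨t, ht⟩ : ∃ t, t = s / d := ⟨_, rfl⟩
  rw [← ht]
  have ht1 : 1 ≤ t := by
    rw [ht]
    exact Nat.div_pos hds (by omega)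
  have htd : t * d ≤ s := by
    rw [ht]
    exact Nat.div_mul_le_self s d
  have hts : t ≤ s := le_trans (Nat.le_mul_of_pos_right t (by omega)) htd
  clear ht
  induction m, hm using Nat.le_induction with
  | base =>
    obtain ⟨t', rfl⟩ : ∃ t', t = t' + 1 := ⟨t - 1, by omega⟩
    obtain ⟨d', rfl⟩ : ∃ d', d = d' + 1 := ⟨d - 1, by omega⟩
    have e1 : (t' + 1) * (d' + 1) = t' * d' + t' + d' + 1 := by ring
    rw [e1] at htd
    have a1 : (t' + 1 + 1) * (d' + 1 + 1) ≤ 2 * (s + 1) := by nlinarith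
    have a2 : (t' + 1 + 2) * (d' + 1 + 2) ≤ 3 * (s + 2) := by nlinarith
    have a3 : (t' + 1 + 3) * (d' + 1 + 3) ≤ 4 * (s + 3) := by nlinarith
    have h := Nat.mul_le_mul (Nat.mul_le_mul a1 a2) a3
    have c1 := cntB_three (t' + 1)
    have c2 := cntB_three s
    have h2 : ((d' + 1 + 1) * (d' + 1 + 2) * (d' + 1 + 3) * (3 + (t' + 1)).choose 3) * 6 ≤
        (24 * (3 + s).choose 3) * 6 := by
      calc ((d' + 1 + 1) * (d' + 1 + 2) * (d' + 1 + 3) * (3 + (t' + 1)).choose 3) * 6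
          = (d' + 1 + 1) * (d' + 1 + 2) * (d' + 1 + 3) * ((3 + (t' + 1)).choose 3 * 6) := by ring
        _ = (d' + 1 + 1) * (d' + 1 + 2) * (d' + 1 + 3) *
              ((t' + 1 + 1) * (t' + 1 + 2) * (t' + 1 + 3)) := by rw [c1]
        _ = (t' + 1 + 1) * (d' + 1 + 1) * ((t' + 1 + 2) * (d' + 1 + 2)) *
              ((t' + 1 + 3) * (d' + 1 + 3)) := by ring
        _ ≤ 2 * (s + 1) * (3 * (s + 2)) * (4 * (s + 3)) := h
        _ = 24 * ((s + 1) * (s + 2) * (s + 3)) := by ring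
        _ = 24 * ((3 + s).choose 3 * 6) := by rw [c2]
        _ = (24 * (3 + s).choose 3) * 6 := by ring
    exact Nat.le_of_mul_le_mul_right h2 (by norm_num)
  | succ m hm ih =>
    have f1 : ∀ n : ℕ, (m + 1 + n) * (m + n).choose m = (m + 1 + n).choose (m + 1) * (m + 1) := by
      intro n
      have := Nat.add_one_mul_choose_eq (m + n) m
      have e : m + n + 1 = m + 1 + n := by omega
      rw [e] at this
      exact this
    have h2 : ((d + 1) * (d + 2) * (d + 3) * (m + 1 + t).choose (m + 1)) * (m + 1) ≤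
        (24 * (m + 1 + s).choose (m + 1)) * (m + 1) := by
      calc ((d + 1) * (d + 2) * (d + 3) * (m + 1 + t).choose (m + 1)) * (m + 1)
          = (d + 1) * (d + 2) * (d + 3) * ((m + 1 + t).choose (m + 1) * (m + 1)) := by ring
        _ = (d + 1) * (d + 2) * (d + 3) * ((m + 1 + t) * (m + t).choose m) := by rw [f1]
        _ = (m + 1 + t) * ((d + 1) * (d + 2) * (d + 3) * (m + t).choose m) := by ring
        _ ≤ (m + 1 + s) * (24 * (m + s).choose m) := Nat.mul_le_mul (by omega) ih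
        _ = 24 * ((m + 1 + s) * (m + s).choose m) := by ring
        _ = 24 * ((m + 1 + s).choose (m + 1) * (m + 1)) := by rw [f1]
        _ = (24 * (m + 1 + s).choose (m + 1)) * (m + 1) := by ring
    exact Nat.le_of_mul_le_mul_right h2 (by omega)

/-- Proof: by `choose_div_le` a summand is at most `24 binom(m + s, m) / ((d + 2) (d + 3))` and
`∑ 1 / ((d + 2) (d + 3)) = 1 / 4 - 1 / (s + 3)` (`s ≥ 1`). -/
theorem sum_choose_le (m s : ℕ) (hm : 3 ≤ m) :
    ∑ d ∈ Icc 2 s, d * (m + s / d).choose m ≤ 6 * (m + s).choose m := by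
  obtain ⟨W, hW⟩ : ∃ W : ℕ, W = (m + s).choose m := ⟨_, rfl⟩
  have key : ∀ n : ℕ, 1 ≤ n → n ≤ s →
      (∑ d ∈ Icc 2 n, ((d * (m + s / d).choose m : ℕ) : ℚ)) ≤
        24 * (W : ℚ) * (1 / 4 - 1 / ((n : ℚ) + 3)) := by
    intro n hn
    induction n, hn using Nat.le_induction with
    | base =>
      intro _
      rw [Icc_eq_empty (by norm_num)]
      norm_num
    | succ n hn ih =>
      intro hns
      rw [Finset.sum_Icc_succ_top (by omega)]
      have h1 := ih (by omega)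
      have h2 := choose_div_le m s (n + 1) hm (by omega) hns
      rw [← hW] at h2
      obtain ⟨Z, hZ⟩ : ∃ Z : ℕ, Z = (m + s / (n + 1)).choose m := ⟨_, rfl⟩
      rw [← hZ] at h2 ⊢
      have h3 : (((n + 1 : ℕ) : ℚ) * Z) * (((n : ℚ) + 3) * ((n : ℚ) + 4)) ≤ 24 * (W : ℚ) := by
        have h4 : ((n + 1) * Z) * ((n + 3) * (n + 4)) ≤ 24 * W := by
          refine le_trans ?_ h2
          have : (n + 1 + 1) * (n + 1 + 2) * (n + 1 + 3) * Z =
              ((n + 1) * Z) * ((n + 3) * (n + 4)) + Z * ((n + 3) * (n + 4)) := by ring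
          omega
        exact_mod_cast h4
      have hp : (0 : ℚ) < ((n : ℚ) + 3) * ((n : ℚ) + 4) := by positivity
      have h5 : ((n + 1 : ℕ) : ℚ) * Z ≤ 24 * (W : ℚ) / (((n : ℚ) + 3) * ((n : ℚ) + 4)) := by
        rw [le_div_iff₀ hp]
        exact h3
      have h6 : 24 * (W : ℚ) / (((n : ℚ) + 3) * ((n : ℚ) + 4)) =
          24 * (W : ℚ) * (1 / 4 - 1 / (((n + 1 : ℕ) : ℚ) + 3)) -
            24 * (W : ℚ) * (1 / 4 - 1 / ((n : ℚ) + 3)) := by
        have hp1 : ((n : ℚ) + 3) ≠ 0 := by positivity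
        have hp2 : ((n : ℚ) + 4) ≠ 0 := by positivity
        have hp3 : ((n : ℚ) + 1 + 3) ≠ 0 := by positivity
        push_cast
        field_simp
        ring
      push_cast at h1 h5 h6 ⊢
      linarith
  rcases Nat.eq_zero_or_pos s with h0 | h0
  · subst h0
    simp
  · have h1 := key s h0 le_rfl
    have hp : (0 : ℚ) < (s : ℚ) + 3 := by positivity
    have h2 : 24 * (W : ℚ) * (1 / 4 - 1 / ((s : ℚ) + 3)) ≤ 6 * W := by
      have h3 : (0 : ℚ) ≤ 1 / ((s : ℚ) + 3) := by positivity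
      have h4 : (0 : ℚ) ≤ W := by positivity
      nlinarith [mul_nonneg h4 h3]
    have h5 := h1.trans h2
    rw [← hW]
    exact_mod_cast h5

end Pool.Agent.Lib.MP_ffcda7_coU
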