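import Pool.Agent.Lib.MP_ffcda7_coU.Defs

set_option autoImplicit false

open Finset

namespace Pool.Agent.Lib.MP_ffcda7_coU

private theorem dbl_sum {G : Type*} [AddCommGroup G] [Fintype G] [DecidableEq G] (U : Finset G) :
    ∑ c : G, (U.filter fun x => x - c ∈ U).card = U.card ^ 2 := by
  have h1 : ∀ c : G, (U.filter fun x => x - c ∈ U).card = ∑ x ∈ U, if x - c ∈ U then 1 else 0 :=
    fun c => Finset.card_filter _ _
  simp only [h1]
  rw [Finset.sum_comm]
  have h2 : ∀ x ∈ U, (∑ c : G, if x - c ∈ U then 1 else 0) = U.card := by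
    intro x _
    rw [← Finset.card_filter]
    have h3 : (univ.filter fun c : G => x - c ∈ U) = U.map (Equiv.subLeft x).toEmbedding := by
      ext c
      simp only [mem_filter, mem_univ, true_and, mem_map_equiv, Equiv.subLeft_symm_apply]
      have h4 : -c + x = x - c := by abel
      rw [h4]
    rw [h3, Finset.card_map]
  rw [Finset.sum_congr rfl h2, Finset.sum_const, smul_eq_mul, sq]

/-- One translate squares the density of the complement. Proof: the sum over `c` of
`|U ∩ (U + c)|` is `|U| ^ 2`, where `U` is the complement of `S`. -/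
theorem dbl_one {G : Type*} [AddCommGroup G] [Fintype G] [DecidableEq G] (U : Finset G) :
    ∃ c : G, Fintype.card G * (U.filter fun x => x - c ∈ U).card ≤ U.card ^ 2 := by
  have h1 : ∑ c : G, Fintype.card G * (U.filter fun x => x - c ∈ U).card ≤
      ∑ _c : G, U.card ^ 2 := by
    rw [← Finset.mul_sum, dbl_sum, Finset.sum_const, smul_eq_mul, Finset.card_univ]
  obtain ⟨c, -, hc⟩ := Finset.exists_le_of_sum_le (Finset.univ_nonempty (α := G)) h1
  exact ⟨c, hc⟩

/-- Proof: induction on `j` with `dbl_one`: the elements `x` which are in no translate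
`S + ∑_{t ∈ T} c t`. -/
theorem dbl {G : Type*} [AddCommGroup G] [Fintype G] [DecidableEq G] (U : Finset G) (j : ℕ) :
    ∃ c : Fin j → G, Fintype.card G ^ (2 ^ j - 1) *
      (univ.filter fun x : G => ∀ T : Finset (Fin j), x - ∑ t ∈ T, c t ∈ U).card ≤
        U.card ^ (2 ^ j) := by
  induction j with
  | zero =>
    refine ⟨fun i => i.elim0, ?_⟩
    rw [pow_zero, pow_one, Nat.sub_self, pow_zero, one_mul]
    refine Finset.card_le_card fun x hx => ?_
    have h := (Finset.mem_filter.1 hx).2 ∅
    rwa [Finset.sum_empty, sub_zero] at h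
  | succ j ih =>
    obtain ⟨c, hc⟩ := ih
    obtain ⟨V, hV⟩ : ∃ V : Finset G,
        V = univ.filter fun x : G => ∀ T : Finset (Fin j), x - ∑ t ∈ T, c t ∈ U := ⟨_, rfl⟩
    rw [← hV] at hc
    obtain ⟨d, hd⟩ := dbl_one V
    refine ⟨Fin.cons d c, ?_⟩
    have hsub : (univ.filter fun x : G => ∀ T : Finset (Fin (j + 1)),
        x - ∑ t ∈ T, (Fin.cons d c : Fin (j + 1) → G) t ∈ U) ⊆ V.filter fun x => x - d ∈ V := by
      intro x hx
      have h := (Finset.mem_filter.1 hx).2
      rw [Finset.mem_filter, hV, Finset.mem_filter, Finset.mem_filter]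
      refine ⟨⟨mem_univ _, fun T => ?_⟩, mem_univ _, fun T => ?_⟩
      · have h1 := h (T.map (Fin.succEmb j))
        rw [Finset.sum_map] at h1
        simpa using h1
      · have h1 := h (insert 0 (T.map (Fin.succEmb j)))
        rw [Finset.sum_insert (by simp), Finset.sum_map] at h1
        have h2 : x - d - ∑ t ∈ T, c t = x - (d + ∑ t ∈ T, c t) := by abel
        rw [h2]
        simpa using h1
    have hle := Finset.card_le_card hsub
    have hpos : 1 ≤ 2 ^ j := Nat.one_le_two_pow
    have he : 2 ^ (j + 1) - 1 = (2 ^ j - 1) + (2 ^ j - 1) + 1 := by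
      rw [pow_succ]
      omega
    calc Fintype.card G ^ (2 ^ (j + 1) - 1) *
          (univ.filter fun x : G => ∀ T : Finset (Fin (j + 1)),
            x - ∑ t ∈ T, (Fin.cons d c : Fin (j + 1) → G) t ∈ U).card
        ≤ Fintype.card G ^ (2 ^ (j + 1) - 1) * (V.filter fun x => x - d ∈ V).card :=
          Nat.mul_le_mul_left _ hle
      _ = Fintype.card G ^ (2 ^ j - 1) * Fintype.card G ^ (2 ^ j - 1) *
          (Fintype.card G * (V.filter fun x => x - d ∈ V).card) := by
          rw [he, pow_succ, pow_add]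
          ring
      _ ≤ Fintype.card G ^ (2 ^ j - 1) * Fintype.card G ^ (2 ^ j - 1) * V.card ^ 2 :=
          Nat.mul_le_mul_left _ hd
      _ = (Fintype.card G ^ (2 ^ j - 1) * V.card) ^ 2 := by ring
      _ ≤ (U.card ^ (2 ^ j)) ^ 2 := Nat.pow_le_pow_left hc 2
      _ = U.card ^ (2 ^ (j + 1)) := by rw [← pow_mul, pow_succ]

end Pool.Agent.Lib.MP_ffcda7_coU
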