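import Pool.Agent.Lib.MP_ffcda7_co.Limit

/-!
# Bases of cyclic groups and binomial coefficients: definitions
-/

set_option autoImplicit false

open Finset

namespace Pool.Agent.Lib.MP_ffcda7_coU

/-- The coefficient vectors `c ∈ ℕ ^ m` with `∑ c i ≤ s`. -/
def Simp (m s : ℕ) : Finset (Fin m → ℕ) :=
  (Fintype.piFinset fun _ : Fin m => range (s + 1)).filter fun c => ∑ i, c i ≤ s

theorem mem_Simp {m s : ℕ} {c : Fin m → ℕ} : c ∈ Simp m s ↔ ∑ i, c i ≤ s := by
  unfold Simp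
  rw [mem_filter, Fintype.mem_piFinset]
  refine ⟨fun h => h.2, fun h => ⟨fun i => ?_, h⟩⟩
  rw [mem_range]
  have : c i ≤ ∑ i, c i := single_le_sum (f := c) (fun i _ => Nat.zero_le _) (mem_univ i)
  omega

end Pool.Agent.Lib.MP_ffcda7_coU
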