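import Pool.Agent.Lib.MP_ffcda7_coU.Defs

set_option autoImplicit false

open Finset

namespace Pool.Agent.Lib.MP_ffcda7_coU

private theorem greedy_count {G : Type*} [AddCommGroup G] [Fintype G] [DecidableEq G]
    (S : Finset G) (x : G) :
    (univ.filter fun b : G => x - b ∉ S).card = Fintype.card G - S.card := by
  rw [← Finset.card_compl]
  refine Finset.card_equiv (Equiv.subLeft x) fun b => ?_
  rw [mem_filter, mem_compl, Equiv.subLeft_apply]
  exact and_iff_right (mem_univ b)

private theorem greedy_step {G : Type*} [AddCommGroup G] [Fintype G] [DecidableEq G]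
    (S U : Finset G) : ∃ b : G, Fintype.card G * (U.filter fun x => x - b ∉ S).card ≤
      U.card * (Fintype.card G - S.card) := by
  have h1 : ∑ b : G, (U.filter fun x => x - b ∉ S).card =
      U.card * (Fintype.card G - S.card) := by
    have h2 : ∀ b : G, (U.filter fun x => x - b ∉ S).card =
        ∑ x ∈ U, if x - b ∉ S then 1 else 0 := fun b => by rw [card_filter]
    rw [sum_congr rfl fun b _ => h2 b, sum_comm]
    have h3 : ∀ x ∈ U, (∑ b : G, if x - b ∉ S then 1 else 0) = Fintype.card G - S.card := by
      intro x _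
      rw [← card_filter, greedy_count]
    rw [sum_congr rfl h3, sum_const, smul_eq_mul]
  obtain ⟨b, -, hb⟩ := Finset.exists_le_of_sum_le (s := (univ : Finset G))
    (f := fun b => Fintype.card G * (U.filter fun x => x - b ∉ S).card)
    (g := fun _ => U.card * (Fintype.card G - S.card)) ⟨0, mem_univ 0⟩ (by
      rw [← mul_sum, h1, sum_const, smul_eq_mul, card_univ])
  exact ⟨b, hb⟩

/-- Greedy covering by `k` translates. Proof: induction on `k`; if `U` is the set of the elements
not covered yet, the sum over `b` of the number of the `x` in `U` with `x - b` outside `S` is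
`|U| (|G| - |S|)`, so some `b` has `|G| |U'| ≤ |U| (|G| - |S|)`. -/
theorem greedy {G : Type*} [AddCommGroup G] [Fintype G] [DecidableEq G] (S : Finset G) (k : ℕ) :
    ∃ b : Fin k → G, Fintype.card G ^ k *
      (univ.filter fun x : G => ∀ i, x - b i ∉ S).card ≤
        Fintype.card G * (Fintype.card G - S.card) ^ k := by
  induction k with
  | zero =>
    refine ⟨fun i => i.elim0, ?_⟩
    rw [pow_zero, pow_zero, one_mul, mul_one]
    exact card_le_univ _
  | succ k ih =>
    obtain ⟨b, hb⟩ := ih
    obtain ⟨c, hc⟩ := greedy_step S (univ.filter fun x : G => ∀ i, x - b i ∉ S)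
    refine ⟨Fin.snoc b c, ?_⟩
    have h1 : (univ.filter fun x : G => ∀ i : Fin (k + 1), x - (Fin.snoc b c : Fin (k + 1) → G) i ∉ S) =
        (univ.filter fun x : G => ∀ i, x - b i ∉ S).filter fun x => x - c ∉ S := by
      ext x
      rw [mem_filter, mem_filter, mem_filter, Fin.forall_fin_succ']
      simp only [Fin.snoc_castSucc, Fin.snoc_last, mem_univ, true_and]
    rw [h1, pow_succ, pow_succ, mul_assoc, ← mul_assoc (Fintype.card G) _ (Fintype.card G - S.card)]
    refine (Nat.mul_le_mul_left _ hc).trans ?_
    rw [← mul_assoc]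
    exact Nat.mul_le_mul_right _ hb

end Pool.Agent.Lib.MP_ffcda7_coU
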