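import Pool.Agent.Lib.MP_ffcda7_coU.LargeB
import Pool.Agent.Lib.MP_ffcda7_coU.Greedy

set_option autoImplicit false

open Finset

namespace Pool.Agent.Lib.MP_ffcda7_coU

open Pool.Agent.Lib.MP_ffcda7_co (FB HasBasis f g)

private lemma FBG_num (n t k L : ℕ) (hn : 2 ≤ n) (htn : t ≤ n) (hL : n ≤ 2 ^ L)
    (hk : L * n ≤ k * t) : n * (n - t) ^ k < n ^ k := by
  have hn0 : (0 : ℝ) < n := by exact_mod_cast (show 0 < n by omega)
  have hL1 : 1 ≤ L := by
    by_contra h
    have : L = 0 := by omega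
    subst this
    simp at hL
    omega
  have h1 : ((n - t : ℕ) : ℝ) = n * (1 - (t : ℝ) / n) := by
    rw [Nat.cast_sub htn]
    field_simp
  have h2 : (1 - (t : ℝ) / n) ≤ Real.exp (-((t : ℝ) / n)) := by
    have := Real.add_one_le_exp (-((t : ℝ) / n))
    linarith
  have h0 : 0 ≤ 1 - (t : ℝ) / n := by
    rw [sub_nonneg, div_le_one hn0]
    exact_mod_cast htn
  have h3 : (1 - (t : ℝ) / n) ^ k ≤ Real.exp (-(L : ℝ)) := by
    calc (1 - (t : ℝ) / n) ^ k ≤ Real.exp (-((t : ℝ) / n)) ^ k := pow_le_pow_left₀ h0 h2 k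
      _ = Real.exp (-((k : ℝ) * t / n)) := by
          rw [← Real.exp_nat_mul]
          congr 1
          ring
      _ ≤ Real.exp (-(L : ℝ)) := by
          apply Real.exp_le_exp.2
          apply neg_le_neg
          rw [le_div_iff₀ hn0]
          exact_mod_cast hk
  have h4 : (n : ℝ) * Real.exp (-(L : ℝ)) < 1 := by
    have h5 : (2 : ℝ) < Real.exp 1 := by
      have := Real.exp_one_gt_d9
      linarith
    have h6 : (2 : ℝ) ^ L < Real.exp L := by
      have := pow_lt_pow_left₀ h5 (by norm_num) (by omega : L ≠ 0)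
      rwa [← Real.exp_nat_mul, mul_one] at this
    have h7 : (n : ℝ) < Real.exp L := lt_of_le_of_lt (by exact_mod_cast hL) h6
    rw [Real.exp_neg]
    have h8 : 0 < Real.exp (L : ℝ) := Real.exp_pos _
    rw [← div_eq_mul_inv, div_lt_one h8]
    exact h7
  have h5 : ((n * (n - t) ^ k : ℕ) : ℝ) < ((n ^ k : ℕ) : ℝ) := by
    push_cast [h1]
    rw [mul_pow]
    have h9 : (0 : ℝ) < (n : ℝ) ^ k := pow_pos hn0 k
    calc (n : ℝ) * ((n : ℝ) ^ k * (1 - (t : ℝ) / n) ^ k)
        = (n : ℝ) ^ k * ((n : ℝ) * (1 - (t : ℝ) / n) ^ k) := by ring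
      _ ≤ (n : ℝ) ^ k * ((n : ℝ) * Real.exp (-(L : ℝ))) := by gcongr
      _ < (n : ℝ) ^ k * 1 := by
          exact mul_lt_mul_of_pos_left h4 h9
      _ = (n : ℝ) ^ k := mul_one _
  exact_mod_cast h5

/-- Proof: `n = 1` is trivial (so let `L ≥ 1`). Take `a` from `exists_large_min`, `S` the set of its
values, `8 |S| ≥ min n N`, so `k |S| ≥ L n`; take `b` from `greedy`. If some `x` is not covered then
`n ^ k ≤ n (n - |S|) ^ k`, but `(1 - |S| / n) ^ k ≤ exp (- k |S| / n) ≤ exp (- L) < 2 ^ (- L)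
≤ 1 / n`. So every `x` is `b i + ∑ c j a j` with `∑ c j ≤ s`. -/
theorem FB_greedy (m s k L n : ℕ) (hn1 : 1 ≤ n) (hm : 3 ≤ m) (hL : n ≤ 2 ^ L)
    (hk : 8 * L * n ≤ k * min n ((m + s).choose m)) : FB (ZMod n) (m + k) (s + 1) := by
  classical
  rcases Nat.lt_or_ge n 2 with h1 | h1
  · have : n = 1 := by omega
    subst this
    exact Pool.Agent.Lib.MP_ffcda7_co.FB_small le_rfl (by omega) (by omega)
  have : NeZero n := ⟨by omega⟩
  obtain ⟨a, ha⟩ := exists_large_min m s n hm
  set S := (Simp m s).image fun c => ∑ i, (c i : ZMod n) * a i with hS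
  obtain ⟨b, hb⟩ := greedy S k
  rw [ZMod.card] at hb
  have hSn : S.card ≤ n := by
    have := Finset.card_le_univ S
    rwa [ZMod.card] at this
  have hkS : L * n ≤ k * S.card := by
    have h2 : 8 * (L * n) ≤ 8 * (k * S.card) := by
      calc 8 * (L * n) = 8 * L * n := by ring
        _ ≤ k * min n ((m + s).choose m) := hk
        _ ≤ k * (8 * S.card) := Nat.mul_le_mul_left _ ha
        _ = 8 * (k * S.card) := by ring
    omega
  have hnum := FBG_num n S.card k L h1 hSn hL hkS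
  have hcov : ∀ x : ZMod n, ∃ i, x - b i ∈ S := by
    intro x
    by_contra hcon
    push Not at hcon
    have h2 : 1 ≤ (univ.filter fun x : ZMod n => ∀ i, x - b i ∉ S).card :=
      Finset.card_pos.2 ⟨x, by rw [Finset.mem_filter]; exact ⟨Finset.mem_univ _, hcon⟩⟩
    have h3 : n ^ k * 1 ≤ n ^ k * (univ.filter fun x : ZMod n => ∀ i, x - b i ∉ S).card :=
      Nat.mul_le_mul_left _ h2
    omega
  refine ⟨Fin.append a b, fun y => ?_⟩
  obtain ⟨i, hi⟩ := hcov y
  obtain ⟨c, hc, hcy⟩ := Finset.mem_image.1 hi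
  have hcs := mem_Simp.1 hc
  refine ⟨Fin.append c (Pi.single i 1), ?_, ?_⟩
  · rw [Fin.sum_univ_add]
    simp only [Fin.append_left, Fin.append_right]
    rw [Finset.sum_pi_single']
    simp only [Finset.mem_univ, if_true]
    omega
  · rw [Fin.sum_univ_add]
    simp only [Fin.append_left, Fin.append_right]
    have h2 : ∑ j : Fin m, ((c j : ℕ) : ℤ) • a j = y - b i := by
      rw [← hcy]
      refine Finset.sum_congr rfl fun j _ => ?_
      rw [zsmul_eq_mul, Int.cast_natCast]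
    have h3 : ∑ j : Fin k, (((Pi.single i 1 : Fin k → ℕ) j : ℕ) : ℤ) • b j = b i := by
      rw [Finset.sum_eq_single i]
      · simp
      · intro j _ hj
        simp [Pi.single_eq_of_ne hj]
      · intro h; exact absurd (Finset.mem_univ i) h
    rw [h2, h3]
    abel

end Pool.Agent.Lib.MP_ffcda7_coU
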