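import Pool.Agent.Lib.MP_ffcda7_coU.FarP

set_option autoImplicit false

open Finset Filter Topology

namespace Pool.Agent.Lib.MP_ffcda7_coU

open Pool.Agent.Lib.MP_ffcda7_co (FB HasBasis f g kap)

private lemma far_choose (m s : ℕ) (hm : 0 < m) :
    ((m + s).choose m : ℝ) ≤ (Real.exp 1 * (((s / m : ℕ) : ℝ) + 2)) ^ m := by
  have hm' : (0 : ℝ) < m := by exact_mod_cast hm
  have h1 : ((m + s).choose m : ℝ) ≤ ((m + s : ℕ) : ℝ) ^ m / (m.factorial : ℝ) :=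
    Nat.choose_le_pow_div m (m + s)
  have h2 : (m : ℝ) ^ m / (m.factorial : ℝ) ≤ Real.exp 1 ^ m := by
    rw [← Real.exp_nat_mul, mul_one]
    exact Real.pow_div_factorial_le_exp (m : ℝ) hm'.le m
  have hf : (0 : ℝ) < (m.factorial : ℝ) := by exact_mod_cast Nat.factorial_pos m
  have h3 : ((m + s : ℕ) : ℝ) ≤ (m : ℝ) * (((s / m : ℕ) : ℝ) + 2) := by
    have h4 : s < m * (s / m + 1) := by
      have := Nat.lt_mul_div_succ s hm
      exact this
    have h5 : m + s ≤ m * (s / m + 2) := by nlinarith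
    exact_mod_cast h5
  calc ((m + s).choose m : ℝ) ≤ ((m + s : ℕ) : ℝ) ^ m / (m.factorial : ℝ) := h1
    _ ≤ ((m : ℝ) * (((s / m : ℕ) : ℝ) + 2)) ^ m / (m.factorial : ℝ) := by
      gcongr
    _ = (m : ℝ) ^ m / (m.factorial : ℝ) * (((s / m : ℕ) : ℝ) + 2) ^ m := by
      rw [mul_pow]
      ring
    _ ≤ Real.exp 1 ^ m * (((s / m : ℕ) : ℝ) + 2) ^ m := by
      gcongr
    _ = (Real.exp 1 * (((s / m : ℕ) : ℝ) + 2)) ^ m := by rw [mul_pow]

/-- Proof: `binom(m + s, m) ≤ (m + s) ^ m / m! ≤ (e (m + s) / m) ^ m`, and for `s ≥ C m`,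
`(m + s) / m ≤ s / m + 2 ≤ (1 + 2 / C) (s / m)` with the floor `s / m ≥ C`. Use `far_pow` with
`ε / 2`; the constant `c` and the factor `(1 + 2 / C) ^ m` are absorbed by
`((1 - ε / 2) / (1 - ε)) ^ m` for large `C` and `m`. -/
theorem far (ε : ℝ) (h0 : 0 < ε) (h1 : ε < 1) :
    ∃ C M : ℕ, 1 ≤ C ∧ ∀ m s : ℕ, M ≤ m → C * m ≤ s →
      (1 - ε) ^ m * ((m + s).choose m : ℝ) ≤ g m s := by
  obtain ⟨c, B, hc, hB⟩ := far_pow (ε / 2) (by linarith) (by linarith)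
  have hd : (0 : ℝ) < 1 - ε / 2 := by linarith
  have hr0 : (0 : ℝ) ≤ (1 - 3 * ε / 4) / (1 - ε / 2) := div_nonneg (by linarith) hd.le
  have hr1 : (1 - 3 * ε / 4) / (1 - ε / 2) < 1 := by
    rw [div_lt_one hd]
    linarith
  obtain ⟨M0, hM0⟩ := exists_pow_lt_of_lt_one hc hr1
  refine ⟨max (max B ⌈8 / ε⌉₊) 1, max 2 M0, le_max_right _ _, fun m s hm hs => ?_⟩
  have hm2 : 2 ≤ m := (le_max_left _ _).trans hm
  have hm0 : M0 ≤ m := (le_max_right _ _).trans hm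
  have hmpos : 0 < m := by omega
  have hCB : B * m ≤ s :=
    (Nat.mul_le_mul_right m ((le_max_left _ _).trans (le_max_left _ _))).trans hs
  have hb : max (max B ⌈8 / ε⌉₊) 1 ≤ s / m := (Nat.le_div_iff_mul_le hmpos).2 hs
  have hb8 : 8 / ε ≤ ((s / m : ℕ) : ℝ) := by
    refine (Nat.le_ceil _).trans ?_
    exact_mod_cast ((le_max_right _ _).trans (le_max_left _ _)).trans hb
  obtain ⟨b, hbdef⟩ : ∃ b : ℝ, b = ((s / m : ℕ) : ℝ) := ⟨_, rfl⟩
  have h2 := hB m s hm2 hCB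
  have h3 := far_choose m s hmpos
  rw [← hbdef] at hb8 h2 h3
  have hbpos : 0 < b := lt_of_lt_of_le (by positivity) hb8
  have hbe : 2 ≤ b * ε / 4 := by
    have := (div_le_iff₀ h0).1 hb8
    linarith
  have he : (0 : ℝ) < Real.exp 1 := Real.exp_pos 1
  have h4 : (1 - ε) * (Real.exp 1 * (b + 2)) ≤
      (1 - 3 * ε / 4) / (1 - ε / 2) * ((1 - ε / 2) * Real.exp 1 * b) := by
    have h5 : (1 - 3 * ε / 4) / (1 - ε / 2) * ((1 - ε / 2) * Real.exp 1 * b) =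
        Real.exp 1 * ((1 - 3 * ε / 4) * b) := by
      have h7 := div_mul_cancel₀ (1 - 3 * ε / 4) hd.ne'
      linear_combination (Real.exp 1 * b) * h7
    have h6 : (1 - ε) * (b + 2) ≤ (1 - 3 * ε / 4) * b := by
      nlinarith [mul_pos h0 h0, mul_pos (mul_pos h0 h0) hbpos]
    rw [h5]
    calc (1 - ε) * (Real.exp 1 * (b + 2)) = Real.exp 1 * ((1 - ε) * (b + 2)) := by ring
      _ ≤ _ := mul_le_mul_of_nonneg_left h6 he.le
  calc (1 - ε) ^ m * ((m + s).choose m : ℝ)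
      ≤ (1 - ε) ^ m * (Real.exp 1 * (b + 2)) ^ m :=
        mul_le_mul_of_nonneg_left h3 (pow_nonneg (by linarith) m)
    _ = ((1 - ε) * (Real.exp 1 * (b + 2))) ^ m := (mul_pow _ _ _).symm
    _ ≤ ((1 - 3 * ε / 4) / (1 - ε / 2) * ((1 - ε / 2) * Real.exp 1 * b)) ^ m := by
        refine pow_le_pow_left₀ ?_ h4 m
        have : (0 : ℝ) ≤ 1 - ε := by linarith
        positivity
    _ = ((1 - 3 * ε / 4) / (1 - ε / 2)) ^ m * ((1 - ε / 2) * Real.exp 1 * b) ^ m := by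
        rw [mul_pow]
    _ ≤ c * ((1 - ε / 2) * Real.exp 1 * b) ^ m := by
        refine mul_le_mul_of_nonneg_right ?_ (by positivity)
        exact (pow_le_pow_of_le_one hr0 hr1.le hm0).trans hM0.le
    _ ≤ g m s := h2

end Pool.Agent.Lib.MP_ffcda7_coU
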