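import Pool.Agent.Lib.MP_ffcda7_coU.ProdB

set_option autoImplicit false

open Finset

namespace Pool.Agent.Lib.MP_ffcda7_coU

open Pool.Agent.Lib.MP_ffcda7_co (FB HasBasis f g)

private theorem ProdC_FB {G : Type*} [AddCommGroup G] {ι : Type} [Fintype ι] {M s : ℕ}
    (hM : Fintype.card ι = M) (a : ι → G)
    (h : ∀ y, ∃ c : ι → ℕ, ∑ i, c i ≤ s ∧ ∑ i, (c i : ℤ) • a i = y) : FB G M s := by
  have e := Fintype.equivFinOfCardEq hM
  refine ⟨fun i => a (e.symm i), fun y => ?_⟩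
  obtain ⟨c, h1, h2⟩ := h y
  refine ⟨fun i => c (e.symm i), ?_, ?_⟩
  · rw [e.symm.sum_comp c]
    exact h1
  · rw [e.symm.sum_comp (fun i => (c i : ℤ) • a i)]
    exact h2

private theorem ProdC_dig (v b d : ℕ) :
    ∑ j ∈ range d, b ^ j * (v / b ^ j % b) = v % b ^ d := by
  induction d with
  | zero => simp [Nat.mod_one]
  | succ d ih => rw [sum_range_succ, ih, Nat.mod_pow_succ]

private theorem ProdC_one (b d : ℕ) (M : Type) [AddCommMonoid M] (F : ℕ → M) (h0 : F 0 = 0)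
    (hd : d < b) :
    ∑ e : Fin (b - 1), (if d = (e : ℕ) + 1 then F ((e : ℕ) + 1) else 0) = F d := by
  rcases Nat.eq_zero_or_pos d with h | h
  · subst h
    rw [h0]
    exact sum_eq_zero fun e _ => if_neg (by omega)
  · rw [sum_eq_single (⟨d - 1, by omega⟩ : Fin (b - 1))]
    · have h1 : d - 1 + 1 = d := by omega
      simp only [h1]
      rw [if_pos trivial]
    · intro e _ he
      refine if_neg fun h1 => he ?_
      ext
      simp only
      omega
    · intro h1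
      exact absurd (mem_univ _) h1

/-- As `prod_bound`, but the top number `y < b ^ d` is written with at most one element
`N ^ r e b ^ i`, `1 ≤ e < b`, for each digit `i < d`. (Copy the proof of `prod_bound` in
`ProdB.lean`; see also `DigR.lean`.) -/
theorem prod_bound' (m s N r n b d : ℕ) (hN : 1 ≤ N) (h : FB (ZMod N) m s) (hn1 : 1 ≤ n)
    (hn : n + s * N ^ r ≤ b ^ d * N ^ r) : FB (ZMod n) (r * m + d * (b - 1)) (r * s + d) := by
  have hN0 : NeZero N := ⟨by omega⟩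
  have hn0 : NeZero n := ⟨by omega⟩
  obtain ⟨a, ha⟩ := h
  have hb : ∀ x : ZMod N, ∃ c : Fin m → ℕ, ∑ j, c j ≤ s ∧
      ((∑ j, c j * (a j).val : ℕ) : ZMod N) = x := by
    intro x
    obtain ⟨c, h1, h2⟩ := ha x
    refine ⟨c, h1, ?_⟩
    rw [← h2]
    push_cast
    refine sum_congr rfl fun j _ => ?_
    rw [ZMod.natCast_zmod_val]
    simp
  refine ProdC_FB (ι := (Fin r × Fin m) ⊕ (Fin d × Fin (b - 1))) (by simp)
    (Sum.elim (fun p => ((N ^ (p.1 : ℕ) * (a p.2).val : ℕ) : ZMod n))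
      (fun q => ((((q.2 : ℕ) + 1) * (N ^ r * b ^ (q.1 : ℕ)) : ℕ) : ZMod n))) fun y0 => ?_
  set x : ℕ := s * (N ^ r - 1) + (y0 - ((s * (N ^ r - 1) : ℕ) : ZMod n)).val with hxdef
  have hxy : (x : ZMod n) = y0 := by
    rw [hxdef, Nat.cast_add, ZMod.natCast_zmod_val]
    ring
  have hxlt : x < b ^ d * N ^ r := by
    have h1 := ZMod.val_lt (y0 - ((s * (N ^ r - 1) : ℕ) : ZMod n))
    have h2 : s * (N ^ r - 1) ≤ s * N ^ r := Nat.mul_le_mul_left _ (Nat.sub_le _ _)
    omega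
  obtain ⟨c, y, h1, h2⟩ := radix m s N hN (fun j => (a j).val) (fun j => ZMod.val_lt _) hb r x
    (Nat.le_add_right _ _)
  have hy : y < b ^ d := by
    have h3 : N ^ r * y < b ^ d * N ^ r := by omega
    rw [mul_comm (b ^ d)] at h3
    exact lt_of_mul_lt_mul_left h3 (Nat.zero_le _)
  have hb0 : ∀ e : Fin d, 0 < b := by
    intro e
    rcases Nat.eq_zero_or_pos b with h0 | h0
    · have hd : d ≠ 0 := by have := e.2; omega
      rw [h0, zero_pow hd] at hy
      omega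
    · exact h0
  have hdig : ∑ e : Fin d, b ^ (e : ℕ) * (y / b ^ (e : ℕ) % b) = y := by
    rw [Fin.sum_univ_eq_sum_range (fun e => b ^ e * (y / b ^ e % b)) d, ProdC_dig,
      Nat.mod_eq_of_lt hy]
  refine ⟨Sum.elim (fun p => c p.1 p.2)
    (fun q => if y / b ^ (q.1 : ℕ) % b = (q.2 : ℕ) + 1 then 1 else 0), ?_, ?_⟩
  · rw [Fintype.sum_sum_type, Fintype.sum_prod_type, Fintype.sum_prod_type]
    simp only [Sum.elim_inl, Sum.elim_inr]
    refine add_le_add ?_ ?_
    · calc ∑ i : Fin r, ∑ j : Fin m, c i j ≤ ∑ _i : Fin r, s := sum_le_sum fun i _ => h1 i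
        _ = r * s := by simp
    · calc ∑ i : Fin d, ∑ e : Fin (b - 1),
            (if y / b ^ (i : ℕ) % b = (e : ℕ) + 1 then 1 else 0) ≤ ∑ _i : Fin d, 1 := by
            refine sum_le_sum fun i _ => ?_
            have h4 := ProdC_one b (y / b ^ (i : ℕ) % b) ℕ (fun t => if t = 0 then 0 else 1)
              (by simp) (Nat.mod_lt _ (hb0 i))
            simp only [Nat.succ_ne_zero, if_false] at h4
            rw [h4]
            split_ifs <;> omega
        _ = d := by simp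
  · rw [Fintype.sum_sum_type, Fintype.sum_prod_type, Fintype.sum_prod_type]
    simp only [Sum.elim_inl, Sum.elim_inr]
    rw [← hxy, h2]
    have h3 : N ^ r * y = ∑ e : Fin d, (y / b ^ (e : ℕ) % b) * (N ^ r * b ^ (e : ℕ)) := by
      conv_lhs => rw [← hdig]
      rw [mul_sum]
      refine sum_congr rfl fun e _ => ?_
      ring
    have h5 : ∀ i : Fin d, ∑ e : Fin (b - 1),
        (((if y / b ^ (i : ℕ) % b = (e : ℕ) + 1 then 1 else 0 : ℕ) : ℤ) •
          ((((e : ℕ) + 1) * (N ^ r * b ^ (i : ℕ)) : ℕ) : ZMod n)) =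
        (((y / b ^ (i : ℕ) % b) * (N ^ r * b ^ (i : ℕ)) : ℕ) : ZMod n) := by
      intro i
      have h4 := ProdC_one b (y / b ^ (i : ℕ) % b) (ZMod n)
        (fun t => ((t * (N ^ r * b ^ (i : ℕ)) : ℕ) : ZMod n)) (by simp) (Nat.mod_lt _ (hb0 i))
      rw [← h4]
      refine sum_congr rfl fun e _ => ?_
      split_ifs <;> simp
    rw [sum_congr rfl fun i _ => h5 i, h3]
    simp only [zsmul_eq_mul, Int.cast_natCast, Nat.cast_add, Nat.cast_sum, Nat.cast_mul,
      Nat.cast_pow]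

theorem prod_g' (m s r b d : ℕ) :
    (b ^ d - s) * f m s ^ r ≤ g (r * m + d * (b - 1)) (r * s + d) := by
  refine Pool.Agent.Lib.MP_ffcda7_co.le_g fun n hn1 hn => ?_
  have hf := Pool.Agent.Lib.MP_ffcda7_co.f_mem m s
  refine Pool.Agent.Lib.MP_ffcda7_co.HasBasis_of_FB (prod_bound' m s (f m s) r n b d hf.1
    (Pool.Agent.Lib.MP_ffcda7_co.FB_of_HasBasis hf.2) hn1 ?_)
  rcases Nat.lt_or_ge (b ^ d) s with h0 | h0
  · rw [Nat.sub_eq_zero_of_le h0.le, zero_mul] at hn
    omega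
  · calc n + s * f m s ^ r ≤ (b ^ d - s) * f m s ^ r + s * f m s ^ r :=
          Nat.add_le_add_right hn _
      _ = b ^ d * f m s ^ r := by rw [← Nat.add_mul, Nat.sub_add_cancel h0]

end Pool.Agent.Lib.MP_ffcda7_coU
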