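import Pool.Agent.Lib.MP_ffcda7_coU.Defs

set_option autoImplicit false

open Finset

namespace Pool.Agent.Lib.MP_ffcda7_coU

open Pool.Agent.Lib.MP_ffcda7_co (FB HasBasis f g)

/-- Mixed radix with carries. Proof: induction on `r` (for all `x`). For the step from `r` to
`r + 1` take the vector `c` of the residue of `x` modulo `N`; then `∑ c j a j ≤ s (N - 1) ≤ x`, it
is congruent to `x`, and `x' = (x - ∑ c j a j) / N ≥ s (N ^ r - 1)`. -/
theorem radix (m s N : ℕ) (hN : 1 ≤ N) (a : Fin m → ℕ) (ha : ∀ j, a j < N)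
    (hb : ∀ x : ZMod N, ∃ c : Fin m → ℕ, ∑ j, c j ≤ s ∧ ((∑ j, c j * a j : ℕ) : ZMod N) = x)
    (r x : ℕ) (hx : s * (N ^ r - 1) ≤ x) :
    ∃ (c : Fin r → Fin m → ℕ) (y : ℕ), (∀ i, ∑ j, c i j ≤ s) ∧
      x = (∑ i, ∑ j, c i j * (N ^ (i : ℕ) * a j)) + N ^ r * y := by
  induction r generalizing x with
  | zero => exact ⟨fun i => i.elim0, x, fun i => i.elim0, by simp⟩
  | succ r ih =>
    obtain ⟨c0, h1, h2⟩ := hb (x : ZMod N)
    have hNr : 1 ≤ N ^ r := Nat.one_le_pow _ _ hN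
    have ht : ∑ j, c0 j * a j ≤ s * (N - 1) := by
      calc ∑ j, c0 j * a j ≤ ∑ j, c0 j * (N - 1) :=
            sum_le_sum fun j _ => Nat.mul_le_mul_left _ (by have := ha j; omega)
        _ = (∑ j, c0 j) * (N - 1) := by rw [sum_mul]
        _ ≤ s * (N - 1) := Nat.mul_le_mul_right _ h1
    obtain ⟨u, hu⟩ : ∃ u, N ^ r = u + 1 := ⟨N ^ r - 1, by omega⟩
    obtain ⟨v, hv⟩ : ∃ v, N = v + 1 := ⟨N - 1, by omega⟩
    have hpow : N ^ (r + 1) = (u + 1) * (v + 1) := by rw [pow_succ, hu, ← hv]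
    have hsub : N ^ (r + 1) - 1 = N * u + v := by
      rw [hpow, hv]
      have : (u + 1) * (v + 1) = ((v + 1) * u + v) + 1 := by ring
      omega
    have hx' : s * (N * u) + s * v ≤ x := by
      rw [hsub] at hx
      rwa [← Nat.mul_add]
    have ht' : ∑ j, c0 j * a j ≤ s * v := by
      have : N - 1 = v := by omega
      rwa [this] at ht
    have hle : ∑ j, c0 j * a j ≤ x := ht'.trans ((Nat.le_add_left _ _).trans hx')
    have hdvd : N ∣ x - ∑ j, c0 j * a j := by
      rw [← ZMod.natCast_eq_zero_iff, Nat.cast_sub hle, h2, sub_self]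
    obtain ⟨x', hx''⟩ := hdvd
    have hxe : x = (∑ j, c0 j * a j) + N * x' := by omega
    have hge : s * (N ^ r - 1) ≤ x' := by
      have h3 : N ^ r - 1 = u := by omega
      rw [h3]
      have h4 : N * (s * u) ≤ N * x' := by
        have : N * (s * u) = s * (N * u) := by ring
        rw [this]
        omega
      exact Nat.le_of_mul_le_mul_left h4 hN
    obtain ⟨c', y, h3, h4⟩ := ih x' hge
    refine ⟨Fin.cons c0 c', y, fun i => ?_, ?_⟩
    · refine Fin.cases ?_ (fun i => ?_) i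
      · simpa using h1
      · simpa using h3 i
    · rw [Fin.sum_univ_succ]
      simp only [Fin.cons_zero, Fin.cons_succ, Fin.val_zero, pow_zero, one_mul, Fin.val_succ]
      rw [hxe, h4, mul_add, mul_sum, ← add_assoc, pow_succ]
      congr 1
      · congr 1
        refine sum_congr rfl fun i _ => ?_
        rw [mul_sum]
        refine sum_congr rfl fun j _ => ?_
        ring
      · ring

private theorem ProdB_FB {G : Type*} [AddCommGroup G] {ι : Type} [Fintype ι] {M s : ℕ}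
    (hM : Fintype.card ι = M) (a : ι → G)
    (h : ∀ y, ∃ c : ι → ℕ, ∑ i, c i ≤ s ∧ ∑ i, (c i : ℤ) • a i = y) : FB G M s := by
  have e := Fintype.equivFinOfCardEq hM
  refine ⟨fun i => a (e.symm i), fun y => ?_⟩
  obtain ⟨c, h1, h2⟩ := h y
  refine ⟨fun i => c (e.symm i), ?_, ?_⟩
  · rw [e.symm.sum_comp c]
    exact h1
  · rw [e.symm.sum_comp (fun i => (c i : ℤ) • a i)]
    exact h2

private theorem ProdB_dig (v b d : ℕ) :
    ∑ j ∈ range d, b ^ j * (v / b ^ j % b) = v % b ^ d := by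
  induction d with
  | zero => simp [Nat.mod_one]
  | succ d ih => rw [sum_range_succ, ih, Nat.mod_pow_succ]

/-- A basis of one `ℤ/N` gives bases of all `ℤ/n`, `n ≤ (b ^ d - s) N ^ r`. Proof: let `a j < N` be
the representatives of the basis. For a residue modulo `n` take its representative `x` with
`s (N ^ r - 1) ≤ x < s (N ^ r - 1) + n`, apply `radix`; then `N ^ r y ≤ x < b ^ d N ^ r`, so
`y < b ^ d` has `d` digits in base `b`. The generators are `N ^ i a j` (`i < r`, `j < m`) and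
`N ^ r b ^ e` (`e < d`). -/
theorem prod_bound (m s N r n b d : ℕ) (hN : 1 ≤ N) (h : FB (ZMod N) m s) (hn1 : 1 ≤ n)
    (hn : n + s * N ^ r ≤ b ^ d * N ^ r) : FB (ZMod n) (r * m + d) (r * s + d * (b - 1)) := by
  have hN0 : NeZero N := ⟨by omega⟩
  have hn0 : NeZero n := ⟨by omega⟩
  obtain ⟨a, ha⟩ := h
  have hb : ∀ x : ZMod N, ∃ c : Fin m → ℕ, ∑ j, c j ≤ s ∧
      ((∑ j, c j * (a j).val : ℕ) : ZMod N) = x := by
    intro x
    obtain ⟨c, h1, h2⟩ := ha x
    refine ⟨c, h1, ?_⟩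
    rw [← h2]
    push_cast
    refine sum_congr rfl fun j _ => ?_
    rw [ZMod.natCast_zmod_val]
    simp
  refine ProdB_FB (ι := (Fin r × Fin m) ⊕ Fin d) (by simp)
    (Sum.elim (fun p => ((N ^ (p.1 : ℕ) * (a p.2).val : ℕ) : ZMod n))
      (fun e => ((N ^ r * b ^ (e : ℕ) : ℕ) : ZMod n))) fun y0 => ?_
  set x : ℕ := s * (N ^ r - 1) + (y0 - ((s * (N ^ r - 1) : ℕ) : ZMod n)).val with hxdef
  have hxy : (x : ZMod n) = y0 := by
    rw [hxdef, Nat.cast_add, ZMod.natCast_zmod_val]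
    ring
  have hxlt : x < b ^ d * N ^ r := by
    have h1 := ZMod.val_lt (y0 - ((s * (N ^ r - 1) : ℕ) : ZMod n))
    have h2 : s * (N ^ r - 1) ≤ s * N ^ r := Nat.mul_le_mul_left _ (Nat.sub_le _ _)
    omega
  obtain ⟨c, y, h1, h2⟩ := radix m s N hN (fun j => (a j).val) (fun j => ZMod.val_lt _) hb r x
    (Nat.le_add_right _ _)
  have hy : y < b ^ d := by
    have h3 : N ^ r * y < b ^ d * N ^ r := by omega
    rw [mul_comm (b ^ d)] at h3
    exact lt_of_mul_lt_mul_left h3 (Nat.zero_le _)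
  have hdig : ∑ e : Fin d, b ^ (e : ℕ) * (y / b ^ (e : ℕ) % b) = y := by
    rw [Fin.sum_univ_eq_sum_range (fun e => b ^ e * (y / b ^ e % b)) d, ProdB_dig,
      Nat.mod_eq_of_lt hy]
  refine ⟨Sum.elim (fun p => c p.1 p.2) (fun e => y / b ^ (e : ℕ) % b), ?_, ?_⟩
  · rw [Fintype.sum_sum_type, Fintype.sum_prod_type]
    simp only [Sum.elim_inl, Sum.elim_inr]
    refine add_le_add ?_ ?_
    · calc ∑ i : Fin r, ∑ j : Fin m, c i j ≤ ∑ _i : Fin r, s := sum_le_sum fun i _ => h1 i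
        _ = r * s := by simp
    · calc ∑ e : Fin d, y / b ^ (e : ℕ) % b ≤ ∑ _e : Fin d, (b - 1) := by
            refine sum_le_sum fun e _ => ?_
            have hb0 : 0 < b := by
              rcases Nat.eq_zero_or_pos b with h0 | h0
              · have hd : d ≠ 0 := by have := e.2; omega
                rw [h0, zero_pow hd] at hy
                omega
              · exact h0
            have := Nat.mod_lt (y / b ^ (e : ℕ)) hb0
            omega
        _ = d * (b - 1) := by simp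
  · rw [Fintype.sum_sum_type, Fintype.sum_prod_type]
    simp only [Sum.elim_inl, Sum.elim_inr]
    rw [← hxy, h2]
    have h3 : N ^ r * y = ∑ e : Fin d, (y / b ^ (e : ℕ) % b) * (N ^ r * b ^ (e : ℕ)) := by
      conv_lhs => rw [← hdig]
      rw [mul_sum]
      refine sum_congr rfl fun e _ => ?_
      ring
    rw [h3]
    simp only [zsmul_eq_mul, Int.cast_natCast, Nat.cast_add, Nat.cast_sum, Nat.cast_mul,
      Nat.cast_pow]

/-- From `prod_bound` with `N = f m s` (`f_mem`) and `le_g`. -/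
theorem prod_g (m s r b d : ℕ) :
    (b ^ d - s) * f m s ^ r ≤ g (r * m + d) (r * s + d * (b - 1)) := by
  refine Pool.Agent.Lib.MP_ffcda7_co.le_g fun n hn1 hn => ?_
  have hf := Pool.Agent.Lib.MP_ffcda7_co.f_mem m s
  refine Pool.Agent.Lib.MP_ffcda7_co.HasBasis_of_FB (prod_bound m s (f m s) r n b d hf.1
    (Pool.Agent.Lib.MP_ffcda7_co.FB_of_HasBasis hf.2) hn1 ?_)
  rcases Nat.lt_or_ge (b ^ d) s with h0 | h0
  · rw [Nat.sub_eq_zero_of_le h0.le, zero_mul] at hn
    omega
  · calc n + s * f m s ^ r ≤ (b ^ d - s) * f m s ^ r + s * f m s ^ r :=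
          Nat.add_le_add_right hn _
      _ = b ^ d * f m s ^ r := by rw [← Nat.add_mul, Nat.sub_add_cancel h0]

end Pool.Agent.Lib.MP_ffcda7_coU
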