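import Pool.Agent.Lib.MP_ffcda7_coU.Block
import Pool.Agent.Lib.MP_ffcda7_coU.ProdB
import Pool.Agent.Lib.MP_ffcda7_coU.Triv

set_option autoImplicit false

open Finset Filter Topology

namespace Pool.Agent.Lib.MP_ffcda7_coU

open Pool.Agent.Lib.MP_ffcda7_co (FB HasBasis f g kap)

/-- Proof: take `m0`, `b0` from `fixed_block` for `ε`. Let `b = s / m` (floor), `r = (m - 2) / m0`,
`d = m - r m0`, so `2 ≤ d ≤ m0 + 1`. By `prod_g` with the block `(m0, m0 b)`,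
`g m s ≥ g (r m0 + d) (r m0 b + d (b - 1)) ≥ (b ^ d - m0 b) f(m0, m0 b) ^ r`, as
`r m0 b + d (b - 1) ≤ m b ≤ s`; and `b ^ d - m0 b ≥ b ^ d / 2` for `b ≥ 2 m0`. So
`g m s ≥ (1 / 2) b ^ d ((1 - ε) e b) ^ (r m0) ≥ (1 / 2) e ^ (- (m0 + 1)) ((1 - ε) e b) ^ m`. -/
theorem far_pow (ε : ℝ) (h0 : 0 < ε) (h1 : ε < 1) :
    ∃ (c : ℝ) (B : ℕ), 0 < c ∧ ∀ m s : ℕ, 2 ≤ m → B * m ≤ s →
      c * ((1 - ε) * Real.exp 1 * ((s / m : ℕ) : ℝ)) ^ m ≤ g m s := by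
  obtain ⟨m0, hm0, b0, hb⟩ := fixed_block ε h0 h1
  have hE : 0 < Real.exp 1 := Real.exp_pos 1
  have hE1 : (1 : ℝ) ≤ Real.exp 1 := Real.one_le_exp (by norm_num)
  have hEp : 0 < Real.exp 1 ^ (m0 + 1) := pow_pos hE _
  refine ⟨1 / 2 * (Real.exp 1 ^ (m0 + 1))⁻¹, b0 + 2 * m0, by positivity, ?_⟩
  intro m s hm hs
  obtain ⟨b, hbdef⟩ : ∃ b : ℕ, b = s / m := ⟨_, rfl⟩
  have hmpos : 0 < m := by omega
  have hbB : b0 + 2 * m0 ≤ b := by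
    rw [hbdef, Nat.le_div_iff_mul_le hmpos]
    exact hs
  have hbm : m * b ≤ s := by
    rw [hbdef]
    exact Nat.mul_div_le s m
  rw [← hbdef]
  obtain ⟨r, hr⟩ : ∃ r : ℕ, r = (m - 2) / m0 := ⟨_, rfl⟩
  have hr1 : r * m0 ≤ m - 2 := by
    rw [hr]
    exact Nat.div_mul_le_self _ _
  have hr2 : m - 2 < (r + 1) * m0 := by
    rw [hr, mul_comm]
    exact Nat.lt_mul_div_succ _ (by omega)
  obtain ⟨d, hd⟩ : ∃ d : ℕ, m = r * m0 + d := ⟨m - r * m0, by omega⟩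
  have hd2 : 2 ≤ d := by omega
  have hd3 : d ≤ m0 + 1 := by
    rw [add_mul, one_mul] at hr2
    omega
  have hp := prod_g m0 (m0 * b) r b d
  have hmono : g (r * m0 + d) (r * (m0 * b) + d * (b - 1)) ≤ g m s := by
    refine g_mono (le_of_eq hd.symm) (le_trans ?_ hbm)
    calc r * (m0 * b) + d * (b - 1) ≤ r * (m0 * b) + d * b :=
          Nat.add_le_add_left (Nat.mul_le_mul_left _ (Nat.sub_le _ _)) _
      _ = (r * m0 + d) * b := by ring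
      _ = m * b := by rw [← hd]
  have hle := hp.trans hmono
  have hbd : 2 * (m0 * b) ≤ b ^ d := by
    calc 2 * (m0 * b) = (2 * m0) * b := by ring
      _ ≤ b * b := Nat.mul_le_mul_right _ (by omega)
      _ = b ^ 2 := by ring
      _ ≤ b ^ d := Nat.pow_le_pow_right (by omega) hd2
  have hsub : ((b ^ d - m0 * b : ℕ) : ℝ) = (b : ℝ) ^ d - (m0 : ℝ) * b := by
    rw [Nat.cast_sub (by omega)]
    push_cast
    ring
  have hbdR : 2 * ((m0 : ℝ) * b) ≤ (b : ℝ) ^ d := by exact_mod_cast hbd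
  have hleR : ((b : ℝ) ^ d - (m0 : ℝ) * b) * (f m0 (m0 * b) : ℝ) ^ r ≤ (g m s : ℝ) := by
    rw [← hsub]
    exact_mod_cast hle
  have hq : 0 ≤ (1 - ε) * Real.exp 1 := mul_nonneg (by linarith) hE.le
  have hqE : (1 - ε) * Real.exp 1 ≤ Real.exp 1 := by nlinarith
  have hqb : 0 ≤ (1 - ε) * Real.exp 1 * (b : ℝ) := mul_nonneg hq (Nat.cast_nonneg b)
  have hf : ((1 - ε) * Real.exp 1 * (b : ℝ)) ^ (r * m0) ≤ (f m0 (m0 * b) : ℝ) ^ r := by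
    rw [mul_comm r m0, pow_mul]
    exact pow_le_pow_left₀ (pow_nonneg hqb _) (hb b (by omega)) r
  have hqd : ((1 - ε) * Real.exp 1) ^ d ≤ Real.exp 1 ^ (m0 + 1) :=
    (pow_le_pow_left₀ hq hqE d).trans (pow_le_pow_right₀ hE1 hd3)
  have hcq : 1 / 2 * (Real.exp 1 ^ (m0 + 1))⁻¹ * ((1 - ε) * Real.exp 1) ^ d ≤ 1 / 2 := by
    calc 1 / 2 * (Real.exp 1 ^ (m0 + 1))⁻¹ * ((1 - ε) * Real.exp 1) ^ d
        ≤ 1 / 2 * (Real.exp 1 ^ (m0 + 1))⁻¹ * Real.exp 1 ^ (m0 + 1) :=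
          mul_le_mul_of_nonneg_left hqd (by positivity)
      _ = 1 / 2 := by
          rw [mul_assoc, inv_mul_cancel₀ hEp.ne', mul_one]
  have hpos1 : 0 ≤ ((1 - ε) * Real.exp 1 * (b : ℝ)) ^ (r * m0) := pow_nonneg hqb _
  have hpos2 : 0 ≤ (b : ℝ) ^ d := pow_nonneg (Nat.cast_nonneg b) _
  calc 1 / 2 * (Real.exp 1 ^ (m0 + 1))⁻¹ * ((1 - ε) * Real.exp 1 * (b : ℝ)) ^ m
      = (1 / 2 * (Real.exp 1 ^ (m0 + 1))⁻¹ * ((1 - ε) * Real.exp 1) ^ d) *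
          ((b : ℝ) ^ d * ((1 - ε) * Real.exp 1 * (b : ℝ)) ^ (r * m0)) := by
        rw [hd, pow_add _ (r * m0) d, mul_pow ((1 - ε) * Real.exp 1) (b : ℝ) d]
        ring
    _ ≤ 1 / 2 * ((b : ℝ) ^ d * ((1 - ε) * Real.exp 1 * (b : ℝ)) ^ (r * m0)) :=
        mul_le_mul_of_nonneg_right hcq (mul_nonneg hpos2 hpos1)
    _ = (b : ℝ) ^ d / 2 * ((1 - ε) * Real.exp 1 * (b : ℝ)) ^ (r * m0) := by ring
    _ ≤ ((b : ℝ) ^ d - (m0 : ℝ) * b) * (f m0 (m0 * b) : ℝ) ^ r := by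
        refine mul_le_mul (by linarith) hf hpos1 (by linarith)
    _ ≤ (g m s : ℝ) := hleR

end Pool.Agent.Lib.MP_ffcda7_coU
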