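import Pool.Agent.Lib.MP_ffcda7_coU.BlockE
import Pool.Agent.Lib.MP_ffcda7_coU.ProdC

set_option autoImplicit false

open Finset Filter Topology

namespace Pool.Agent.Lib.MP_ffcda7_coU

open Pool.Agent.Lib.MP_ffcda7_co (FB HasBasis f g)

private theorem fixS_e (n : ℕ) (hn : 1 ≤ n) : (n + 1) ^ n ≤ 3 * n ^ n := by
  have hn0 : (0 : ℝ) < n := by exact_mod_cast hn
  have h1 : ((n : ℝ) + 1) / n ≤ Real.exp (1 / n) := by
    have h2 := Real.add_one_le_exp (1 / (n : ℝ))
    have h3 : ((n : ℝ) + 1) / n = 1 / n + 1 := by field_simp; ring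
    rw [h3]; exact h2
  have h4 : (((n : ℝ) + 1) / n) ^ n ≤ 3 := by
    calc (((n : ℝ) + 1) / n) ^ n ≤ Real.exp (1 / n) ^ n :=
          pow_le_pow_left₀ (by positivity) h1 n
      _ = Real.exp 1 := by
          rw [← Real.exp_nat_mul]
          congr 1
          field_simp
      _ ≤ 3 := Real.exp_one_lt_three.le
  have h5 : ((n : ℝ) + 1) ^ n ≤ 3 * (n : ℝ) ^ n := by
    rw [div_pow, div_le_iff₀ (by positivity)] at h4
    exact h4
  exact_mod_cast h5

private theorem fixS_pow (m s : ℕ) (hm : 2 * s ^ 2 ≤ m) (hs : 1 ≤ s) :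
    (m + s) ^ s ≤ 2 * m ^ s := by
  have hms : (0 : ℝ) < (m : ℝ) + s := by
    have : (0 : ℝ) < s := by exact_mod_cast hs
    positivity
  have hm' : (2 : ℝ) * s ^ 2 ≤ m := by exact_mod_cast hm
  have hs0 : (0 : ℝ) ≤ s := by positivity
  have h1 : 1 + (s : ℝ) * (-(s / (m + s))) ≤ (1 + (-((s : ℝ) / (m + s)))) ^ s := by
    refine one_add_mul_le_pow ?_ s
    have h2 : (s : ℝ) / (m + s) ≤ 1 := by
      rw [div_le_one hms]
      have : (0 : ℝ) ≤ m := by positivity
      linarith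
    linarith
  have h3 : (1 : ℝ) / 2 ≤ 1 + (s : ℝ) * (-(s / (m + s))) := by
    have h4 : (s : ℝ) * (s / (m + s)) ≤ 1 / 2 := by
      rw [← mul_div_assoc, div_le_iff₀ hms]
      nlinarith
    linarith
  have h5 : 1 + (-((s : ℝ) / (m + s))) = m / (m + s) := by
    field_simp
    ring
  rw [h5, div_pow] at h1
  have h6 := h3.trans h1
  rw [le_div_iff₀ (by positivity)] at h6
  have h7 : ((m : ℝ) + s) ^ s ≤ 2 * (m : ℝ) ^ s := by linarith
  exact_mod_cast h7

theorem fixS (s : ℕ) (hs : 3 ≤ s) : ∀ᶠ m : ℕ in atTop,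
    (m + s).choose m ≤ 10000 * s * Nat.log 2 s * g m s := by
  obtain ⟨u, rfl⟩ : ∃ u, s = u + 2 := ⟨s - 2, by omega⟩
  obtain ⟨M₀, hM₀⟩ := eventually_atTop.mp (blockE u (by omega))
  filter_upwards [eventually_ge_atTop (2 * M₀ + 2 * (u + 2) ^ 2)] with m hm
  obtain ⟨s, hsu⟩ : ∃ s, s = u + 2 := ⟨_, rfl⟩
  rw [← hsu] at hs hm ⊢
  have hs0 : 0 < s := by omega
  have hm2 : 2 * s ^ 2 ≤ m := by omega
  obtain ⟨b, hb⟩ : ∃ b, b = m / s := ⟨_, rfl⟩
  have hbm : s * b ≤ m := by rw [hb]; exact Nat.mul_div_le m s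
  have hbm2 : m < s * b + s := by
    rw [hb]; exact Nat.lt_mul_div_succ m hs0
  have hb1 : u + 1 ≤ b := by
    by_contra hcon
    push Not at hcon
    have h1 : s * b ≤ s * (u + 1) := Nat.mul_le_mul_left s hcon.le
    nlinarith
  obtain ⟨c, hc⟩ : ∃ c, b = c + (u + 1) := ⟨b - (u + 1), by omega⟩
  have h3b : 3 * b ≤ m := (Nat.mul_le_mul_right b hs).trans hbm
  obtain ⟨a, ha⟩ : ∃ a, m = a + b := ⟨m - b, by omega⟩
  have hMa : M₀ ≤ a := by omega
  have hblock := hM₀ a hMa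
  have hprod := prod_g' a (u + 1) 1 b 1
  rw [pow_one, pow_one, one_mul, one_mul, one_mul] at hprod
  have hg : g (a + (b - 1)) (u + 1 + 1) ≤ g m s := g_mono (by omega) (by omega)
  have hcb : b - (u + 1) = c := by omega
  rw [hcb] at hprod
  have hcF : c * f a (u + 1) ≤ g m s := hprod.trans hg
  have h3 : m ^ (u + 1) ≤ 3 * a ^ (u + 1) := by
    have h1 : (u + 1) * m ≤ s * a := by
      have e1 : s * m = s * a + s * b := by rw [ha]; ring
      have e2 : s * m = (u + 1) * m + m := by rw [hsu]; ring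
      omega
    have h2 : ((u + 1) * m) ^ (u + 1) ≤ (s * a) ^ (u + 1) := Nat.pow_le_pow_left h1 _
    rw [mul_pow, mul_pow] at h2
    have h4 := fixS_e (u + 1) (by omega)
    have h5 : s ^ (u + 1) * a ^ (u + 1) ≤ 3 * (u + 1) ^ (u + 1) * a ^ (u + 1) := by
      refine Nat.mul_le_mul_right _ ?_
      rw [hsu]; exact h4
    have h6 : (u + 1) ^ (u + 1) * m ^ (u + 1) ≤ (u + 1) ^ (u + 1) * (3 * a ^ (u + 1)) :=
      (h2.trans h5).trans (le_of_eq (by ring))
    exact Nat.le_of_mul_le_mul_left h6 (by positivity)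
  have h4 : m ≤ 2 * s * c := by
    have e1 : s * b = s * c + s * (u + 1) := by rw [hc]; ring
    have e2 : s ^ 2 = s * (u + 1) + s := by rw [hsu]; ring
    have e3 : 2 * s * c = 2 * (s * c) := by ring
    omega
  have h5 : (m + s).choose m * s.factorial ≤ 2 * m ^ s := by
    have e1 : (m + s).choose m = (m + s).choose s := Nat.choose_symm_add
    have e2 : (m + s).choose s * s.factorial = (m + s).descFactorial s := by
      rw [Nat.descFactorial_eq_factorial_mul_choose, mul_comm]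
    rw [e1, e2]
    exact (Nat.descFactorial_le_pow _ _).trans (fixS_pow m s hm2 hs0)
  have h6 : m ^ s = m * m ^ (u + 1) := by rw [hsu, pow_succ' m (u + 1)]
  have h7 : s.factorial = s * (u + 1).factorial := by
    rw [hsu]; exact Nat.factorial_succ (u + 1)
  have hlog : Nat.log 2 (u + 1) ≤ Nat.log 2 s := Nat.log_mono_right (by omega)
  obtain ⟨l, hl⟩ : ∃ l, l = Nat.log 2 (u + 1) := ⟨_, rfl⟩
  rw [← hl] at hblock hlog
  have h8 : (m + s).choose m * s.factorial ≤ 8640 * (u + 1) * l * g m s * s.factorial := by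
    calc (m + s).choose m * s.factorial ≤ 2 * m ^ s := h5
      _ = 2 * (m * m ^ (u + 1)) := by rw [h6]
      _ ≤ 2 * (2 * s * c * (3 * a ^ (u + 1))) :=
          Nat.mul_le_mul_left 2 (Nat.mul_le_mul h4 h3)
      _ ≤ 2 * (2 * s * c * (3 * (720 * (u + 1) * l * (u + 1).factorial * f a (u + 1)))) := by
          gcongr
      _ = 8640 * (u + 1) * l * (c * f a (u + 1)) * (s * (u + 1).factorial) := by ring
      _ ≤ 8640 * (u + 1) * l * g m s * (s * (u + 1).factorial) := by gcongr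
      _ = 8640 * (u + 1) * l * g m s * s.factorial := by rw [h7]
  have h9 : (m + s).choose m ≤ 8640 * (u + 1) * l * g m s :=
    Nat.le_of_mul_le_mul_right h8 (Nat.factorial_pos s)
  refine h9.trans ?_
  refine Nat.mul_le_mul_right _ ?_
  refine Nat.mul_le_mul (Nat.mul_le_mul (by norm_num) (by omega)) hlog

end Pool.Agent.Lib.MP_ffcda7_coU
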