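import Pool.Agent.Lib.MP_ffcda7_coU.Defs

set_option autoImplicit false

open Finset

namespace Pool.Agent.Lib.MP_ffcda7_coU

private theorem rb_solve (s R0 t : ℕ) (ht : s * R0 < t) (ρ : Fin s → Fin s → ℤ)
    (hρ : ∀ i j, |ρ i j| ≤ (R0 : ℤ)) (b : Fin s → ℝ) :
    ∃ x : Fin s → ℝ, ∀ j, x j * t - ∑ i, x i * (ρ i j : ℝ) = b j := by
  classical
  set A : Matrix (Fin s) (Fin s) ℝ := fun j i => (if i = j then (t : ℝ) else 0) - (ρ i j : ℝ)
    with hA
  have hρ' : ∀ i j, |(ρ i j : ℝ)| ≤ (R0 : ℝ) := by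
    intro i j
    have := hρ i j
    exact_mod_cast this
  have ht' : (s : ℝ) * R0 < t := by exact_mod_cast ht
  have hdet : A.det ≠ 0 := by
    refine det_ne_zero_of_sum_row_lt_diag fun k => ?_
    have h1 : ∑ j ∈ Finset.univ.erase k, ‖A k j‖ ≤ ∑ j ∈ Finset.univ.erase k, (R0 : ℝ) := by
      refine Finset.sum_le_sum fun j hj => ?_
      have hjk : j ≠ k := Finset.ne_of_mem_erase hj
      simp only [hA, if_neg hjk, zero_sub, norm_neg, Real.norm_eq_abs]
      exact hρ' j k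
    have h2 : ∑ j ∈ Finset.univ.erase k, (R0 : ℝ) = ((s : ℝ) - 1) * R0 := by
      rw [Finset.sum_const, Finset.card_erase_of_mem (Finset.mem_univ k), Finset.card_univ,
        Fintype.card_fin, nsmul_eq_mul]
      have hs : 1 ≤ s := by
        have := k.isLt
        omega
      push_cast [Nat.cast_sub hs]
      ring
    have h3 : (t : ℝ) - R0 ≤ ‖A k k‖ := by
      simp only [hA, if_true, Real.norm_eq_abs]
      have h4 := hρ' k k
      have h5 := abs_le.1 h4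
      refine le_trans ?_ (le_abs_self _)
      linarith [h5.2]
    calc ∑ j ∈ Finset.univ.erase k, ‖A k j‖ ≤ ((s : ℝ) - 1) * R0 := by rw [← h2]; exact h1
      _ < (t : ℝ) - R0 := by linarith
      _ ≤ ‖A k k‖ := h3
  have hu : IsUnit A.det := isUnit_iff_ne_zero.2 hdet
  refine ⟨A⁻¹.mulVec b, fun j => ?_⟩
  have h6 : A.mulVec (A⁻¹.mulVec b) = b := by
    rw [Matrix.mulVec_mulVec, Matrix.mul_nonsing_inv A hu, Matrix.one_mulVec]
  have h7 := congrFun h6 j
  rw [← h7]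
  set x := A⁻¹.mulVec b with hx
  show _ = ∑ i, A j i * x i
  simp only [hA, sub_mul, ite_mul, zero_mul, Finset.sum_sub_distrib, Finset.sum_ite_eq',
    Finset.mem_univ, if_true]
  rw [mul_comm]
  congr 1
  refine Finset.sum_congr rfl fun i _ => ?_
  rw [mul_comm]

/-- Reduction modulo the vectors `t e_i - ρ_i`. Proof: the real matrix with the rows
`t e_i - ρ_i` is invertible (`det_ne_zero_of_sum_row_lt_diag` or the like, as `s R0 < t`), so
`U - s R0 (1, ..., 1) = ∑ x_i (t e_i - ρ_i)` with real `x_i`. Let `c_i = ⌊x_i⌋`; then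
`U - ∑ c_i (t e_i - ρ_i) = s R0 (1, ..., 1) + ∑ (x_i - c_i) (t e_i - ρ_i)` has all the coordinates
between `0` and `t + 2 s R0`. -/
theorem reduce_box (s R0 t : ℕ) (ht : s * R0 < t) (ρ : Fin s → Fin s → ℤ)
    (hρ : ∀ i j, |ρ i j| ≤ (R0 : ℤ)) (U : Fin s → ℤ) :
    ∃ (c : Fin s → ℤ) (u : Fin s → ℕ), (∀ j, u j ≤ t + 2 * s * R0) ∧
      ∀ j, (u j : ℤ) = U j - (c j * t - ∑ i, c i * ρ i j) := by
  obtain ⟨x, hx⟩ := rb_solve s R0 t ht ρ hρ fun j => (U j : ℝ) - s * R0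
  have hρ' : ∀ i j, |(ρ i j : ℝ)| ≤ (R0 : ℝ) := by
    intro i j
    have := hρ i j
    exact_mod_cast this
  have key : ∀ j, (0 : ℤ) ≤ U j - (⌊x j⌋ * t - ∑ i, ⌊x i⌋ * ρ i j) ∧
      U j - (⌊x j⌋ * t - ∑ i, ⌊x i⌋ * ρ i j) ≤ t + 2 * s * R0 := by
    intro j
    have e : ((U j - (⌊x j⌋ * t - ∑ i, ⌊x i⌋ * ρ i j) : ℤ) : ℝ) =
        s * R0 + Int.fract (x j) * t - ∑ i, Int.fract (x i) * (ρ i j : ℝ) := by
      have h1 : ∀ i, Int.fract (x i) * (ρ i j : ℝ) =
          x i * (ρ i j : ℝ) - (⌊x i⌋ : ℝ) * (ρ i j : ℝ) := by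
        intro i
        rw [Int.fract]
        ring
      rw [Finset.sum_congr rfl fun i _ => h1 i, Finset.sum_sub_distrib, Int.fract]
      push_cast
      have h2 := hx j
      linarith
    have h3 : |∑ i, Int.fract (x i) * (ρ i j : ℝ)| ≤ s * R0 := by
      calc |∑ i, Int.fract (x i) * (ρ i j : ℝ)|
          ≤ ∑ i, |Int.fract (x i) * (ρ i j : ℝ)| := Finset.abs_sum_le_sum_abs _ _
        _ ≤ ∑ _i : Fin s, (R0 : ℝ) := by
            refine Finset.sum_le_sum fun i _ => ?_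
            rw [abs_mul, abs_of_nonneg (Int.fract_nonneg _)]
            calc Int.fract (x i) * |(ρ i j : ℝ)| ≤ 1 * (R0 : ℝ) :=
                  mul_le_mul (Int.fract_lt_one _).le (hρ' i j) (abs_nonneg _) zero_le_one
              _ = R0 := one_mul _
        _ = s * R0 := by
            rw [Finset.sum_const, Finset.card_univ, Fintype.card_fin, nsmul_eq_mul]
    have h4 := abs_le.1 h3
    have h5 : 0 ≤ Int.fract (x j) * (t : ℝ) := mul_nonneg (Int.fract_nonneg _) (Nat.cast_nonneg _)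
    have h6 : Int.fract (x j) * (t : ℝ) ≤ t := by
      calc Int.fract (x j) * (t : ℝ) ≤ 1 * (t : ℝ) :=
            mul_le_mul_of_nonneg_right (Int.fract_lt_one _).le (Nat.cast_nonneg _)
        _ = t := one_mul _
    constructor
    · have h7 : (0 : ℝ) ≤ ((U j - (⌊x j⌋ * t - ∑ i, ⌊x i⌋ * ρ i j) : ℤ) : ℝ) := by
        rw [e]; linarith [h4.2]
      exact_mod_cast h7
    · have h7 : ((U j - (⌊x j⌋ * t - ∑ i, ⌊x i⌋ * ρ i j) : ℤ) : ℝ) ≤
          ((t + 2 * s * R0 : ℤ) : ℝ) := by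
        rw [e]; push_cast; linarith [h4.1]
      exact_mod_cast h7
  refine ⟨fun j => ⌊x j⌋, fun j => (U j - (⌊x j⌋ * t - ∑ i, ⌊x i⌋ * ρ i j)).toNat,
    fun j => ?_, fun j => ?_⟩
  · have h1 := key j
    have h2 : (((U j - (⌊x j⌋ * t - ∑ i, ⌊x i⌋ * ρ i j)).toNat : ℕ) : ℤ) ≤
        ((t + 2 * s * R0 : ℕ) : ℤ) := by
      rw [Int.toNat_of_nonneg h1.1]
      push_cast
      exact h1.2
    exact_mod_cast h2
  · exact Int.toNat_of_nonneg (key j).1

end Pool.Agent.Lib.MP_ffcda7_coU
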