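import Pool.Agent.Lib.MP_ffcda7_coU.Van
import Pool.Agent.Lib.MP_ffcda7_coU.RedBox

set_option autoImplicit false

open Finset

namespace Pool.Agent.Lib.MP_ffcda7_coU

/-- Progressions in `ℤ/t^s` in general position. Proof: take `D`, `R0` from `vander`. `D` is
invertible in `ℤ/t^s`; let `θ = t / D` there, so `D θ = t` and `θ ^ s = 0` (as `D ^ s θ ^ s =
t ^ s = 0`). Put `w j = ∑_{k < s} j ^ k θ ^ k`. For an injective `e` and its `γ`,
`∑ i, γ k i * w (e i) = D θ ^ k` (1). So `t w (e i) = ∑_k (e i) ^ k D θ ^ (k + 1) =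
∑_{i'} ρ i i' w (e i')` with `ρ i i' = ∑_{k + 1 < s} (e i) ^ k γ (k + 1) i'`, and
`|ρ i i'| ≤ s m ^ s R0 =: R1` (2). Every `z` is `∑ U i w (e i)` with integers `U i`: by (1) for
`k = 0`, as `D` is invertible (`s = 0` is trivial). By (2) the value does not change if
`t e_i - ρ_i` is subtracted from `U`, so `reduce_box` gives `u` with `u i ≤ t + 2 s R1`; take
`R = 2 s R1 + 1`. -/
theorem generic (m s : ℕ) : ∃ D R : ℕ, 1 ≤ D ∧ ∀ t : ℕ, R ≤ t → Nat.Coprime t D →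
    ∃ w : Fin m → ZMod (t ^ s), ∀ e : Fin s → Fin m, Function.Injective e →
      ∀ z : ZMod (t ^ s), ∃ u : Fin s → ℕ, (∀ i, u i ≤ t + R) ∧
        z = ∑ i, (u i : ZMod (t ^ s)) * w (e i) := by
  obtain ⟨D, R0, hD, hV⟩ := vander m s
  obtain ⟨R1, hR1⟩ : ∃ R1 : ℕ, R1 = s * (m ^ s * R0) := ⟨_, rfl⟩
  refine ⟨D, 2 * (s * R1) + 1, hD, ?_⟩
  intro t ht hcop
  have hDu : Nat.Coprime D (t ^ s) := (Nat.Coprime.pow_left s hcop).symm
  obtain ⟨E, hE⟩ : ∃ E : ZMod (t ^ s), (D : ZMod (t ^ s)) * E = 1 := by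
    refine ⟨((ZMod.unitOfCoprime D hDu)⁻¹ : (ZMod (t ^ s))ˣ), ?_⟩
    have h1 := Units.mul_inv (ZMod.unitOfCoprime D hDu)
    rwa [ZMod.coe_unitOfCoprime] at h1
  obtain ⟨θ, hθ⟩ : ∃ θ : ZMod (t ^ s), θ = (t : ZMod (t ^ s)) * E := ⟨_, rfl⟩
  have hDθ : (D : ZMod (t ^ s)) * θ = t := by
    rw [hθ, mul_left_comm, hE, mul_one]
  have hθs : θ ^ s = 0 := by
    have h1 : (t : ZMod (t ^ s)) ^ s = 0 := by
      rw [← Nat.cast_pow]
      exact ZMod.natCast_self _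
    rw [hθ, mul_pow, h1, zero_mul]
  refine ⟨fun j => ∑ k : Fin s, ((j : ℕ) : ZMod (t ^ s)) ^ (k : ℕ) * θ ^ (k : ℕ), ?_⟩
  intro e he z
  obtain ⟨γ, hγ1, hγ2⟩ := hV e he
  obtain ⟨w, hw⟩ : ∃ w : Fin s → ZMod (t ^ s), ∀ i, w i =
      ∑ k : Fin s, ((e i : ℕ) : ZMod (t ^ s)) ^ (k : ℕ) * θ ^ (k : ℕ) := ⟨_, fun _ => rfl⟩
  simp only [← hw]
  -- (1)
  have key1 : ∀ k : Fin s, ∑ i, (γ k i : ZMod (t ^ s)) * w i =
      (D : ZMod (t ^ s)) * θ ^ (k : ℕ) := by
    intro k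
    have h1 : ∀ l : Fin s, ∑ i, (γ k i : ZMod (t ^ s)) * ((e i : ℕ) : ZMod (t ^ s)) ^ (l : ℕ) =
        if k = l then (D : ZMod (t ^ s)) else 0 := by
      intro l
      have h2 := congrArg (Int.cast : ℤ → ZMod (t ^ s)) (hγ2 k l)
      push_cast at h2
      exact h2
    calc ∑ i, (γ k i : ZMod (t ^ s)) * w i
        = ∑ i, ∑ l : Fin s, (γ k i : ZMod (t ^ s)) *
            (((e i : ℕ) : ZMod (t ^ s)) ^ (l : ℕ) * θ ^ (l : ℕ)) := by
          refine sum_congr rfl fun i _ => ?_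
          rw [hw, Finset.mul_sum]
      _ = ∑ l : Fin s, ∑ i, (γ k i : ZMod (t ^ s)) *
            (((e i : ℕ) : ZMod (t ^ s)) ^ (l : ℕ) * θ ^ (l : ℕ)) := Finset.sum_comm
      _ = ∑ l : Fin s, (if k = l then (D : ZMod (t ^ s)) else 0) * θ ^ (l : ℕ) := by
          refine sum_congr rfl fun l _ => ?_
          rw [← h1 l, Finset.sum_mul]
          exact sum_congr rfl fun i _ => by ring
      _ = (D : ZMod (t ^ s)) * θ ^ (k : ℕ) := by
          rw [Finset.sum_eq_single k]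
          · rw [if_pos rfl]
          · intro l _ hl
            rw [if_neg (Ne.symm hl), zero_mul]
          · intro h
            exact absurd (mem_univ _) h
  obtain ⟨ρ, hρ⟩ : ∃ ρ : Fin s → Fin s → ℤ, ∀ i i', ρ i i' = ∑ k : Fin s,
      if h : (k : ℕ) + 1 < s then ((e i : ℕ) : ℤ) ^ (k : ℕ) * γ ⟨(k : ℕ) + 1, h⟩ i' else 0 :=
    ⟨_, fun _ _ => rfl⟩
  have hρ1 : ∀ i, (t : ZMod (t ^ s)) * w i = ∑ i', (ρ i i' : ZMod (t ^ s)) * w i' := by
    intro i
    have h1 : ∀ k : Fin s,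
        (t : ZMod (t ^ s)) * (((e i : ℕ) : ZMod (t ^ s)) ^ (k : ℕ) * θ ^ (k : ℕ)) =
        ∑ i', ((if h : (k : ℕ) + 1 < s then
          ((e i : ℕ) : ℤ) ^ (k : ℕ) * γ ⟨(k : ℕ) + 1, h⟩ i' else 0 : ℤ) : ZMod (t ^ s)) * w i' := by
      intro k
      have h0 : (t : ZMod (t ^ s)) * (((e i : ℕ) : ZMod (t ^ s)) ^ (k : ℕ) * θ ^ (k : ℕ)) =
          ((e i : ℕ) : ZMod (t ^ s)) ^ (k : ℕ) * ((D : ZMod (t ^ s)) * θ ^ ((k : ℕ) + 1)) := by
        rw [← hDθ]
        ring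
      rw [h0]
      by_cases h : (k : ℕ) + 1 < s
      · have h2 := key1 ⟨(k : ℕ) + 1, h⟩
        rw [← h2, Finset.mul_sum]
        refine sum_congr rfl fun i' _ => ?_
        rw [dif_pos h]
        push_cast
        ring
      · have h3 : (k : ℕ) + 1 = s := by
          have := k.2
          omega
        have h4 : θ ^ ((k : ℕ) + 1) = 0 := by rw [h3, hθs]
        rw [h4, mul_zero, mul_zero]
        symm
        refine Finset.sum_eq_zero fun i' _ => ?_
        rw [dif_neg h, Int.cast_zero, zero_mul]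
    rw [hw i, Finset.mul_sum, sum_congr rfl fun k _ => h1 k, Finset.sum_comm]
    refine sum_congr rfl fun i' _ => ?_
    rw [← Finset.sum_mul, hρ, Int.cast_sum]
  have hρ2 : ∀ i i', |ρ i i'| ≤ (R1 : ℤ) := by
    intro i i'
    rw [hρ]
    have h1 : ∀ k : Fin s, |(if h : (k : ℕ) + 1 < s then
        ((e i : ℕ) : ℤ) ^ (k : ℕ) * γ ⟨(k : ℕ) + 1, h⟩ i' else 0 : ℤ)| ≤
        ((m ^ s * R0 : ℕ) : ℤ) := by
      intro k
      by_cases h : (k : ℕ) + 1 < s
      · rw [dif_pos h, abs_mul]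
        have hm : 0 < m := lt_of_le_of_lt (Nat.zero_le _) (e i).2
        have h2 : ((e i : ℕ)) ^ (k : ℕ) ≤ m ^ s :=
          (Nat.pow_le_pow_left (e i).2.le _).trans (Nat.pow_le_pow_right hm k.2.le)
        have h3 : |((e i : ℕ) : ℤ) ^ (k : ℕ)| ≤ ((m ^ s : ℕ) : ℤ) := by
          rw [abs_of_nonneg (by positivity)]
          exact_mod_cast h2
        push_cast
        refine mul_le_mul ?_ (hγ1 _ _) (abs_nonneg _) (by positivity)
        push_cast at h3
        exact h3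
      · rw [dif_neg h, abs_zero]
        positivity
    refine (Finset.abs_sum_le_sum_abs _ _).trans ((Finset.sum_le_sum fun k _ => h1 k).trans ?_)
    rw [Finset.sum_const, Finset.card_univ, Fintype.card_fin, nsmul_eq_mul, hR1]
    push_cast
    exact le_refl _
  rcases Nat.eq_zero_or_pos s with hs | hs
  · subst hs
    refine ⟨fun i => i.elim0, fun i => i.elim0, ?_⟩
    have hsub : Subsingleton (ZMod (t ^ 0)) := by
      rw [pow_zero]
      infer_instance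
    exact Subsingleton.elim _ _
  · obtain ⟨a, ha⟩ := ZMod.intCast_surjective (z * E)
    obtain ⟨U, hU⟩ : ∃ U : Fin s → ℤ, ∀ i, U i = a * γ ⟨0, hs⟩ i := ⟨_, fun _ => rfl⟩
    have hUz : ∑ i, (U i : ZMod (t ^ s)) * w i = z := by
      have h1 := key1 ⟨0, hs⟩
      have h2 : ∑ i, (U i : ZMod (t ^ s)) * w i =
          (a : ZMod (t ^ s)) * ∑ i, (γ ⟨0, hs⟩ i : ZMod (t ^ s)) * w i := by
        rw [Finset.mul_sum]
        refine sum_congr rfl fun i _ => ?_
        rw [hU]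
        push_cast
        ring
      rw [h2, h1, ha, pow_zero, mul_one, mul_assoc, mul_comm E, hE, mul_one]
    obtain ⟨c, u, hu1, hu2⟩ := reduce_box s R1 t (by omega) ρ hρ2 U
    refine ⟨u, fun i => (hu1 i).trans ?_, ?_⟩
    · have h1 : 2 * s * R1 = 2 * (s * R1) := by ring
      omega
    · have h5 : ∀ j, (u j : ZMod (t ^ s)) = (U j : ZMod (t ^ s)) -
          ((c j : ZMod (t ^ s)) * t - ∑ i, (c i : ZMod (t ^ s)) * (ρ i j : ZMod (t ^ s))) := by
        intro j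
        have h6 := congrArg (Int.cast : ℤ → ZMod (t ^ s)) (hu2 j)
        push_cast at h6
        exact h6
      have h6 : ∑ j, (∑ i, (c i : ZMod (t ^ s)) * (ρ i j : ZMod (t ^ s))) * w j =
          ∑ i, (c i : ZMod (t ^ s)) * (t * w i) := by
        calc ∑ j, (∑ i, (c i : ZMod (t ^ s)) * (ρ i j : ZMod (t ^ s))) * w j
            = ∑ j, ∑ i, (c i : ZMod (t ^ s)) * (ρ i j : ZMod (t ^ s)) * w j :=
              sum_congr rfl fun j _ => Finset.sum_mul _ _ _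
          _ = ∑ i, ∑ j, (c i : ZMod (t ^ s)) * (ρ i j : ZMod (t ^ s)) * w j := Finset.sum_comm
          _ = ∑ i, (c i : ZMod (t ^ s)) * (t * w i) := by
              refine sum_congr rfl fun i _ => ?_
              rw [hρ1, Finset.mul_sum]
              exact sum_congr rfl fun j _ => by ring
      have h7 : ∑ i, (u i : ZMod (t ^ s)) * w i = ∑ i, (U i : ZMod (t ^ s)) * w i -
          (∑ i, (c i : ZMod (t ^ s)) * (t * w i) -
            ∑ j, (∑ i, (c i : ZMod (t ^ s)) * (ρ i j : ZMod (t ^ s))) * w j) := by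
        rw [← Finset.sum_sub_distrib, ← Finset.sum_sub_distrib]
        refine sum_congr rfl fun i _ => ?_
        rw [h5]
        ring
      rw [h7, h6, sub_self, sub_zero, hUz]

end Pool.Agent.Lib.MP_ffcda7_coU
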