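import Pool.Agent.Lib.MP_ffcda7_coU.Defs

set_option autoImplicit false

open Finset

namespace Pool.Agent.Lib.MP_ffcda7_coU

private theorem greedyIn_sum {G : Type*} [AddCommGroup G] [Fintype G] [DecidableEq G]
    (V U : Finset G) : ∑ c : G, (V.filter fun x => x - c ∈ U).card = V.card * U.card := by
  have h1 : ∀ c : G, (V.filter fun x => x - c ∈ U).card = ∑ x ∈ V, if x - c ∈ U then 1 else 0 :=
    fun c => Finset.card_filter _ _
  simp only [h1]
  rw [Finset.sum_comm]
  have h2 : ∀ x ∈ V, (∑ c : G, if x - c ∈ U then 1 else 0) = U.card := by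
    intro x _
    rw [← Finset.card_filter]
    have h3 : (univ.filter fun c : G => x - c ∈ U) = U.map (Equiv.subLeft x).toEmbedding := by
      ext c
      simp only [mem_filter, mem_univ, true_and, mem_map_equiv, Equiv.subLeft_symm_apply]
      have h4 : -c + x = x - c := by abel
      rw [h4]
    rw [h3, Finset.card_map]
  rw [Finset.sum_congr rfl h2, Finset.sum_const, smul_eq_mul]

private theorem greedyIn_one {G : Type*} [AddCommGroup G] [Fintype G] [DecidableEq G]
    (V U : Finset G) :
    ∃ c : G, Fintype.card G * (V.filter fun x => x - c ∈ U).card ≤ V.card * U.card := by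
  have h1 : ∑ c : G, Fintype.card G * (V.filter fun x => x - c ∈ U).card ≤
      ∑ _c : G, V.card * U.card := by
    rw [← Finset.mul_sum, greedyIn_sum, Finset.sum_const, smul_eq_mul, Finset.card_univ]
  obtain ⟨c, -, hc⟩ := Finset.exists_le_of_sum_le (Finset.univ_nonempty (α := G)) h1
  exact ⟨c, hc⟩

/-- Proof: induction on `k` (compare `greedy` in `Greedy.lean` and `dbl_one` in `Dbl.lean`): the sum
over `c` of the number of the `x` in `V'` with `x - c` in `U` is `|V'| |U|`. -/
theorem greedy_in {G : Type*} [AddCommGroup G] [Fintype G] [DecidableEq G] (V U : Finset G)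
    (k : ℕ) : ∃ c : Fin k → G, Fintype.card G ^ k *
      (V.filter fun x => ∀ i, x - c i ∈ U).card ≤ V.card * U.card ^ k := by
  induction k with
  | zero =>
    refine ⟨fun i => i.elim0, ?_⟩
    rw [pow_zero, pow_zero, one_mul, mul_one]
    exact card_le_card (filter_subset _ _)
  | succ k ih =>
    obtain ⟨b, hb⟩ := ih
    obtain ⟨c, hc⟩ := greedyIn_one (V.filter fun x : G => ∀ i, x - b i ∈ U) U
    refine ⟨Fin.snoc b c, ?_⟩
    have h1 : (V.filter fun x : G => ∀ i : Fin (k + 1), x - (Fin.snoc b c : Fin (k + 1) → G) i ∈ U) =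
        (V.filter fun x : G => ∀ i, x - b i ∈ U).filter fun x => x - c ∈ U := by
      ext x
      rw [mem_filter, mem_filter, mem_filter, Fin.forall_fin_succ']
      simp only [Fin.snoc_castSucc, Fin.snoc_last, and_assoc]
    rw [h1, pow_succ, pow_succ, mul_assoc, ← mul_assoc V.card]
    refine (Nat.mul_le_mul_left _ hc).trans ?_
    rw [← mul_assoc]
    exact Nat.mul_le_mul_right _ hb

/-- Proof: induction on `j` with `greedy_in` for `V = U = E`, the set of stage `j` (compare `dbl` in
`Dbl.lean`, the case `k = 1`); `Option.elim (h t) 0 (c t)` is `0` or one of the `k` elements of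
the stage `t`. -/
theorem dbl_gen {G : Type*} [AddCommGroup G] [Fintype G] [DecidableEq G] (U : Finset G)
    (k j : ℕ) : ∃ c : Fin j → Fin k → G, Fintype.card G ^ ((k + 1) ^ j - 1) *
      (univ.filter fun x : G => ∀ h : Fin j → Option (Fin k),
        x - ∑ t, (h t).elim 0 (c t) ∈ U).card ≤ U.card ^ ((k + 1) ^ j) := by
  induction j with
  | zero =>
    refine ⟨fun i => i.elim0, ?_⟩
    rw [pow_zero, pow_one, Nat.sub_self, pow_zero, one_mul]
    refine Finset.card_le_card fun x hx => ?_
    have h := (Finset.mem_filter.1 hx).2 (fun i => i.elim0)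
    rwa [Finset.univ_eq_empty, Finset.sum_empty, sub_zero] at h
  | succ j ih =>
    obtain ⟨c, hc⟩ := ih
    obtain ⟨E, hE⟩ : ∃ E : Finset G,
        E = univ.filter fun x : G => ∀ h : Fin j → Option (Fin k),
          x - ∑ t, (h t).elim 0 (c t) ∈ U := ⟨_, rfl⟩
    rw [← hE] at hc
    obtain ⟨d, hd⟩ := greedy_in E E k
    refine ⟨Fin.cons d c, ?_⟩
    have hsub : (univ.filter fun x : G => ∀ h : Fin (j + 1) → Option (Fin k),
        x - ∑ t, (h t).elim 0 ((Fin.cons d c : Fin (j + 1) → Fin k → G) t) ∈ U) ⊆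
          E.filter fun x => ∀ i, x - d i ∈ E := by
      intro x hx
      have h := (Finset.mem_filter.1 hx).2
      rw [Finset.mem_filter, hE, Finset.mem_filter]
      refine ⟨⟨mem_univ _, fun g => ?_⟩, fun i => ?_⟩
      · have h1 := h (Fin.cons none g)
        rw [Fin.sum_univ_succ] at h1
        simpa using h1
      · rw [Finset.mem_filter]
        refine ⟨mem_univ _, fun g => ?_⟩
        have h1 := h (Fin.cons (some i) g)
        rw [Fin.sum_univ_succ] at h1
        simp only [Fin.cons_zero, Fin.cons_succ, Option.elim_some] at h1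
        have h2 : x - d i - ∑ t, (g t).elim 0 (c t) = x - (d i + ∑ t, (g t).elim 0 (c t)) := by
          abel
        rw [h2]
        exact h1
    have hle := Finset.card_le_card hsub
    have hpos : 1 ≤ (k + 1) ^ j := Nat.one_le_pow _ _ (Nat.succ_pos k)
    have he : (k + 1) ^ (j + 1) - 1 = ((k + 1) ^ j - 1) * (k + 1) + k := by
      obtain ⟨q, hq⟩ : ∃ q, (k + 1) ^ j = q + 1 := ⟨(k + 1) ^ j - 1, by omega⟩
      rw [pow_succ, hq, Nat.add_sub_cancel]
      have : (q + 1) * (k + 1) = q * (k + 1) + k + 1 := by ring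
      rw [this, Nat.add_sub_cancel]
    calc Fintype.card G ^ ((k + 1) ^ (j + 1) - 1) *
          (univ.filter fun x : G => ∀ h : Fin (j + 1) → Option (Fin k),
            x - ∑ t, (h t).elim 0 ((Fin.cons d c : Fin (j + 1) → Fin k → G) t) ∈ U).card
        ≤ Fintype.card G ^ ((k + 1) ^ (j + 1) - 1) * (E.filter fun x => ∀ i, x - d i ∈ E).card :=
          Nat.mul_le_mul_left _ hle
      _ = (Fintype.card G ^ ((k + 1) ^ j - 1)) ^ (k + 1) *
          (Fintype.card G ^ k * (E.filter fun x => ∀ i, x - d i ∈ E).card) := by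
          rw [he, pow_add, pow_mul, mul_assoc]
      _ ≤ (Fintype.card G ^ ((k + 1) ^ j - 1)) ^ (k + 1) * (E.card * E.card ^ k) :=
          Nat.mul_le_mul_left _ hd
      _ = (Fintype.card G ^ ((k + 1) ^ j - 1) * E.card) ^ (k + 1) := by
          rw [mul_pow, pow_succ' E.card k]
      _ ≤ (U.card ^ ((k + 1) ^ j)) ^ (k + 1) := Nat.pow_le_pow_left hc (k + 1)
      _ = U.card ^ ((k + 1) ^ (j + 1)) := by rw [← pow_mul, pow_succ]

end Pool.Agent.Lib.MP_ffcda7_coU
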