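import Pool.Agent.Lib.MP_ffcda7_coU.Large
import Pool.Agent.Lib.MP_ffcda7_coU.GreedyIn

set_option autoImplicit false

open Finset

namespace Pool.Agent.Lib.MP_ffcda7_coU

open Pool.Agent.Lib.MP_ffcda7_co (FB HasBasis f g)

/-- Proof: as `FB_all` in `Main.lean`: `exists_large` gives `|U| ≤ 7 n / 8` for the complement `U`
of the set of the values, `dbl_gen` with `K = (k + 1) ^ j`; a point not covered would give
`8 ^ K ≤ n 7 ^ K`, but `2 * 7 ^ 6 < 8 ^ 6`, `n ≤ 2 ^ L`, `K ≥ 6 L`, `K ≥ 1`. -/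
theorem FB_iter (m s k j L n : ℕ) (hn1 : 1 ≤ n) (hm : 3 ≤ m) (hn : n ≤ (m + s).choose m)
    (hL : n ≤ 2 ^ L) (hj : 6 * L ≤ (k + 1) ^ j) : FB (ZMod n) (m + j * k) (s + j) := by
  have : NeZero n := ⟨by omega⟩
  obtain ⟨a, ha⟩ := exists_large m s n hm hn
  obtain ⟨c, hc⟩ := dbl_gen (((Simp m s).image fun c => ∑ i, (c i : ZMod n) * a i)ᶜ) k j
  have hcard : Fintype.card (ZMod n) = n := ZMod.card n
  have hU : 8 * (((Simp m s).image fun c => ∑ i, (c i : ZMod n) * a i)ᶜ).card ≤ 7 * n := by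
    rw [card_compl, hcard]
    omega
  rw [hcard] at hc
  obtain ⟨K, hK⟩ : ∃ K, K = (k + 1) ^ j := ⟨_, rfl⟩
  have hKpos : 1 ≤ K := by
    rw [hK]
    exact Nat.one_le_pow _ _ (Nat.succ_pos k)
  rw [← hK] at hc hj
  have hW : ∀ x : ZMod n, ¬ ∀ h : Fin j → Option (Fin k), x - ∑ t, (h t).elim 0 (c t) ∈
      (((Simp m s).image fun c => ∑ i, (c i : ZMod n) * a i)ᶜ) := by
    intro x hx
    have h1 : 1 ≤ (univ.filter fun x : ZMod n => ∀ h : Fin j → Option (Fin k),
        x - ∑ t, (h t).elim 0 (c t) ∈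
        (((Simp m s).image fun c => ∑ i, (c i : ZMod n) * a i)ᶜ)).card :=
      card_pos.2 ⟨x, mem_filter.2 ⟨mem_univ _, hx⟩⟩
    have h2 : n ^ (K - 1) ≤
        (((Simp m s).image fun c => ∑ i, (c i : ZMod n) * a i)ᶜ).card ^ K := by
      refine le_trans ?_ hc
      calc n ^ (K - 1) = n ^ (K - 1) * 1 := (mul_one _).symm
        _ ≤ _ := Nat.mul_le_mul_left _ h1
    have h4 : 8 ^ K * n ^ (K - 1) ≤ (7 ^ K * n) * n ^ (K - 1) := by
      calc 8 ^ K * n ^ (K - 1) ≤ 8 ^ K *
            (((Simp m s).image fun c => ∑ i, (c i : ZMod n) * a i)ᶜ).card ^ K :=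
            Nat.mul_le_mul_left _ h2
        _ = (8 * (((Simp m s).image fun c => ∑ i, (c i : ZMod n) * a i)ᶜ).card) ^ K :=
            (mul_pow _ _ _).symm
        _ ≤ (7 * n) ^ K := Nat.pow_le_pow_left hU _
        _ = 7 ^ K * n ^ K := mul_pow _ _ _
        _ = (7 ^ K * n) * n ^ (K - 1) := by
            rw [mul_assoc, ← pow_succ', Nat.sub_add_cancel hKpos]
    have h5 : 8 ^ K ≤ 7 ^ K * n :=
      Nat.le_of_mul_le_mul_right h4 (pow_pos (by omega) _)
    have h6 : 8 ^ K ≤ 7 ^ K * 2 ^ L := h5.trans (Nat.mul_le_mul_left _ hL)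
    obtain ⟨q, hq⟩ := Nat.exists_eq_add_of_le hj
    have h7 : 7 ^ K * 2 ^ L = (7 ^ 6 * 2) ^ L * 7 ^ q := by
      rw [hq, pow_add, pow_mul, mul_pow]
      ring
    have h8 : 8 ^ K = (8 ^ 6) ^ L * 8 ^ q := by
      rw [hq, pow_add, pow_mul]
    rw [h7, h8] at h6
    have h9 : (7 ^ 6 * 2) ^ L ≤ (8 ^ 6) ^ L := Nat.pow_le_pow_left (by norm_num) _
    have h10 : 7 ^ q ≤ 8 ^ q := Nat.pow_le_pow_left (by norm_num) _
    rcases Nat.eq_zero_or_pos L with h0 | h0
    · have hq1 : q ≠ 0 := by omega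
      have h11 : 7 ^ q < 8 ^ q := Nat.pow_lt_pow_left (by norm_num) hq1
      rw [h0, pow_zero, pow_zero, one_mul, one_mul] at h6
      exact absurd h6 (not_le.2 h11)
    · have h11 : (7 ^ 6 * 2) ^ L < (8 ^ 6) ^ L := Nat.pow_lt_pow_left (by norm_num) (by omega)
      have h12 : (7 ^ 6 * 2) ^ L * 7 ^ q < (8 ^ 6) ^ L * 8 ^ q :=
        lt_of_lt_of_le (Nat.mul_lt_mul_of_pos_right h11 (pow_pos (by norm_num) _))
          (Nat.mul_le_mul_left _ h10)
      exact absurd h6 (not_le.2 h12)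
  refine ⟨Fin.append a (fun q : Fin (j * k) => c (finProdFinEquiv.symm q).1
    (finProdFinEquiv.symm q).2), fun y => ?_⟩
  obtain ⟨h, hh⟩ := not_forall.1 (hW y)
  rw [mem_compl, not_not, mem_image] at hh
  obtain ⟨b, hb, hby⟩ := hh
  refine ⟨Fin.append b fun q : Fin (j * k) =>
    if h (finProdFinEquiv.symm q).1 = some (finProdFinEquiv.symm q).2 then 1 else 0, ?_, ?_⟩
  · rw [Fin.sum_univ_add]
    simp only [Fin.append_left, Fin.append_right]
    refine add_le_add (mem_Simp.1 hb) ?_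
    rw [Equiv.sum_comp finProdFinEquiv.symm
      (fun p : Fin j × Fin k => if h p.1 = some p.2 then 1 else 0), Fintype.sum_prod_type]
    calc ∑ t : Fin j, ∑ i : Fin k, (if h t = some i then 1 else 0)
        ≤ ∑ _t : Fin j, 1 := by
          refine sum_le_sum fun t _ => ?_
          rcases ht : h t with _ | i0
          · simp
          · rw [← card_filter]
            refine (card_le_one.2 ?_)
            intro x hx y hy
            have h1 := (mem_filter.1 hx).2
            have h2 := (mem_filter.1 hy).2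
            exact Option.some.inj (h1.symm.trans h2)
      _ = j := by simp
  · rw [Fin.sum_univ_add]
    simp only [Fin.append_left, Fin.append_right]
    have h1 : ∑ t : Fin m, ((b t : ℕ) : ℤ) • a t = ∑ t, (b t : ZMod n) * a t := by
      refine sum_congr rfl fun t _ => ?_
      rw [natCast_zsmul, nsmul_eq_mul]
    have h2 : ∑ q : Fin (j * k), (((if h (finProdFinEquiv.symm q).1 =
        some (finProdFinEquiv.symm q).2 then 1 else 0 : ℕ) : ℤ)) •
          c (finProdFinEquiv.symm q).1 (finProdFinEquiv.symm q).2 =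
        ∑ t, (h t).elim 0 (c t) := by
      rw [Equiv.sum_comp finProdFinEquiv.symm
        (fun p : Fin j × Fin k => (((if h p.1 = some p.2 then 1 else 0 : ℕ) : ℤ)) • c p.1 p.2),
        Fintype.sum_prod_type]
      refine sum_congr rfl fun t _ => ?_
      rcases ht : h t with _ | i0
      · simp [ht]
      · rw [Option.elim_some, sum_eq_single i0]
        · simp [ht]
        · intro i _ hi
          have h3 : ¬ (h t = some i) := fun h4 => hi (Option.some.inj (ht.symm.trans h4)).symm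
          simp [h3]
        · intro h3
          exact absurd (mem_univ _) h3
    rw [h1, h2, hby, sub_add_cancel]

theorem main2 (m s k j L : ℕ) (hm : 3 ≤ m) (hj : 6 * L ≤ (k + 1) ^ j) :
    min ((m + s).choose m) (2 ^ L) ≤ g (m + j * k) (s + j) := by
  refine Pool.Agent.Lib.MP_ffcda7_co.le_g fun n hn1 hn => ?_
  exact Pool.Agent.Lib.MP_ffcda7_co.HasBasis_of_FB
    (FB_iter m s k j L n hn1 hm (hn.trans (min_le_left _ _)) (hn.trans (min_le_right _ _)) hj)

end Pool.Agent.Lib.MP_ffcda7_coU
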