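import Pool.Agent.Lib.MP_ffcda7_coU.Defs

set_option autoImplicit false

open Finset

namespace Pool.Agent.Lib.MP_ffcda7_coU

/-- The number of the solutions of a linear equation in `ℤ/n`. Proof: let `H` be the range of the
homomorphism `a ↦ ∑ δ i * a i` and `d = n / |H|`. The kernel has `n ^ m / |H|` elements. `H`
contains the classes of the `δ i`, so `|H| δ i = 0` in `ℤ/n` and `d ∣ δ i`. -/
theorem ker_card (m n : ℕ) [NeZero n] (δ : Fin m → ℤ) :
    ∃ d : ℕ, 1 ≤ d ∧ d ≤ n ∧ (∀ i, (d : ℤ) ∣ δ i) ∧
      n * (univ.filter fun a : Fin m → ZMod n => ∑ i, (δ i : ZMod n) * a i = 0).card =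
        n ^ m * d := by
  classical
  have hn : 0 < n := Nat.pos_of_ne_zero (NeZero.ne n)
  let φ : (Fin m → ZMod n) →+ ZMod n :=
    { toFun := fun a => ∑ i, (δ i : ZMod n) * a i
      map_zero' := by simp
      map_add' := fun a b => by simp [mul_add, Finset.sum_add_distrib] }
  have hφ : ∀ a, φ a = ∑ i, (δ i : ZMod n) * a i := fun a => rfl
  -- orders
  have h1 : Nat.card φ.ker * Nat.card φ.range = n ^ m := by
    have h := AddSubgroup.card_eq_card_quotient_mul_card_addSubgroup φ.ker
    rw [Nat.card_congr (QuotientAddGroup.quotientKerEquivRange φ).toEquiv] at h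
    rw [mul_comm, ← h]
    simp
  have h2 : Nat.card φ.range ∣ n := by
    have h := AddSubgroup.card_addSubgroup_dvd_card φ.range
    simpa using h
  obtain ⟨d, hd⟩ := h2
  have hH : 0 < Nat.card φ.range := Nat.card_pos
  have hd0 : 0 < d := by
    rcases Nat.eq_zero_or_pos d with h | h
    · rw [h, mul_zero] at hd; omega
    · exact h
  refine ⟨d, hd0, ?_, ?_, ?_⟩
  · calc d = 1 * d := (one_mul d).symm
      _ ≤ Nat.card φ.range * d := Nat.mul_le_mul_right d hH
      _ = n := hd.symm
  · intro i
    have hm : ((δ i : ℤ) : ZMod n) ∈ φ.range := by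
      refine ⟨Pi.single i 1, ?_⟩
      rw [hφ, Finset.sum_eq_single i]
      · simp
      · intro j _ hj
        simp [Pi.single_eq_of_ne hj]
      · intro h; exact absurd (Finset.mem_univ i) h
    have h3 : Nat.card φ.range • ((δ i : ℤ) : ZMod n) = 0 := by
      have h := card_nsmul_eq_zero' (G := φ.range) (x := ⟨_, hm⟩)
      have h' := congrArg Subtype.val h
      simpa using h'
    have h4 : (((Nat.card φ.range : ℤ) * δ i : ℤ) : ZMod n) = 0 := by
      rw [nsmul_eq_mul] at h3
      push_cast
      exact h3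
    rw [ZMod.intCast_zmod_eq_zero_iff_dvd] at h4
    have h5 : (Nat.card φ.range : ℤ) * (d : ℤ) ∣ (Nat.card φ.range : ℤ) * δ i := by
      have : (n : ℤ) = (Nat.card φ.range : ℤ) * (d : ℤ) := by exact_mod_cast hd
      rwa [this] at h4
    exact (mul_dvd_mul_iff_left (by exact_mod_cast hH.ne')).1 h5
  · have h6 : (univ.filter fun a : Fin m → ZMod n => ∑ i, (δ i : ZMod n) * a i = 0).card =
        Nat.card φ.ker := by
      rw [Nat.card_eq_fintype_card, Fintype.card_subtype]
      refine congrArg Finset.card (Finset.filter_congr fun a _ => ?_)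
      rw [AddMonoidHom.mem_ker, hφ]
    rw [h6, ← h1]
    calc n * Nat.card φ.ker = (Nat.card φ.range * d) * Nat.card φ.ker := by rw [← hd]
      _ = Nat.card φ.ker * Nat.card φ.range * d := by ring

end Pool.Agent.Lib.MP_ffcda7_coU
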