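import Pool.Agent.Lib.MP_ffcda7_coU.Cnt
import Pool.Agent.Lib.MP_ffcda7_coU.CntB
import Pool.Agent.Lib.MP_ffcda7_coU.Ker

set_option autoImplicit false

open Finset

namespace Pool.Agent.Lib.MP_ffcda7_coU

/-- `sum_pairs` for all `n`. -/
theorem sum_pairs_all (m s n : ℕ) [NeZero n] (hm : 3 ≤ m) :
    n * ∑ a : Fin m → ZMod n, ((Simp m s ×ˢ Simp m s).filter fun q =>
      ∑ i, (q.1 i : ZMod n) * a i = ∑ i, (q.2 i : ZMod n) * a i).card ≤
      n ^ m * (7 * (m + s).choose m ^ 2 + (m + s).choose m * n) := by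
  classical
  have hS : (Simp m s).card = (m + s).choose m := card_Simp m s
  set S := Simp m s with hSdef
  set N := (m + s).choose m with hN
  choose D hD1 hDn hDd hDc using fun δ : Fin m → ℤ => ker_card m n δ
  have h1 : ∑ a : Fin m → ZMod n, ((S ×ˢ S).filter fun q =>
      ∑ i, (q.1 i : ZMod n) * a i = ∑ i, (q.2 i : ZMod n) * a i).card =
      ∑ q ∈ S ×ˢ S, (univ.filter fun a : Fin m → ZMod n =>
        ∑ i, (q.1 i : ZMod n) * a i = ∑ i, (q.2 i : ZMod n) * a i).card := by
    simp only [Finset.card_filter]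
    rw [Finset.sum_comm]
  have h2 : ∀ q ∈ S ×ˢ S, n * (univ.filter fun a : Fin m → ZMod n =>
        ∑ i, (q.1 i : ZMod n) * a i = ∑ i, (q.2 i : ZMod n) * a i).card =
      n ^ m * D (fun i => (q.1 i : ℤ) - q.2 i) := by
    intro q _
    rw [← hDc]
    congr 2
    refine Finset.filter_congr fun a _ => ?_
    have h3 : ∑ i, (((q.1 i : ℤ) - q.2 i : ℤ) : ZMod n) * a i =
        ∑ i, (q.1 i : ZMod n) * a i - ∑ i, (q.2 i : ZMod n) * a i := by
      rw [← Finset.sum_sub_distrib]
      refine Finset.sum_congr rfl fun i _ => ?_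
      push_cast
      ring
    rw [h3, sub_eq_zero]
  rw [h1, Finset.mul_sum, Finset.sum_congr rfl h2, ← Finset.mul_sum]
  refine Nat.mul_le_mul_left _ ?_
  have h3 : ∀ q ∈ S ×ˢ S, D (fun i => (q.1 i : ℤ) - q.2 i) ≤
      1 + (∑ d ∈ Icc 2 s, if (∀ i, q.2 i % d = q.1 i % d) then d else 0) +
        (if q.1 = q.2 then n else 0) := by
    intro q hq
    obtain ⟨hq1, hq2⟩ := mem_product.1 hq
    have hb : ∀ c ∈ S, ∀ i, c i ≤ s := by
      intro c hc i
      have h4 := mem_Simp.1 hc
      have h5 : c i ≤ ∑ i, c i := single_le_sum (f := c) (fun i _ => Nat.zero_le _) (mem_univ i)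
      omega
    have hd := hDd (fun i => (q.1 i : ℤ) - q.2 i)
    have hd1 := hD1 (fun i => (q.1 i : ℤ) - q.2 i)
    have hdn := hDn (fun i => (q.1 i : ℤ) - q.2 i)
    generalize D (fun i => (q.1 i : ℤ) - q.2 i) = d at hd hd1 hdn
    rcases Nat.lt_or_ge d 2 with h4 | h4
    · have : d ≤ 1 := by omega
      exact this.trans ((Nat.le_add_right _ _).trans (Nat.le_add_right _ _))
    · rcases Nat.lt_or_ge s d with h5 | h5
      · have h6 : q.1 = q.2 := by
          funext i
          have h7 := hd i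
          have h8 := hb q.1 hq1 i
          have h9 := hb q.2 hq2 i
          have h10 : ((q.1 i : ℤ) - q.2 i) = 0 := by
            refine Int.eq_zero_of_abs_lt_dvd h7 ?_
            rw [abs_lt]
            constructor <;> omega
          omega
        rw [if_pos h6]
        omega
      · have h6 : ∀ i, q.2 i % d = q.1 i % d := by
          intro i
          exact (Nat.modEq_iff_dvd.2 (hd i))
        have h7 : d ∈ Icc 2 s := mem_Icc.2 ⟨h4, h5⟩
        have h8 : (if (∀ i, q.2 i % d = q.1 i % d) then d else 0) ≤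
            ∑ d ∈ Icc 2 s, if (∀ i, q.2 i % d = q.1 i % d) then d else 0 :=
          single_le_sum (f := fun d => if (∀ i, q.2 i % d = q.1 i % d) then d else 0)
            (fun _ _ => Nat.zero_le _) h7
        rw [if_pos h6] at h8
        omega
  refine (Finset.sum_le_sum h3).trans ?_
  rw [Finset.sum_add_distrib, Finset.sum_add_distrib]
  have e1 : ∑ _q ∈ S ×ˢ S, 1 = N * N := by
    rw [Finset.sum_const, Finset.card_product, hS, smul_eq_mul, mul_one]
  have e2 : ∑ q ∈ S ×ˢ S, (∑ d ∈ Icc 2 s, if (∀ i, q.2 i % d = q.1 i % d) then d else 0) ≤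
      N * (6 * N) := by
    rw [Finset.sum_comm]
    calc ∑ d ∈ Icc 2 s, ∑ q ∈ S ×ˢ S, (if (∀ i, q.2 i % d = q.1 i % d) then d else 0)
        ≤ ∑ d ∈ Icc 2 s, N * (d * (m + s / d).choose m) := by
          refine Finset.sum_le_sum fun d hd => ?_
          rw [Finset.sum_product]
          calc ∑ c ∈ S, ∑ c' ∈ S, (if (∀ i, c' i % d = c i % d) then d else 0)
              ≤ ∑ _c ∈ S, d * (m + s / d).choose m := by
                refine Finset.sum_le_sum fun c _ => ?_
                rw [← Finset.sum_filter, Finset.sum_const, smul_eq_mul, mul_comm]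
                refine Nat.mul_le_mul_left _ ?_
                exact card_Simp_mod m s d (by have := (mem_Icc.1 hd).1; omega) c
            _ = N * (d * (m + s / d).choose m) := by
                rw [Finset.sum_const, hS, smul_eq_mul]
      _ = N * ∑ d ∈ Icc 2 s, d * (m + s / d).choose m := by rw [Finset.mul_sum]
      _ ≤ N * (6 * N) := Nat.mul_le_mul_left _ (sum_choose_le m s hm)
  have e3 : ∑ q ∈ S ×ˢ S, (if q.1 = q.2 then n else 0) = N * n := by
    rw [Finset.sum_product]
    calc ∑ c ∈ S, ∑ c' ∈ S, (if c = c' then n else 0) = ∑ _c ∈ S, n := by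
          refine Finset.sum_congr rfl fun c hc => ?_
          rw [Finset.sum_ite_eq, if_pos hc]
      _ = N * n := by rw [Finset.sum_const, hS, smul_eq_mul]
  rw [e1, e3]
  nlinarith [e2]

/-- Some `a` has at least `min (n, N) / 8` values, `N = binom(m + s, m)`. -/
theorem exists_large_min (m s n : ℕ) [NeZero n] (hm : 3 ≤ m) :
    ∃ a : Fin m → ZMod n, min n ((m + s).choose m) ≤
      8 * ((Simp m s).image fun c => ∑ i, (c i : ZMod n) * a i).card := by
  classical
  have hS : (Simp m s).card = (m + s).choose m := card_Simp m s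
  have hsp := sum_pairs_all m s n hm
  have hNpos : 0 < (m + s).choose m := Nat.choose_pos (Nat.le_add_right _ _)
  obtain ⟨a, ha⟩ : ∃ a : Fin m → ZMod n, n * ((Simp m s ×ˢ Simp m s).filter fun q =>
      ∑ i, (q.1 i : ZMod n) * a i = ∑ i, (q.2 i : ZMod n) * a i).card ≤
      7 * (m + s).choose m ^ 2 + (m + s).choose m * n := by
    by_contra hcon
    push Not at hcon
    have h1 : ∑ _a : Fin m → ZMod n, (7 * (m + s).choose m ^ 2 + (m + s).choose m * n) <
        ∑ a : Fin m → ZMod n, n * ((Simp m s ×ˢ Simp m s).filter fun q =>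
          ∑ i, (q.1 i : ZMod n) * a i = ∑ i, (q.2 i : ZMod n) * a i).card :=
      Finset.sum_lt_sum_of_nonempty univ_nonempty fun a _ => hcon a
    rw [Finset.sum_const, Finset.card_univ, Fintype.card_fun, ZMod.card, Fintype.card_fin,
      smul_eq_mul, ← Finset.mul_sum] at h1
    omega
  refine ⟨a, ?_⟩
  set f : (Fin m → ℕ) → ZMod n := fun c => ∑ i, (c i : ZMod n) * a i with hf
  have h1 : (Simp m s).card = ∑ b ∈ (Simp m s).image f, ((Simp m s).filter fun c => f c = b).card :=
    Finset.card_eq_sum_card_image f (Simp m s)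
  have h2 : ((Simp m s ×ˢ Simp m s).filter fun q => f q.1 = f q.2).card =
      ∑ b ∈ (Simp m s).image f, ((Simp m s).filter fun c => f c = b).card ^ 2 := by
    rw [Finset.card_eq_sum_card_fiberwise (f := fun q : (Fin m → ℕ) × (Fin m → ℕ) => f q.1)
      (t := (Simp m s).image f)]
    · refine Finset.sum_congr rfl fun b _ => ?_
      rw [sq, ← Finset.card_product]
      congr 1
      ext q
      simp only [Finset.mem_filter, Finset.mem_product]
      constructor
      · rintro ⟨⟨⟨h3, h4⟩, h5⟩, h6⟩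
        exact ⟨⟨h3, h6⟩, h4, h5 ▸ h6⟩
      · rintro ⟨⟨h3, h4⟩, h5, h6⟩
        exact ⟨⟨⟨h3, h5⟩, h4.trans h6.symm⟩, h4⟩
    · intro q hq
      have h3 := (Finset.mem_filter.1 hq).1
      exact Finset.mem_coe.2 (Finset.mem_image_of_mem f (Finset.mem_product.1 h3).1)
  have h3 : (m + s).choose m ^ 2 ≤ ((Simp m s).image f).card *
      ((Simp m s ×ˢ Simp m s).filter fun q => f q.1 = f q.2).card := by
    rw [h2, ← hS, h1]
    exact sq_sum_le_card_mul_sum_sq
  have ha' : n * ((Simp m s ×ˢ Simp m s).filter fun q => f q.1 = f q.2).card ≤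
      7 * (m + s).choose m ^ 2 + (m + s).choose m * n := ha
  set N := (m + s).choose m with hN
  set I := ((Simp m s).image f).card with hI
  have h4 : n * N ≤ I * (7 * N + n) := by
    have h5 : (n * N) * N ≤ (I * (7 * N + n)) * N := by
      calc (n * N) * N = n * N ^ 2 := by ring
        _ ≤ n * (I * ((Simp m s ×ˢ Simp m s).filter fun q => f q.1 = f q.2).card) :=
            Nat.mul_le_mul_left _ h3
        _ = I * (n * ((Simp m s ×ˢ Simp m s).filter fun q => f q.1 = f q.2).card) := by ring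
        _ ≤ I * (7 * N ^ 2 + N * n) := Nat.mul_le_mul_left _ ha'
        _ = (I * (7 * N + n)) * N := by ring
    exact Nat.le_of_mul_le_mul_right h5 hNpos
  have hn0 : 0 < n := Nat.pos_of_ne_zero (NeZero.ne n)
  rcases le_total n N with h5 | h5
  · rw [min_eq_left h5]
    have h6 : n * N ≤ (8 * I) * N := by
      calc n * N ≤ I * (7 * N + n) := h4
        _ ≤ I * (7 * N + N) := Nat.mul_le_mul_left _ (by omega)
        _ = (8 * I) * N := by ring
    exact Nat.le_of_mul_le_mul_right h6 hNpos
  · rw [min_eq_right h5]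
    have h6 : N * n ≤ (8 * I) * n := by
      calc N * n = n * N := Nat.mul_comm _ _
        _ ≤ I * (7 * N + n) := h4
        _ ≤ I * (7 * n + n) := Nat.mul_le_mul_left _ (by omega)
        _ = (8 * I) * n := by ring
    exact Nat.le_of_mul_le_mul_right h6 hn0

end Pool.Agent.Lib.MP_ffcda7_coU
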