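import Pool.Agent.Lib.MP_ffcda7_coU.Large
import Pool.Agent.Lib.MP_ffcda7_coU.Dbl

set_option autoImplicit false

open Finset

namespace Pool.Agent.Lib.MP_ffcda7_coU

open Pool.Agent.Lib.MP_ffcda7_co (FB HasBasis f g)

/-- Every `ℤ/n` with `n ≤ binom(m + s, m)` and `n ≤ 2 ^ 2 ^ i` has an `(s + i + 3)`-basis with
`m + i + 3` elements. Proof: take `a` from `exists_large`, `S` the set of its values and `U` the
complement, `|U| ≤ 7 n / 8`; take `c` from `dbl` with `j = i + 3`. As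
`n ^ (2 ^ j - 1) * 1 ≤ (7 n / 8) ^ (2 ^ j)` would give `8 ^ (2 ^ j) ≤ n 7 ^ (2 ^ j)`, but
`7 ^ 8 * 2 < 8 ^ 8` and `n ≤ 2 ^ 2 ^ i`, the set of `x` in `dbl` is empty. So every `x` is
`∑ c' i a i + ∑_{t ∈ T} c t`. -/
theorem FB_all (m s i n : ℕ) (hn1 : 1 ≤ n) (hm : 3 ≤ m) (hn : n ≤ (m + s).choose m)
    (hi : n ≤ 2 ^ 2 ^ i) : FB (ZMod n) (m + (i + 3)) (s + (i + 3)) := by
  have : NeZero n := ⟨by omega⟩
  obtain ⟨a, ha⟩ := exists_large m s n hm hn
  obtain ⟨c, hc⟩ := dbl (((Simp m s).image fun c => ∑ i, (c i : ZMod n) * a i)ᶜ) (i + 3)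
  have hcard : Fintype.card (ZMod n) = n := ZMod.card n
  have hU : 8 * (((Simp m s).image fun c => ∑ i, (c i : ZMod n) * a i)ᶜ).card ≤ 7 * n := by
    rw [card_compl, hcard]
    omega
  rw [hcard] at hc
  have hW : ∀ x : ZMod n, ¬ ∀ T : Finset (Fin (i + 3)), x - ∑ t ∈ T, c t ∈
      (((Simp m s).image fun c => ∑ i, (c i : ZMod n) * a i)ᶜ) := by
    intro x hx
    have h1 : 1 ≤ (univ.filter fun x : ZMod n => ∀ T : Finset (Fin (i + 3)), x - ∑ t ∈ T, c t ∈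
        (((Simp m s).image fun c => ∑ i, (c i : ZMod n) * a i)ᶜ)).card :=
      card_pos.2 ⟨x, mem_filter.2 ⟨mem_univ _, hx⟩⟩
    have h2 : n ^ (2 ^ (i + 3) - 1) ≤
        (((Simp m s).image fun c => ∑ i, (c i : ZMod n) * a i)ᶜ).card ^ (2 ^ (i + 3)) := by
      refine le_trans ?_ hc
      calc n ^ (2 ^ (i + 3) - 1) = n ^ (2 ^ (i + 3) - 1) * 1 := (mul_one _).symm
        _ ≤ _ := Nat.mul_le_mul_left _ h1
    have hpos : 0 < 2 ^ (i + 3) := by positivity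
    have h3 : 2 ^ (i + 3) = 8 * 2 ^ i := by ring
    have h4 : 8 ^ (2 ^ (i + 3)) * n ^ (2 ^ (i + 3) - 1) ≤
        (7 ^ (2 ^ (i + 3)) * n) * n ^ (2 ^ (i + 3) - 1) := by
      calc 8 ^ (2 ^ (i + 3)) * n ^ (2 ^ (i + 3) - 1) ≤ 8 ^ (2 ^ (i + 3)) *
            (((Simp m s).image fun c => ∑ i, (c i : ZMod n) * a i)ᶜ).card ^ (2 ^ (i + 3)) :=
            Nat.mul_le_mul_left _ h2
        _ = (8 * (((Simp m s).image fun c => ∑ i, (c i : ZMod n) * a i)ᶜ).card) ^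
            (2 ^ (i + 3)) := (mul_pow _ _ _).symm
        _ ≤ (7 * n) ^ (2 ^ (i + 3)) := Nat.pow_le_pow_left hU _
        _ = 7 ^ (2 ^ (i + 3)) * n ^ (2 ^ (i + 3)) := mul_pow _ _ _
        _ = (7 ^ (2 ^ (i + 3)) * n) * n ^ (2 ^ (i + 3) - 1) := by
            rw [mul_assoc, ← pow_succ', Nat.sub_add_cancel hpos]
    have h5 : 8 ^ (2 ^ (i + 3)) ≤ 7 ^ (2 ^ (i + 3)) * n :=
      Nat.le_of_mul_le_mul_right h4 (pow_pos (by omega) _)
    have h6 : 8 ^ (2 ^ (i + 3)) ≤ 7 ^ (2 ^ (i + 3)) * 2 ^ 2 ^ i :=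
      h5.trans (Nat.mul_le_mul_left _ hi)
    rw [h3, pow_mul, pow_mul, ← mul_pow] at h6
    have h7 : (7 ^ 8 * 2) ^ 2 ^ i < (8 ^ 8) ^ 2 ^ i :=
      Nat.pow_lt_pow_left (by norm_num) (pow_pos (by norm_num) _).ne'
    exact absurd h6 (not_le.2 h7)
  refine ⟨Fin.append a c, fun y => ?_⟩
  obtain ⟨T, hT⟩ := not_forall.1 (hW y)
  rw [mem_compl, not_not, mem_image] at hT
  obtain ⟨b, hb, hby⟩ := hT
  refine ⟨Fin.append b fun t => if t ∈ T then 1 else 0, ?_, ?_⟩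
  · rw [Fin.sum_univ_add]
    simp only [Fin.append_left, Fin.append_right]
    refine add_le_add (mem_Simp.1 hb) ?_
    rw [sum_ite_mem, univ_inter, sum_const, smul_eq_mul, mul_one]
    exact (card_le_univ T).trans_eq (Fintype.card_fin _)
  · rw [Fin.sum_univ_add]
    simp only [Fin.append_left, Fin.append_right]
    have h1 : ∑ t : Fin m, ((b t : ℕ) : ℤ) • a t = ∑ t, (b t : ZMod n) * a t := by
      refine sum_congr rfl fun t _ => ?_
      rw [natCast_zsmul, nsmul_eq_mul]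
    have h2 : ∑ t : Fin (i + 3), (((if t ∈ T then 1 else 0 : ℕ) : ℤ)) • c t = ∑ t ∈ T, c t := by
      rw [← sum_filter_add_sum_filter_not univ (fun t => t ∈ T)]
      have h3 : ∑ t ∈ univ.filter (fun t => ¬ t ∈ T),
          (((if t ∈ T then 1 else 0 : ℕ) : ℤ)) • c t = 0 := by
        refine sum_eq_zero fun t ht => ?_
        rw [if_neg (mem_filter.1 ht).2]
        simp
      rw [h3, add_zero]
      have h4 : univ.filter (fun t => t ∈ T) = T := by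
        ext t
        simp
      rw [h4]
      refine sum_congr rfl fun t ht => ?_
      rw [if_pos ht]
      simp
    rw [h1, h2, hby, sub_add_cancel]

theorem main (m s i : ℕ) (hm : 3 ≤ m) :
    min ((m + s).choose m) (2 ^ 2 ^ i) ≤ g (m + (i + 3)) (s + (i + 3)) := by
  refine Pool.Agent.Lib.MP_ffcda7_co.le_g fun n hn1 hn => ?_
  exact Pool.Agent.Lib.MP_ffcda7_co.HasBasis_of_FB
    (FB_all m s i n hn1 hm (hn.trans (min_le_left _ _)) (hn.trans (min_le_right _ _)))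

end Pool.Agent.Lib.MP_ffcda7_coU
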