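import Pool.Agent.Lib.MP_ffcda7_coU.Defs

set_option autoImplicit false

open Finset

namespace Pool.Agent.Lib.MP_ffcda7_coU

private theorem PolyS_log {m s : ℕ} (hs : 1 ≤ s) (hsm : s ≤ m) :
    Nat.log 2 ((m + s).choose m) + 1 ≤ s * (Nat.log 2 m + 2) := by
  have h1 : (m + s).choose m ≤ (m + s) ^ s := by
    rw [Nat.choose_symm_add]
    exact Nat.choose_le_pow _ _
  have h2 : m < 2 ^ (Nat.log 2 m + 1) := Nat.lt_pow_succ_log_self (by norm_num) m
  have h3 : m + s < 2 ^ (Nat.log 2 m + 2) := by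
    rw [pow_succ]
    omega
  have h4 : (m + s) ^ s < 2 ^ (s * (Nat.log 2 m + 2)) := by
    rw [mul_comm, pow_mul]
    exact Nat.pow_lt_pow_left h3 (by omega)
  have h5 : (m + s).choose m ≠ 0 := (Nat.choose_pos (Nat.le_add_right m s)).ne'
  have h6 : Nat.log 2 ((m + s).choose m) < s * (Nat.log 2 m + 2) :=
    Nat.log_lt_of_lt_pow h5 (h1.trans_lt h4)
  omega

private theorem PolyS_pow1 (q : ℕ) : q * (q + 2) ≤ 2 ^ (q + 1) := by
  have h : ∀ q : ℕ, 2 ≤ q → 2 * q + 3 ≤ 2 ^ (q + 1) ∧ q * (q + 2) ≤ 2 ^ (q + 1) := by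
    intro q hq
    induction q, hq using Nat.le_induction with
    | base => norm_num
    | succ n hn ih =>
      obtain ⟨h1, h2⟩ := ih
      have h3 : 2 ^ (n + 1 + 1) = 2 * 2 ^ (n + 1) := by ring
      rw [h3]
      constructor
      · omega
      · nlinarith
  rcases Nat.lt_or_ge q 2 with h2 | h2
  · interval_cases q <;> norm_num
  · exact (h q h2).2

private theorem PolyS_bound {C m : ℕ} (h : m < C * (Nat.log 2 m + 2)) : m ≤ 2 ^ (2 * C) := by
  rcases Nat.eq_zero_or_pos m with h0 | h0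
  · rw [h0]
    exact Nat.zero_le _
  set q := Nat.log 2 m with hq
  have h1 : 2 ^ q ≤ m := Nat.pow_log_le_self 2 (by omega)
  have h2 : m < 2 ^ (q + 1) := Nat.lt_pow_succ_log_self (by norm_num) m
  have h3 : q < 2 * C := by
    by_contra hc
    push Not at hc
    have h4 := PolyS_pow1 q
    have h5 : 2 * C * (q + 2) ≤ q * (q + 2) := Nat.mul_le_mul_right _ hc
    have h6 : 2 ^ (q + 1) = 2 * 2 ^ q := by ring
    have h7 : 2 * (C * (q + 2)) = 2 * C * (q + 2) := by ring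
    omega
  have h8 : 2 ^ (q + 1) ≤ 2 ^ (2 * C) := Nat.pow_le_pow_right (by norm_num) (by omega)
  omega

/-- The case of small `s`: if `m < 18 s L` with `2 ^ (L - 1) ≤ binom(m + s, m)` then `m` is bounded
in terms of `s`. Proof: `binom(m + s, m) ≤ (m + s) ^ s ≤ (2 m) ^ s < 2 ^ (s (Nat.log 2 m + 2))`, so
`L ≤ s (Nat.log 2 m + 2)` and `m < 18 s ^ 2 (Nat.log 2 m + 2)`, which bounds `m`. -/
theorem small_s (S : ℕ) : ∃ M : ℕ, ∀ m s : ℕ, 1 ≤ s → s ≤ S → s ≤ m →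
    m < 18 * s * (Nat.log 2 ((m + s).choose m) + 1) → m ≤ M := by
  refine ⟨2 ^ (2 * (18 * S * S)), fun m s hs hsS hsm hm => ?_⟩
  refine PolyS_bound ?_
  have h1 := PolyS_log hs hsm
  calc m < 18 * s * (Nat.log 2 ((m + s).choose m) + 1) := hm
    _ ≤ 18 * s * (s * (Nat.log 2 m + 2)) := Nat.mul_le_mul_left _ h1
    _ = 18 * s * s * (Nat.log 2 m + 2) := by ring
    _ ≤ 18 * S * S * (Nat.log 2 m + 2) := by gcongr

private theorem PolyS_pow2 (q : ℕ) (hq : 17 ≤ q) : 18 * (q + 1) ^ 2 * (q + 2) ≤ 2 ^ q := by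
  induction q, hq using Nat.le_induction with
  | base => norm_num
  | succ n hn ih =>
    rw [pow_succ 2 n]
    have h1 : 18 * (n + 1 + 1) ^ 2 * (n + 1 + 2) ≤ 18 * (n + 1) ^ 2 * (n + 2) * 2 := by
      nlinarith [mul_le_mul hn hn (by norm_num) (by omega), mul_le_mul (mul_le_mul hn hn (by norm_num)
        (by omega)) hn (by norm_num) (by positivity)]
    omega

private theorem PolyS_pow3 (j : ℕ) (hj : 17 ≤ j) : 6 * (8 * j + 8) ^ 2 ≤ 2 ^ j := by
  induction j, hj using Nat.le_induction with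
  | base => norm_num
  | succ n hn ih =>
    rw [pow_succ 2 n]
    have h1 : 6 * (8 * (n + 1) + 8) ^ 2 ≤ 6 * (8 * n + 8) ^ 2 * 2 := by
      nlinarith
    omega

/-- For large `s` the number `j` of the stages is small. Proof: `L = Nat.log 2 (binom(m + s, m)) + 1
≤ s (Nat.log 2 m + 2)` and `m < 18 s L` give `m ≤ s ^ 3` and `L ≤ s ^ 2` for large `s`, so
`Nat.clog k' (6 L) ≤ Nat.clog 2 (6 L) ≤ 2 log_2 s + 4 ≤ s / 8` for `k' ≥ 2`. -/
theorem small_j : ∃ S : ℕ, ∀ m s k' : ℕ, S ≤ s → s ≤ m → 2 ≤ k' →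
    m < 18 * s * (Nat.log 2 ((m + s).choose m) + 1) →
    8 * Nat.clog k' (6 * (Nat.log 2 ((m + s).choose m) + 1)) ≤ s := by
  refine ⟨136, fun m s k' hS hsm hk hm => ?_⟩
  have h1 := PolyS_log (by omega : 1 ≤ s) hsm
  set L := Nat.log 2 ((m + s).choose m) + 1 with hL
  set q := Nat.log 2 m with hq
  have h2 : 2 ^ q ≤ m := Nat.pow_log_le_self 2 (by omega)
  have h3 : q + 2 ≤ s := by
    by_contra hc
    push Not at hc
    have h4 := PolyS_pow2 q (by omega)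
    have h5 : 18 * s * L ≤ 18 * s * (s * (q + 2)) := Nat.mul_le_mul_left _ h1
    have h6 : 18 * s * (s * (q + 2)) ≤ 18 * (q + 1) * ((q + 1) * (q + 2)) := by
      have h7 : s ≤ q + 1 := by omega
      gcongr
    have h8 : 18 * (q + 1) * ((q + 1) * (q + 2)) = 18 * (q + 1) ^ 2 * (q + 2) := by ring
    omega
  have h9 : L ≤ s ^ 2 := by
    calc L ≤ s * (q + 2) := h1
      _ ≤ s * s := Nat.mul_le_mul_left _ h3
      _ = s ^ 2 := by ring
  have h10 : 6 * L ≤ k' ^ (s / 8) := by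
    calc 6 * L ≤ 6 * s ^ 2 := by omega
      _ ≤ 6 * (8 * (s / 8) + 8) ^ 2 := by
        have h11 : s ≤ 8 * (s / 8) + 8 := by omega
        gcongr
      _ ≤ 2 ^ (s / 8) := PolyS_pow3 _ (by omega)
      _ ≤ k' ^ (s / 8) := Nat.pow_le_pow_left hk _
  have h12 : Nat.clog k' (6 * L) ≤ s / 8 := Nat.clog_le_of_le_pow h10
  omega

end Pool.Agent.Lib.MP_ffcda7_coU
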