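import Pool.Agent.Lib.MP_ffcda7_coU.PolyL
import Pool.Agent.Lib.MP_ffcda7_coU.PolyS
import Pool.Agent.Lib.MP_ffcda7_coU.Iter
import Pool.Agent.Lib.MP_ffcda7_coU.Bd4
import Pool.Agent.Lib.MP_ffcda7_coU.Triv

set_option autoImplicit false

open Finset

namespace Pool.Agent.Lib.MP_ffcda7_coU

open Pool.Agent.Lib.MP_ffcda7_co (FB HasBasis f g)

theorem exp_87 : Real.exp (8 / 7) ≤ 329 / 100 := by
  have h1 : Real.exp (8 / 7) ^ 7 = Real.exp 1 ^ 8 := by
    rw [← Real.exp_nat_mul, ← Real.exp_nat_mul]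
    norm_num
  have h2 : Real.exp 1 ^ 8 ≤ (2.7182818286 : ℝ) ^ 8 :=
    pow_le_pow_left₀ (Real.exp_pos 1).le Real.exp_one_lt_d9.le 8
  by_contra hcon
  push Not at hcon
  have h3 : (329 / 100 : ℝ) ^ 7 < Real.exp (8 / 7) ^ 7 :=
    pow_lt_pow_left₀ hcon (by norm_num) (by norm_num)
  rw [h1] at h3
  have h4 := h3.trans_le h2
  norm_num at h4

theorem exp_34 : Real.exp (3 / 4) ≤ 11 / 5 := by
  have h1 : Real.exp (3 / 4) ^ 4 = Real.exp 1 ^ 3 := by
    rw [← Real.exp_nat_mul, ← Real.exp_nat_mul]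
    norm_num
  have h2 : Real.exp 1 ^ 3 ≤ (2.7182818286 : ℝ) ^ 3 :=
    pow_le_pow_left₀ (Real.exp_pos 1).le Real.exp_one_lt_d9.le 3
  by_contra hcon
  push Not at hcon
  have h3 : (11 / 5 : ℝ) ^ 4 < Real.exp (3 / 4) ^ 4 :=
    pow_lt_pow_left₀ hcon (by norm_num) (by norm_num)
  rw [h1] at h3
  have h4 := h3.trans_le h2
  norm_num at h4

theorem stage (a m s t j k R : ℕ) (ha : 0 < a) (hm : m = a + j * k) (_hs : s = t + j)
    (hE : Real.exp (((s : ℝ) * k) / a) * (m + s) ≤ R * (t + 1)) :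
    m ^ s * (m + s) ^ j ≤ R ^ j * (a ^ s * (t + 1) ^ j) := by
  have ha' : (0 : ℝ) < a := by exact_mod_cast ha
  have h1 : (m : ℝ) ≤ a * Real.exp (((j : ℝ) * k) / a) := by
    have := Real.add_one_le_exp (((j : ℝ) * k) / a)
    calc (m : ℝ) = a * (((j : ℝ) * k) / a + 1) := by
          rw [hm]
          push_cast
          field_simp
          ring
      _ ≤ _ := mul_le_mul_of_nonneg_left this (Nat.cast_nonneg a)
  have h2 : (m : ℝ) ^ s ≤ a ^ s * Real.exp (((s : ℝ) * k) / a) ^ j := by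
    have e : Real.exp (((j : ℝ) * k) / a) ^ s = Real.exp (((s : ℝ) * k) / a) ^ j := by
      rw [← Real.exp_nat_mul, ← Real.exp_nat_mul]
      congr 1
      ring
    calc (m : ℝ) ^ s ≤ (a * Real.exp (((j : ℝ) * k) / a)) ^ s :=
          pow_le_pow_left₀ (Nat.cast_nonneg m) h1 s
      _ = a ^ s * Real.exp (((s : ℝ) * k) / a) ^ j := by rw [mul_pow, e]
  have h3 : (m : ℝ) ^ s * (m + s) ^ j ≤ R ^ j * (a ^ s * (t + 1) ^ j) := by
    calc (m : ℝ) ^ s * (m + s) ^ j ≤ a ^ s * Real.exp (((s : ℝ) * k) / a) ^ j * (m + s) ^ j :=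
          mul_le_mul_of_nonneg_right h2 (by positivity)
      _ = a ^ s * (Real.exp (((s : ℝ) * k) / a) * (m + s)) ^ j := by rw [mul_pow]; ring
      _ ≤ a ^ s * (R * (t + 1)) ^ j :=
          mul_le_mul_of_nonneg_left (pow_le_pow_left₀ (by positivity) hE j) (by positivity)
      _ = _ := by rw [mul_pow]; ring
  exact_mod_cast h3

theorem poly_bound (a m s t j k L R : ℕ) (ha : 3 ≤ a) (hm : m = a + j * k) (hs : s = t + j)
    (hE : Real.exp (((s : ℝ) * k) / a) * (m + s) ≤ R * (t + 1)) (hR : 1 ≤ R)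
    (hjL : 6 * L ≤ (k + 1) ^ j) (hB : (m + s).choose m ≤ 2 ^ L) :
    (m + s).choose m ≤ R ^ j * g m s := by
  have hRj : 1 ≤ R ^ j := Nat.one_le_pow _ _ hR
  have h1 := main2 a t k j L ha hjL
  rw [← hm, ← hs] at h1
  rcases le_total ((a + t).choose a) (2 ^ L) with h2 | h2
  · rw [min_eq_left h2] at h1
    have h3 := loss2 a (j * k) t j
    rw [← hm, ← hs] at h3
    have h4 := stage a m s t j k R (by omega) hm hs hE
    have h5 : 0 < a ^ s * (t + 1) ^ j := by positivity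
    refine Nat.le_of_mul_le_mul_right ?_ h5
    calc (m + s).choose m * (a ^ s * (t + 1) ^ j) ≤ m ^ s * (m + s) ^ j * (a + t).choose a := h3
      _ ≤ R ^ j * (a ^ s * (t + 1) ^ j) * g m s := Nat.mul_le_mul h4 h1
      _ = R ^ j * g m s * (a ^ s * (t + 1) ^ j) := by ring
  · rw [min_eq_right h2] at h1
    calc (m + s).choose m ≤ 2 ^ L := hB
      _ ≤ g m s := h1
      _ = 1 * g m s := (one_mul _).symm
      _ ≤ R ^ j * g m s := Nat.mul_le_mul_right _ hRj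

theorem stage_gen (a m s t j k : ℕ) (hk : k = m / s) (hk1 : 1 ≤ k) (hs100 : 100 ≤ s)
    (hm : m = a + j * k) (hs : s = t + j) (hj : 8 * j ≤ s) :
    Real.exp (((s : ℝ) * k) / a) * (m + s) ≤ ((8 * (k + 1) : ℕ) : ℝ) * (t + 1) := by
  have h1 : k * s ≤ m := by
    rw [hk]
    exact Nat.div_mul_le_self m s
  have h2 : m < (k + 1) * s := by
    have := Nat.lt_div_mul_add (a := m) (b := s) (by omega)
    rw [← hk] at this
    calc m < k * s + s := this
      _ = (k + 1) * s := by ring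
  have h3 : 8 * (j * k) ≤ m := by
    calc 8 * (j * k) = k * (8 * j) := by ring
      _ ≤ k * s := Nat.mul_le_mul_left k hj
      _ ≤ m := h1
  have ha0 : 0 < a := by
    by_contra hcon
    have h4 : a = 0 := by omega
    have h5 : 0 < k * s := Nat.mul_pos hk1 (by omega)
    omega
  have ha' : (0 : ℝ) < a := by exact_mod_cast ha0
  have h4 : ((s : ℝ) * k) / a ≤ 8 / 7 := by
    rw [div_le_div_iff₀ ha' (by norm_num)]
    have h5 : 7 * (k * s) ≤ 8 * a := by omega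
    have h6 : (7 : ℝ) * (k * s) ≤ 8 * a := by exact_mod_cast h5
    linarith
  have h5 : Real.exp (((s : ℝ) * k) / a) ≤ 329 / 100 := (Real.exp_le_exp.2 h4).trans exp_87
  have h6 : ((m : ℝ) + s) ≤ 2 * (k + 1) * (t + 1) := by
    have h7 : m + s ≤ 2 * (k + 1) * (t + 1) := by
      have h8 : 7 * s ≤ 8 * t := by omega
      have h9 : (k + 1) * (7 * s) ≤ (k + 1) * (8 * t) := Nat.mul_le_mul_left _ h8
      have h10 : s ≤ k * s := Nat.le_mul_of_pos_left s hk1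
      nlinarith
    exact_mod_cast h7
  have h7 : (0 : ℝ) ≤ (k + 1) * (t + 1) := by positivity
  calc Real.exp (((s : ℝ) * k) / a) * (m + s) ≤ 329 / 100 * (2 * (k + 1) * (t + 1)) :=
        mul_le_mul h5 h6 (by positivity) (by norm_num)
    _ ≤ ((8 * (k + 1) : ℕ) : ℝ) * (t + 1) := by
        push_cast
        nlinarith

theorem stage_one (a m s t j : ℕ) (hsm : s ≤ m) (hm2 : m < 2 * s) (hs100 : 100 ≤ s)
    (hm : m = a + j * 1) (hs : s = t + j) (hj : 8 * j ≤ s) :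
    Real.exp (((s : ℝ) * (1 : ℕ)) / a) * (m + s) ≤ ((8 : ℕ) : ℝ) * (t + 1) := by
  have ha0 : 0 < a := by omega
  have ha' : (0 : ℝ) < a := by exact_mod_cast ha0
  have hs0 : (0 : ℝ) < s := by exact_mod_cast (by omega : 0 < s)
  have ht : (7 : ℝ) * s ≤ 8 * (t + 1) := by
    have : 7 * s ≤ 8 * (t + 1) := by omega
    exact_mod_cast this
  suffices h : Real.exp (((s : ℝ) * (1 : ℕ)) / a) * (m + s) ≤ 7 * s by
    push_cast at h ⊢
    linarith
  rw [Nat.cast_one, mul_one]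
  have key : ∀ q E w : ℝ, (s : ℝ) / a ≤ q → Real.exp q ≤ E → ((m : ℝ) + s) ≤ w * s → 0 ≤ w →
      E * w ≤ 7 → Real.exp ((s : ℝ) / a) * (m + s) ≤ 7 * s := by
    intro q E w h1 h2 h3 h4 h5
    have h6 : Real.exp ((s : ℝ) / a) ≤ E := (Real.exp_le_exp.2 h1).trans h2
    calc Real.exp ((s : ℝ) / a) * (m + s) ≤ E * (w * s) :=
          mul_le_mul h6 h3 (by positivity) ((Real.exp_pos _).le.trans h2)
      _ = E * w * s := by ring
      _ ≤ 7 * s := mul_le_mul_of_nonneg_right h5 hs0.le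
  by_cases c1 : 8 * m ≤ 9 * s
  · refine key (8 / 7) (329 / 100) (17 / 8) ?_ exp_87 ?_ (by norm_num) (by norm_num)
    · rw [div_le_div_iff₀ ha' (by norm_num)]
      have h5 : 7 * s ≤ 8 * a := by omega
      have h6 : (7 : ℝ) * s ≤ 8 * a := by exact_mod_cast h5
      linarith
    · have h6 : (8 : ℝ) * m ≤ 9 * s := by exact_mod_cast c1
      linarith
  · by_cases c2 : 2 * m ≤ 3 * s
    · refine key 1 (2.7182818286) (5 / 2) ?_ Real.exp_one_lt_d9.le ?_ (by norm_num) (by norm_num)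
      · rw [div_le_one ha']
        exact_mod_cast (by omega : s ≤ a)
      · have h6 : (2 : ℝ) * m ≤ 3 * s := by exact_mod_cast c2
        linarith
    · refine key (3 / 4) (11 / 5) 3 ?_ exp_34 ?_ (by norm_num) (by norm_num)
      · rw [div_le_div_iff₀ ha' (by norm_num)]
        have h5 : 4 * s ≤ 3 * a := by omega
        have h6 : (4 : ℝ) * s ≤ 3 * a := by exact_mod_cast h5
        linarith
      · have h6 : (m : ℝ) ≤ 2 * s := by exact_mod_cast hm2.le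
        linarith

/-- The exponent 3. -/
theorem polylog3 : ∃ C : ℕ, ∀ m s : ℕ, 1 ≤ s → s ≤ m →
    (m + s).choose m ≤ C * Nat.log 2 ((m + s).choose m) ^ 3 * g m s := by
  obtain ⟨S0, hS0⟩ := small_j
  obtain ⟨S, hS⟩ : ∃ S, S = max S0 100 := ⟨_, rfl⟩
  obtain ⟨M, hM⟩ := small_s S
  refine ⟨2 ^ (2 * M) + 100000, fun m s hs hsm => ?_⟩
  have hM' := hM m s hs
  have hS0' := hS0 m s
  have hbd4 := bd4 m s (Nat.log 2 ((m + s).choose m) + 1) hs
    (Nat.lt_pow_succ_log_self one_lt_two _).le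
  have hpb := fun a t j k R => poly_bound a m s t j k (Nat.log 2 ((m + s).choose m) + 1) R
  have hBL := Nat.lt_pow_succ_log_self one_lt_two ((m + s).choose m)
  have hB2 : 2 ≤ (m + s).choose m := by
    have h1 : (m + 1).choose m ≤ (m + s).choose m := Nat.choose_le_choose m (by omega)
    rw [Nat.choose_succ_self_right] at h1
    omega
  have hl1 : 1 ≤ Nat.log 2 ((m + s).choose m) := Nat.log_pos one_lt_two hB2
  have hBtwo : (m + s).choose m ≤ 2 ^ (m + s) := Nat.choose_le_two_pow _ _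
  obtain ⟨l, hl⟩ : ∃ l, l = Nat.log 2 ((m + s).choose m) := ⟨_, rfl⟩
  rw [← hl] at hM' hS0' hbd4 hpb hBL hl1 ⊢
  obtain ⟨B, hB⟩ : ∃ B, B = (m + s).choose m := ⟨_, rfl⟩
  rw [← hB] at hbd4 hpb hBL hB2 hBtwo ⊢
  have hg : 1 ≤ g m s := (Nat.one_le_pow _ _ (Nat.succ_pos _)).trans (pow_le_g' m s hs)
  have hl3 : 1 ≤ l ^ 3 := Nat.one_le_pow _ _ hl1
  have hQ : 1 ≤ 2 ^ (2 * M) := Nat.one_le_two_pow
  have hfin2 : ∀ K, K ≤ 2 ^ (2 * M) + 100000 → B ≤ K * l ^ 3 * g m s →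
      B ≤ (2 ^ (2 * M) + 100000) * l ^ 3 * g m s := by
    intro K h1 h2
    exact h2.trans (Nat.mul_le_mul_right _ (Nat.mul_le_mul_right _ h1))
  have hfin : ∀ K, K ≤ 12096 → B ≤ K * (l + 1) ^ 3 * g m s →
      B ≤ (2 ^ (2 * M) + 100000) * l ^ 3 * g m s := by
    intro K h1 h2
    refine hfin2 (8 * K) (by omega) (h2.trans (Nat.mul_le_mul_right _ ?_))
    have h3 : (l + 1) ^ 3 ≤ (2 * l) ^ 3 := Nat.pow_le_pow_left (by omega) 3
    calc K * (l + 1) ^ 3 ≤ K * (2 * l) ^ 3 := Nat.mul_le_mul_left _ h3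
      _ = 8 * K * l ^ 3 := by ring
  by_cases hA : 2 * s * (8 * (l + 1) + 1) ≤ m
  · have h1 := hbd4 hA
    have h2 : B < (g m s + 1) * (64 * (l + 1)) := by
      rw [← Nat.div_lt_iff_lt_mul (by omega)]
      omega
    refine hfin2 256 (by omega) ?_
    calc B ≤ (g m s + 1) * (64 * (l + 1)) := h2.le
      _ ≤ (2 * g m s) * (64 * (2 * l)) :=
        Nat.mul_le_mul (by omega) (Nat.mul_le_mul_left _ (by omega))
      _ = 256 * l * g m s := by ring
      _ ≤ 256 * l ^ 3 * g m s := by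
        refine Nat.mul_le_mul_right _ (Nat.mul_le_mul_left _ ?_)
        calc l = l ^ 1 := (pow_one l).symm
          _ ≤ l ^ 3 := Nat.pow_le_pow_right hl1 (by norm_num)
  push Not at hA
  have hm18 : m < 18 * s * (l + 1) := by
    refine hA.trans_le ?_
    calc 2 * s * (8 * (l + 1) + 1) ≤ 2 * s * (9 * (l + 1)) := Nat.mul_le_mul_left _ (by omega)
      _ = 18 * s * (l + 1) := by ring
  by_cases hsS : s ≤ S
  · have h1 := hM' hsS hsm hm18
    have h2 : B ≤ 2 ^ (2 * M) := hBtwo.trans (Nat.pow_le_pow_right (by norm_num) (by omega))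
    refine hfin2 (2 ^ (2 * M)) (by omega) ?_
    calc B ≤ 2 ^ (2 * M) * 1 * 1 := by rw [mul_one, mul_one]; exact h2
      _ ≤ 2 ^ (2 * M) * l ^ 3 * g m s := Nat.mul_le_mul (Nat.mul_le_mul_left _ hl3) hg
  push Not at hsS
  have hs100 : 100 ≤ s := by
    have : 100 ≤ S := by rw [hS]; exact le_max_right _ _
    omega
  have hsS0 : S0 ≤ s := by
    have : S0 ≤ S := by rw [hS]; exact le_max_left _ _
    omega
  obtain ⟨k, hk⟩ : ∃ k, k = m / s := ⟨_, rfl⟩
  have hk1 : 1 ≤ k := by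
    rw [hk]
    exact Nat.div_pos hsm (by omega)
  have hks : k * s ≤ m := by
    rw [hk]
    exact Nat.div_mul_le_self m s
  have hk18 : k + 1 ≤ 18 * (l + 1) := by
    have : m / s < 18 * (l + 1) := by
      apply Nat.div_lt_of_lt_mul
      calc m < 18 * s * (l + 1) := hm18
        _ = s * (18 * (l + 1)) := by ring
    omega
  have hj8 := hS0' (k + 1) hsS0 hsm (by omega) hm18
  have hj1 : 1 ≤ Nat.clog (k + 1) (6 * (l + 1)) := Nat.clog_pos (by omega) (by omega)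
  have hjp := Nat.pow_pred_clog_lt_self (b := k + 1) (x := 6 * (l + 1)) (by omega) (by omega)
  have hjL := Nat.le_pow_clog (b := k + 1) (by omega) (6 * (l + 1))
  obtain ⟨i, hi⟩ : ∃ i, Nat.clog (k + 1) (6 * (l + 1)) = i + 1 :=
    ⟨_, (Nat.sub_add_cancel hj1).symm⟩
  rw [hi] at hj8 hjp hjL
  rw [Nat.pred_succ] at hjp
  have h8jk : 8 * ((i + 1) * k) ≤ m := by
    calc 8 * ((i + 1) * k) = k * (8 * (i + 1)) := by ring
      _ ≤ k * s := Nat.mul_le_mul_left k hj8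
      _ ≤ m := hks
  obtain ⟨a, ha⟩ : ∃ a, m = a + (i + 1) * k := ⟨m - (i + 1) * k, by omega⟩
  obtain ⟨t, ht⟩ : ∃ t, s = t + (i + 1) := ⟨s - (i + 1), by omega⟩
  have ha3 : 3 ≤ a := by omega
  by_cases hk2 : k = 1
  · subst hk2
    have hm2 : m < 2 * s := by
      have := Nat.lt_div_mul_add (a := m) (b := s) (by omega)
      rw [← hk] at this
      omega
    have h1 := hpb a t (i + 1) 1 8 ha3 ha ht
      (stage_one a m s t (i + 1) hsm hm2 hs100 ha ht hj8) (by norm_num) hjL hBL.le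
    refine hfin 1728 (by norm_num) (h1.trans (Nat.mul_le_mul_right _ ?_))
    calc 8 ^ (i + 1) = 8 * (2 ^ i) ^ 3 := by rw [pow_succ, ← pow_mul, mul_comm i 3, pow_mul]; norm_num; ring
      _ ≤ 8 * (6 * (l + 1)) ^ 3 := Nat.mul_le_mul_left _ (Nat.pow_le_pow_left hjp.le 3)
      _ = 1728 * (l + 1) ^ 3 := by ring
  · have h1 := hpb a t (i + 1) k (8 * (k + 1)) ha3 ha ht
      (stage_gen a m s t (i + 1) k hk hk1 hs100 ha ht hj8) (by omega) hjL hBL.le
    have e1 : (8 * (k + 1)) ^ (i + 1) = 8 * 8 ^ i * ((k + 1) * (k + 1) ^ i) := by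
      rw [mul_pow, pow_succ, pow_succ]
      ring
    by_cases hk7 : k + 1 ≤ 7
    · refine hfin 12096 le_rfl (h1.trans (Nat.mul_le_mul_right _ ?_))
      rw [e1]
      have h2 : 8 ^ i ≤ (6 * (l + 1)) ^ 2 := by
        calc 8 ^ i ≤ 9 ^ i := Nat.pow_le_pow_left (by norm_num) i
          _ = (3 ^ i) ^ 2 := by rw [← pow_mul, mul_comm i 2, pow_mul]; norm_num
          _ ≤ (6 * (l + 1)) ^ 2 :=
            Nat.pow_le_pow_left ((Nat.pow_le_pow_left (by omega) i).trans hjp.le) 2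
      calc 8 * 8 ^ i * ((k + 1) * (k + 1) ^ i) ≤ 8 * (6 * (l + 1)) ^ 2 * (7 * (6 * (l + 1))) :=
            Nat.mul_le_mul (Nat.mul_le_mul_left _ h2) (Nat.mul_le_mul hk7 hjp.le)
        _ = 12096 * (l + 1) ^ 3 := by ring
    · refine hfin 5184 (by norm_num) (h1.trans (Nat.mul_le_mul_right _ ?_))
      rw [e1]
      have h2 : 8 ^ i ≤ 6 * (l + 1) := (Nat.pow_le_pow_left (by omega) i).trans hjp.le
      calc 8 * 8 ^ i * ((k + 1) * (k + 1) ^ i) ≤
            8 * (6 * (l + 1)) * (18 * (l + 1) * (6 * (l + 1))) :=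
            Nat.mul_le_mul (Nat.mul_le_mul_left _ h2) (Nat.mul_le_mul hk18 hjp.le)
        _ = 5184 * (l + 1) ^ 3 := by ring

/-- Proof: let `B = binom(m + s, m)`, `l = Nat.log 2 B ≥ 1`, `L = l + 1`, `g m s ≥ 1`. If
`2 s (8 L + 1) ≤ m`, `bd4` gives `B ≤ 64 L (g + 1) ≤ 256 l g`. Otherwise `m < 18 s L`. Take `S` from
`small_j` (enlarge it to `S ≥ 100`). If `s ≤ S`, `small_s` bounds `m` and so `B` by a constant.
Let `s ≥ S`, `k = m / s ≥ 1` (floor), `k' = k + 1`, `j = Nat.clog k' (6 L)`, so `6 L ≤ k' ^ j`,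
`k' ^ j ≤ 6 L k'`, `8 j ≤ s`, `8 j k ≤ m`. By `main2` for `(m - j k, s - j)`,
`g ≥ binom(m - j k + s - j, m - j k)` (at most `B ≤ 2 ^ L`). By `loss2` with `a = m - j k`,
`t = s - j`: `B ≤ (m / a) ^ s ((m + s) / (t + 1)) ^ j g`, and `(m / a) ^ s ≤ exp (j k s / a) ≤
exp (2 j)`, `(m + s) / (t + 1) ≤ 2 (m + s) / s ≤ 2 (k' + 1) ≤ 3 k'`. So `B ≤ 23 ^ j k' ^ j g ≤
23 ^ j 6 L k' g`, with `k' ≤ 18 L + 1` and `23 ^ j ≤ 23 (6 L) ^ (log_2 23)`, `log_2 23 < 4.6`
(`2 ^ (j - 1) ≤ k' ^ (j - 1) < 6 L`, for instance `23 ^ (j - 1) ≤ 32 ^ (j - 1) ≤ (6 L) ^ 5`). -/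
theorem polylog : ∃ C : ℕ, ∀ m s : ℕ, 1 ≤ s → s ≤ m →
    (m + s).choose m ≤ C * Nat.log 2 ((m + s).choose m) ^ 7 * g m s := by
  obtain ⟨C, hC⟩ := polylog3
  refine ⟨C, fun m s hs hsm => (hC m s hs hsm).trans ?_⟩
  refine Nat.mul_le_mul_right _ (Nat.mul_le_mul_left _ ?_)
  rcases Nat.eq_zero_or_pos (Nat.log 2 ((m + s).choose m)) with h | h
  · rw [h]
    norm_num
  · exact Nat.pow_le_pow_right h (by norm_num)

end Pool.Agent.Lib.MP_ffcda7_coU
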