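import Pool.Agent.Lib.MP_ffcda7_coU.Poly
import Pool.Agent.Lib.MP_ffcda7_coU.Loss

set_option autoImplicit false

open Finset

namespace Pool.Agent.Lib.MP_ffcda7_coU

open Pool.Agent.Lib.MP_ffcda7_co (FB HasBasis f g)

private theorem polyK_pow (K m i : ℕ) (hi : i = m / 4) (hm : 192 * (K + 1) ≤ m) :
    12 * (K + 1) * m ≤ 2 ^ (2 * i) ∧ 2 * (2 * i) ≤ m := by
  have h1 : 48 * (K + 1) ≤ i := by omega
  have h2 : i < 2 ^ i := Nat.lt_two_pow_self
  have h3 : m ≤ 4 * (i + 1) := by omega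
  refine ⟨?_, by omega⟩
  calc 12 * (K + 1) * m ≤ 12 * (K + 1) * (4 * (i + 1)) := Nat.mul_le_mul_left _ h3
    _ = 48 * (K + 1) * (i + 1) := by ring
    _ ≤ 2 ^ i * 2 ^ i := Nat.mul_le_mul (by omega) (by omega)
    _ = 2 ^ (2 * i) := by rw [← pow_add, two_mul]

/-- Proof: let `B = binom(m + s, m)`, `l = Nat.log 2 B ≥ 1`, `L = l + 1 ≤ (K + 1) m + 1`. For `s ≤ m`
use `polylog` (its exponent is at most `C`). Let `m < s ≤ K m`. If `m` is small (less than a constant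
depending on `K`) then `B` is bounded and `g m s ≥ 1`. Otherwise let `j = Nat.clog 2 (6 L)`, so
`2 ^ j ≤ 12 L` and `4 j ≤ m`, and take `main2` with `k = 1` for `(m - j, s - j)`:
`g m s ≥ binom(m - j + s - j, m - j)` (at most `B ≤ 2 ^ L`). By `loss` with `a = m - j`,
`b = s - j`: `B ≤ ((m + s) ^ 2 / ((a + 1) (b + 1))) ^ j g ≤ (4 (m + s) ^ 2 / (m s)) ^ j g ≤
(4 (K + 3)) ^ j g ≤ (2 ^ e) ^ j g ≤ (12 L) ^ e g` with `2 ^ e ≥ 4 (K + 3)`, and `12 L ≤ 24 l`. -/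
theorem polyK (K : ℕ) : ∃ C : ℕ, ∀ m s : ℕ, 1 ≤ m → 1 ≤ s → s ≤ K * m →
    (m + s).choose m ≤ C * Nat.log 2 ((m + s).choose m) ^ C * g m s := by
  obtain ⟨C1, hC1⟩ := polylog
  obtain ⟨M0, hM0⟩ : ∃ M0, M0 = 192 * (K + 1) := ⟨_, rfl⟩
  obtain ⟨e, he⟩ : ∃ e, e = 16 * K := ⟨_, rfl⟩
  obtain ⟨Q, hQ⟩ : ∃ Q, Q = 2 ^ ((K + 1) * M0) := ⟨_, rfl⟩
  obtain ⟨R, hR⟩ : ∃ R, R = 24 ^ e := ⟨_, rfl⟩
  refine ⟨7 + C1 + e + R + Q, fun m s hm1 hs hsK => ?_⟩
  obtain ⟨Z, hZ⟩ : ∃ Z, Z = 7 + C1 + e + R + Q := ⟨_, rfl⟩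
  rw [← hZ]
  have hC1' := hC1 m s hs
  have hBL := Nat.lt_pow_succ_log_self one_lt_two ((m + s).choose m)
  have hB2 : 2 ≤ (m + s).choose m := by
    have h1 : (m + 1).choose m ≤ (m + s).choose m := Nat.choose_le_choose m (by omega)
    rw [Nat.choose_succ_self_right] at h1
    omega
  have hl1 : 1 ≤ Nat.log 2 ((m + s).choose m) := Nat.log_pos one_lt_two hB2
  have hBtwo : (m + s).choose m ≤ 2 ^ (m + s) := Nat.choose_le_two_pow _ _
  have hlms : Nat.log 2 ((m + s).choose m) ≤ m + s := by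
    have h1 := Nat.log_mono_right (b := 2) hBtwo
    rwa [Nat.log_pow one_lt_two] at h1
  have hloss := fun a b j => loss a b j
  have hmsK : m + s ≤ (K + 1) * m := by
    calc m + s ≤ m + K * m := by omega
      _ = (K + 1) * m := by ring
  obtain ⟨l, hl⟩ : ∃ l, l = Nat.log 2 ((m + s).choose m) := ⟨_, rfl⟩
  rw [← hl] at hC1' hBL hl1 hlms ⊢
  obtain ⟨B, hB⟩ : ∃ B, B = (m + s).choose m := ⟨_, rfl⟩
  rw [← hB] at hC1' hBL hB2 hBtwo ⊢
  have hg : 1 ≤ g m s := (Nat.one_le_pow _ _ (Nat.succ_pos _)).trans (pow_le_g' m s hs)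
  have hfin : ∀ c d, c ≤ Z → d ≤ Z → B ≤ c * l ^ d * g m s → B ≤ Z * l ^ Z * g m s := by
    intro c d h1 h2 h3
    exact h3.trans (Nat.mul_le_mul_right _ (Nat.mul_le_mul h1 (Nat.pow_le_pow_right hl1 h2)))
  rcases le_or_gt s m with hsm | hsm
  · exact hfin C1 7 (by omega) (by omega) (hC1' hsm)
  rcases lt_or_ge m M0 with hmM | hmM
  · refine hfin Q 0 (by omega) (by omega) ?_
    rw [pow_zero, mul_one]
    have h1 : (K + 1) * m ≤ (K + 1) * M0 := Nat.mul_le_mul_left _ hmM.le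
    calc B ≤ 2 ^ (m + s) := hBtwo
      _ ≤ 2 ^ ((K + 1) * M0) := Nat.pow_le_pow_right (by norm_num) (hmsK.trans h1)
      _ = Q * 1 := by rw [mul_one, hQ]
      _ ≤ Q * g m s := Nat.mul_le_mul_left _ hg
  obtain ⟨i, hi⟩ : ∃ i, i = m / 4 := ⟨_, rfl⟩
  obtain ⟨h4, h5⟩ := polyK_pow K m i hi (by omega)
  have h6 : 6 * (l + 1) ≤ 2 ^ (2 * i) := by
    refine le_trans ?_ h4
    have h7 : l + 1 ≤ 2 * ((K + 1) * m) := by
      have : 1 ≤ (K + 1) * m := Nat.mul_pos (by omega) hm1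
      omega
    calc 6 * (l + 1) ≤ 6 * (2 * ((K + 1) * m)) := Nat.mul_le_mul_left _ h7
      _ = 12 * (K + 1) * m := by ring
  have hj1 : 1 ≤ Nat.clog 2 (6 * (l + 1)) := Nat.clog_pos (by omega) (by omega)
  have hjp := Nat.pow_pred_clog_lt_self (b := 2) (x := 6 * (l + 1)) (by omega) (by omega)
  have hjL := Nat.le_pow_clog (b := 2) (by omega) (6 * (l + 1))
  have hji : Nat.clog 2 (6 * (l + 1)) ≤ 2 * i := Nat.clog_le_of_le_pow h6
  obtain ⟨j, hj⟩ : ∃ j, j = Nat.clog 2 (6 * (l + 1)) := ⟨_, rfl⟩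
  rw [← hj] at hj1 hjp hjL hji
  have h2j : 2 * j ≤ m := by omega
  have h2j' : 2 ^ j ≤ 24 * l := by
    have e1 : j = j.pred + 1 := (Nat.succ_pred_eq_of_pos hj1).symm
    rw [e1, pow_succ]
    omega
  obtain ⟨a, ha⟩ : ∃ a, m = a + j := ⟨m - j, by omega⟩
  obtain ⟨t, ht⟩ : ∃ t, s = t + j := ⟨s - j, by omega⟩
  have ha3 : 3 ≤ a := by omega
  have h8 := main2 a t 1 j (l + 1) ha3 hjL
  rw [mul_one, ← ha, ← ht] at h8
  rcases le_total ((a + t).choose a) (2 ^ (l + 1)) with h9 | h9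
  · rw [min_eq_left h9] at h8
    have h10 := hloss a t j
    rw [← ha, ← ht, ← hB] at h10
    have e2 : a + t + 2 * j = m + s := by omega
    rw [e2] at h10
    have h11 : (m + s) ^ 2 ≤ e * ((a + 1) * (t + 1)) := by
      have h12 : m ≤ 2 * (a + 1) := by omega
      have h13 : s ≤ 2 * (t + 1) := by omega
      calc (m + s) ^ 2 ≤ (2 * s) ^ 2 := Nat.pow_le_pow_left (by omega) 2
        _ = 4 * s * s := by ring
        _ ≤ 4 * (K * m) * s := Nat.mul_le_mul_right _ (Nat.mul_le_mul_left _ hsK)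
        _ = 4 * K * (m * s) := by ring
        _ ≤ 4 * K * ((2 * (a + 1)) * (2 * (t + 1))) :=
          Nat.mul_le_mul_left _ (Nat.mul_le_mul h12 h13)
        _ = e * ((a + 1) * (t + 1)) := by rw [he]; ring
    have h14 : B ≤ e ^ j * g m s := by
      have h15 : 0 < ((a + 1) * (t + 1)) ^ j := by positivity
      refine Nat.le_of_mul_le_mul_left ?_ h15
      calc ((a + 1) * (t + 1)) ^ j * B ≤ (m + s) ^ (2 * j) * (a + t).choose a := h10
        _ ≤ (m + s) ^ (2 * j) * g m s := Nat.mul_le_mul_left _ h8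
        _ = ((m + s) ^ 2) ^ j * g m s := by rw [pow_mul]
        _ ≤ (e * ((a + 1) * (t + 1))) ^ j * g m s :=
          Nat.mul_le_mul_right _ (Nat.pow_le_pow_left h11 j)
        _ = ((a + 1) * (t + 1)) ^ j * (e ^ j * g m s) := by rw [mul_pow]; ring
    refine hfin R e (by omega) (by omega) (h14.trans (Nat.mul_le_mul_right _ ?_))
    calc e ^ j ≤ (2 ^ e) ^ j := Nat.pow_le_pow_left Nat.lt_two_pow_self.le j
      _ = (2 ^ j) ^ e := by rw [← pow_mul, ← pow_mul, mul_comm]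
      _ ≤ (24 * l) ^ e := Nat.pow_le_pow_left h2j' e
      _ = R * l ^ e := by rw [mul_pow, hR]
  · rw [min_eq_right h9] at h8
    refine hfin 1 0 (by omega) (by omega) ?_
    rw [pow_zero, one_mul, one_mul]
    exact hBL.le.trans h8

end Pool.Agent.Lib.MP_ffcda7_coU
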