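import Pool.Agent.Lib.MP_ffcda7_coU.Defs

set_option autoImplicit false

open Finset

namespace Pool.Agent.Lib.MP_ffcda7_coU

private theorem polyL_one (a p s : ℕ) :
    (a + p + s).choose (a + p) * a ^ s ≤ (a + p) ^ s * (a + s).choose a := by
  induction s with
  | zero => simp
  | succ s ih =>
    have h1 : (a + p + s).choose (a + p) * (a + p + s + 1) =
        (a + p + s + 1).choose (a + p) * (a + p + s + 1 - (a + p)) :=
      Nat.choose_mul_succ_eq (a + p + s) (a + p)
    have h2 : (a + s).choose a * (a + s + 1) = (a + s + 1).choose a * (a + s + 1 - a) :=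
      Nat.choose_mul_succ_eq (a + s) a
    have e1 : a + p + s + 1 - (a + p) = s + 1 := by omega
    have e2 : a + s + 1 - a = s + 1 := by omega
    rw [e1] at h1
    rw [e2] at h2
    have e3 : a + p + (s + 1) = a + p + s + 1 := by omega
    have e4 : a + (s + 1) = a + s + 1 := by omega
    rw [e3, e4]
    have h3 : (a + p + s + 1) * a ≤ (a + p) * (a + s + 1) := by nlinarith
    have h4 : (a + p + s + 1).choose (a + p) * a ^ (s + 1) * (s + 1) ≤
        (a + p) ^ (s + 1) * (a + s + 1).choose a * (s + 1) := by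
      calc (a + p + s + 1).choose (a + p) * a ^ (s + 1) * (s + 1)
          = ((a + p + s + 1).choose (a + p) * (s + 1)) * (a ^ s * a) := by
            rw [pow_succ]; ring
        _ = ((a + p + s).choose (a + p) * (a + p + s + 1)) * (a ^ s * a) := by rw [h1]
        _ = ((a + p + s + 1) * a) * ((a + p + s).choose (a + p) * a ^ s) := by ring
        _ ≤ ((a + p) * (a + s + 1)) * ((a + p) ^ s * (a + s).choose a) :=
            Nat.mul_le_mul h3 ih
        _ = (a + p) ^ s * (a + p) * ((a + s).choose a * (a + s + 1)) := by ring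
        _ = (a + p) ^ s * (a + p) * ((a + s + 1).choose a * (s + 1)) := by rw [h2]
        _ = (a + p) ^ (s + 1) * (a + s + 1).choose a * (s + 1) := by
            rw [pow_succ]; ring
    exact Nat.le_of_mul_le_mul_right h4 (Nat.succ_pos s)

private theorem polyL_two (a t j : ℕ) :
    (a + (t + j)).choose a * (t + 1) ^ j ≤ (a + (t + j)) ^ j * (a + t).choose a := by
  induction j with
  | zero => simp
  | succ j ih =>
    have h2 : (a + (t + j)).choose a * (a + (t + j) + 1) =
        (a + (t + j) + 1).choose a * (a + (t + j) + 1 - a) :=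
      Nat.choose_mul_succ_eq (a + (t + j)) a
    have e2 : a + (t + j) + 1 - a = t + j + 1 := by omega
    rw [e2] at h2
    have e4 : a + (t + (j + 1)) = a + (t + j) + 1 := by omega
    rw [e4]
    calc (a + (t + j) + 1).choose a * (t + 1) ^ (j + 1)
        = (a + (t + j) + 1).choose a * (t + 1) * (t + 1) ^ j := by rw [pow_succ]; ring
      _ ≤ (a + (t + j) + 1).choose a * (t + j + 1) * (t + 1) ^ j :=
          Nat.mul_le_mul_right _ (Nat.mul_le_mul_left _ (by omega))
      _ = (a + (t + j) + 1) * ((a + (t + j)).choose a * (t + 1) ^ j) := by rw [← h2]; ring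
      _ ≤ (a + (t + j) + 1) * ((a + (t + j)) ^ j * (a + t).choose a) :=
          Nat.mul_le_mul_left _ ih
      _ ≤ (a + (t + j) + 1) * ((a + (t + j) + 1) ^ j * (a + t).choose a) :=
          Nat.mul_le_mul_left _ (Nat.mul_le_mul_right _ (Nat.pow_le_pow_left (by omega) _))
      _ = (a + (t + j) + 1) ^ (j + 1) * (a + t).choose a := by rw [pow_succ]; ring

/-- Proof: `binom(a + p + s, s) a ^ s ≤ (a + p) ^ s binom(a + s, s)` (induction on `s`, as
`(a + p + i) a ≤ (a + p) (a + i)`) and `binom(a + s, s) (t + 1) ^ j ≤ (a + s) ^ j binom(a + t, t)`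
for `s = t + j` (induction on `j`). -/
theorem loss2 (a p t j : ℕ) :
    (a + p + (t + j)).choose (a + p) * (a ^ (t + j) * (t + 1) ^ j) ≤
      (a + p) ^ (t + j) * (a + p + (t + j)) ^ j * (a + t).choose a := by
  calc (a + p + (t + j)).choose (a + p) * (a ^ (t + j) * (t + 1) ^ j)
      = (a + p + (t + j)).choose (a + p) * a ^ (t + j) * (t + 1) ^ j := by ring
    _ ≤ (a + p) ^ (t + j) * (a + (t + j)).choose a * (t + 1) ^ j :=
        Nat.mul_le_mul_right _ (polyL_one a p (t + j))
    _ = (a + p) ^ (t + j) * ((a + (t + j)).choose a * (t + 1) ^ j) := by ring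
    _ ≤ (a + p) ^ (t + j) * ((a + (t + j)) ^ j * (a + t).choose a) :=
        Nat.mul_le_mul_left _ (polyL_two a t j)
    _ ≤ (a + p) ^ (t + j) * ((a + p + (t + j)) ^ j * (a + t).choose a) :=
        Nat.mul_le_mul_left _ (Nat.mul_le_mul_right _ (Nat.pow_le_pow_left (by omega) _))
    _ = (a + p) ^ (t + j) * (a + p + (t + j)) ^ j * (a + t).choose a := by ring

end Pool.Agent.Lib.MP_ffcda7_coU
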