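import Pool.Agent.Lib.MP_ffcda7_coU.Defs

set_option autoImplicit false

open Finset

namespace Pool.Agent.Lib.MP_ffcda7_coU

/-- A common denominator for the inverses of all the Vandermonde matrices. Proof: let
`D = ∏ |det V_e|` over all injective `e` (nonzero by `Matrix.det_vandermonde_ne_zero_iff`),
`γ_e = (D / det V_e) adj(V_e)` (integer matrix), and `R0` a bound for all the entries of the finitely
many `γ_e`. -/
theorem vander (m s : ℕ) : ∃ D R0 : ℕ, 1 ≤ D ∧ ∀ e : Fin s → Fin m, Function.Injective e →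
    ∃ γ : Fin s → Fin s → ℤ, (∀ k i, |γ k i| ≤ (R0 : ℤ)) ∧
      ∀ k l : Fin s, ∑ i, γ k i * (((e i : ℕ) : ℤ) ^ (l : ℕ)) =
        if k = l then (D : ℤ) else 0 := by
  classical
  let V : (Fin s → Fin m) → Matrix (Fin s) (Fin s) ℤ :=
    fun e => Matrix.vandermonde (fun i => ((e i : ℕ) : ℤ))
  let S : Finset (Fin s → Fin m) := univ.filter (fun e => Function.Injective e)
  let D : ℕ := ∏ e ∈ S, (V e).det.natAbs
  have hdet : ∀ e ∈ S, (V e).det ≠ 0 := by
    intro e he
    have hinj : Function.Injective e := (mem_filter.mp he).2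
    refine Matrix.det_vandermonde_ne_zero_iff.mpr ?_
    intro i j hij
    have h1 : ((e i : ℕ) : ℤ) = ((e j : ℕ) : ℤ) := hij
    have h2 : (e i : ℕ) = (e j : ℕ) := by exact_mod_cast h1
    exact hinj (Fin.ext h2)
  have hD : 1 ≤ D := Nat.one_le_iff_ne_zero.mpr
    (Finset.prod_ne_zero_iff.mpr (fun e he => Int.natAbs_ne_zero.mpr (hdet e he)))
  let c : (Fin s → Fin m) → ℤ := fun e => (D : ℤ) / (V e).det
  have hc : ∀ e ∈ S, (V e).det * c e = (D : ℤ) := by
    intro e he
    apply Int.mul_ediv_cancel'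
    have h1 : (V e).det.natAbs ∣ D := Finset.dvd_prod_of_mem (fun e => (V e).det.natAbs) he
    exact Int.natAbs_dvd.mp (Int.natCast_dvd_natCast.mpr h1)
  let γ : (Fin s → Fin m) → Fin s → Fin s → ℤ := fun e k i => c e * (V e).adjugate k i
  refine ⟨D, ∑ e, ∑ k, ∑ i, (γ e k i).natAbs, hD, fun e he => ⟨γ e, fun k i => ?_, fun k l => ?_⟩⟩
  · rw [Int.abs_eq_natAbs]
    have h1 : (γ e k i).natAbs ≤ ∑ i, (γ e k i).natAbs :=
      single_le_sum (f := fun i => (γ e k i).natAbs) (fun _ _ => Nat.zero_le _) (mem_univ i)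
    have h2 : ∑ i, (γ e k i).natAbs ≤ ∑ k, ∑ i, (γ e k i).natAbs :=
      single_le_sum (f := fun k => ∑ i, (γ e k i).natAbs) (fun _ _ => Nat.zero_le _) (mem_univ k)
    have h3 : ∑ k, ∑ i, (γ e k i).natAbs ≤ ∑ e, ∑ k, ∑ i, (γ e k i).natAbs :=
      single_le_sum (f := fun e => ∑ k, ∑ i, (γ e k i).natAbs) (fun _ _ => Nat.zero_le _)
        (mem_univ e)
    exact Int.ofNat_le.mpr (h1.trans (h2.trans h3))
  · have he' : e ∈ S := mem_filter.mpr ⟨mem_univ e, he⟩
    have h : ((V e).adjugate * V e) k l = ((V e).det • (1 : Matrix (Fin s) (Fin s) ℤ)) k l := by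
      rw [Matrix.adjugate_mul]
    rw [Matrix.mul_apply, Matrix.smul_apply, Matrix.one_apply] at h
    have h4 : ∑ i, γ e k i * (((e i : ℕ) : ℤ) ^ (l : ℕ))
        = c e * ∑ i, (V e).adjugate k i * (V e) i l := by
      rw [Finset.mul_sum]
      refine Finset.sum_congr rfl (fun i _ => ?_)
      have h5 : (V e) i l = ((e i : ℕ) : ℤ) ^ (l : ℕ) := Matrix.vandermonde_apply _ _ _
      rw [h5]
      exact mul_assoc _ _ _
    rw [h4, h]
    by_cases hkl : k = l
    · rw [if_pos hkl, if_pos hkl, smul_eq_mul, mul_one, mul_comm]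
      exact hc e he'
    · rw [if_neg hkl, if_neg hkl, smul_zero, mul_zero]

end Pool.Agent.Lib.MP_ffcda7_coU
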